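import Pool.Agent.Lib.SLG.SpecG

/-!
MP_00e23e_nt, project SL, module Gcr: Chinese remainder theorem for the complete sums.
-/

set_option autoImplicit false

namespace Pool.Agent.Lib.SLG

open Finset Pool.Agent.Lib.EH3 Pool.Agent.Lib.TB Pool.Agent.Results.MP_00e23e_nt Pool.Agent.Lib.MI

/-- the exponential is periodic -/
private lemma Gcr_en (c : ℤ) (q n : ℕ) : en (c * ((n + q : ℕ) : ℤ)) q = en (c * n) q := by
  apply en_congr
  have e : c * ((n + q : ℕ) : ℤ) - c * n = q * c := by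
    push_cast
    ring
  rw [e]
  exact dvd_mul_right _ _

/-- the product of the local functions is periodic -/
private lemma Gcr_PF (P : Finset ℕ) (F : (p : ℕ) → ZMod p → ℂ) (n : ℕ) :
    PF P F ((n + ∏ p ∈ P, p : ℕ) : ℤ) = PF P F (n : ℤ) := by
  unfold PF
  refine prod_congr rfl fun q hq => ?_
  have h1 : ((∏ p ∈ P, p : ℕ) : ZMod q) = 0 :=
    (ZMod.natCast_eq_zero_iff _ _).2 (dvd_prod_of_mem _ hq)
  have h2 : (((n + ∏ p ∈ P, p : ℕ) : ℤ) : ZMod q) = ((n : ℤ) : ZMod q) := by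
    rw [Int.cast_natCast, Int.cast_natCast, Nat.cast_add, h1, add_zero]
  rw [h2]

/-- one prime more -/
private lemma Gcr_step (h1 : SL.EcrStmt) (p : ℕ) (P : Finset ℕ) (F : (p : ℕ) → ZMod p → ℂ) (j : ℤ)
    (hp : p.Prime) (hP : ∀ q ∈ P, q.Prime) (hpP : p ∉ P) :
    ∑ x ∈ range (p * ∏ q ∈ P, q), PF (insert p P) F (x : ℤ) * en (j * x) (p * ∏ q ∈ P, q) =
      (∑ x ∈ range p, F p (x : ZMod p) * en (j * (iv (∏ q ∈ P, q) p : ℤ) * x) p) *
      ∑ x ∈ range (∏ q ∈ P, q), PF P F (x : ℤ) * en (j * (iv p (∏ q ∈ P, q) : ℤ) * x) (∏ q ∈ P, q) := by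
  have hM : 1 ≤ ∏ q ∈ P, q := Nat.one_le_iff_ne_zero.2 (prod_ne_zero_iff.2 fun q hq => (hP q hq).ne_zero)
  have hcop : p.Coprime (∏ q ∈ P, q) := Nat.Coprime.prod_right fun q hq =>
    (Nat.coprime_primes hp (hP q hq)).2 fun h => hpP (h ▸ hq)
  rw [← h1 p (∏ q ∈ P, q) (fun n => F p (n : ZMod p) * en (j * (iv (∏ q ∈ P, q) p : ℤ) * n) p)
    (fun n => PF P F (n : ℤ) * en (j * (iv p (∏ q ∈ P, q) : ℤ) * n) (∏ q ∈ P, q)) hp.one_le hM hcop
    (fun n => by
      show F p ((n + p : ℕ) : ZMod p) * en (j * (iv (∏ q ∈ P, q) p : ℤ) * ((n + p : ℕ) : ℤ)) p = _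
      rw [Gcr_en, Nat.cast_add, ZMod.natCast_self, add_zero])
    (fun n => by
      show PF P F ((n + ∏ q ∈ P, q : ℕ) : ℤ) *
        en (j * (iv p (∏ q ∈ P, q) : ℤ) * ((n + ∏ q ∈ P, q : ℕ) : ℤ)) (∏ q ∈ P, q) = _
      rw [Gcr_en, Gcr_PF])]
  refine sum_congr rfl fun x _ => ?_
  have e0 : PF (insert p P) F (x : ℤ) = F p (x : ZMod p) * PF P F (x : ℤ) := by
    unfold PF
    rw [prod_insert hpP, Int.cast_natCast]
  have e1 : j * (x : ℤ) * (iv (∏ q ∈ P, q) p : ℤ) = j * (iv (∏ q ∈ P, q) p : ℤ) * x := by ring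
  have e2 : j * (x : ℤ) * (iv p (∏ q ∈ P, q) : ℤ) = j * (iv p (∏ q ∈ P, q) : ℤ) * x := by ring
  rw [e0, en_crt hcop hp.one_le hM, e1, e2]
  ring

theorem tGcr (h1 : SL.EcrStmt) : GcrStmt := by
  intro P F Bd j hP hB
  induction P using Finset.induction_on generalizing j with
  | empty =>
    rw [prod_empty, prod_empty, sum_range_one, norm_mul, norm_en, mul_one]
    unfold PF
    rw [prod_empty, norm_one]
  | insert p P hpP ih =>
    rw [prod_insert hpP, prod_insert hpP,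
      Gcr_step h1 p P F j (hP p (mem_insert_self p P)) (fun q hq => hP q (mem_insert_of_mem hq)) hpP,
      norm_mul]
    obtain ⟨h2, h3⟩ := hB p (mem_insert_self p P)
    exact mul_le_mul (h3 _) (ih _ (fun q hq => hP q (mem_insert_of_mem hq))
      (fun q hq => hB q (mem_insert_of_mem hq))) (norm_nonneg _) h2

end Pool.Agent.Lib.SLG
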