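import Pool.Agent.Lib.SLG.SpecG

/-!
Module Ggc: the average of gcd(t, M) (helper85).
-/

set_option autoImplicit false

namespace Pool.Agent.Lib.SLG

open Finset Pool.Agent.Lib.EH3 Pool.Agent.Lib.TB Pool.Agent.Results.MP_00e23e_nt Pool.Agent.Lib.MI

private theorem Ggc_cnt (T1 d : ℕ) :
    (((Ico 1 T1).filter fun t => d ∣ t).card : ℝ) * d ≤ T1 := by
  have h1 : ((Ico 1 T1).filter fun t => d ∣ t) ⊆ (Ioc 0 T1).filter fun t => d ∣ t := by
    intro t ht
    simp only [mem_filter, mem_Ico, mem_Ioc] at ht ⊢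
    exact ⟨⟨by omega, by omega⟩, ht.2⟩
  have h2 := card_le_card h1
  rw [Nat.Ioc_filter_dvd_card_eq_div] at h2
  have h3 : ((Ico 1 T1).filter fun t => d ∣ t).card * d ≤ T1 :=
    (Nat.mul_le_mul_right d h2).trans (Nat.div_mul_le_self T1 d)
  exact_mod_cast h3

/-- Module Ggc. -/
theorem tGgc : GgcStmt := by
  intro X T M T1 hT hM hMX
  have h1 : ∀ t ∈ Ico 1 T1, (Nat.gcd t M : ℝ) ≤
      ∑ d ∈ M.divisors, if d ∣ t then (d : ℝ) else 0 := by
    intro t _
    have hg : Nat.gcd t M ∈ M.divisors :=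
      Nat.mem_divisors.2 ⟨Nat.gcd_dvd_right t M, by omega⟩
    have h2 := single_le_sum (f := fun d : ℕ => if d ∣ t then (d : ℝ) else 0)
      (fun d _ => by
        split_ifs
        · exact Nat.cast_nonneg d
        · exact le_rfl) hg
    simp only [Nat.gcd_dvd_left, if_true] at h2
    exact h2
  calc ∑ t ∈ Ico 1 T1, (Nat.gcd t M : ℝ)
      ≤ ∑ t ∈ Ico 1 T1, ∑ d ∈ M.divisors, (if d ∣ t then (d : ℝ) else 0) := sum_le_sum h1
    _ = ∑ d ∈ M.divisors, ∑ t ∈ Ico 1 T1, (if d ∣ t then (d : ℝ) else 0) := sum_comm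
    _ ≤ ∑ d ∈ M.divisors, (T1 : ℝ) := by
        refine sum_le_sum fun d _ => ?_
        rw [← sum_filter, sum_const, nsmul_eq_mul]
        exact Ggc_cnt T1 d
    _ = (M.divisors.card : ℝ) * T1 := by rw [sum_const, nsmul_eq_mul]
    _ ≤ T * T1 := mul_le_mul_of_nonneg_right (hT.2.2 M hM hMX) (Nat.cast_nonneg _)
    _ = (T1 : ℝ) * T := mul_comm _ _

end Pool.Agent.Lib.SLG
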