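import Pool.Agent.Lib.SLG.SpecG

/-!
MP_00e23e_nt, project SL, chapter G, module Gks: cutting a smooth number into small factors.
-/

set_option autoImplicit false

namespace Pool.Agent.Lib.SLG

open Finset Pool.Agent.Lib.EH3 Pool.Agent.Lib.TB Pool.Agent.Results.MP_00e23e_nt Pool.Agent.Lib.MI

private lemma Gks_ext (k : ℕ) (K' : ℕ → ℕ) (r : ℕ) (Y : ℝ) (hr : (r : ℝ) ≤ Y)
    (hK : ∀ j < k, (K' j : ℝ) ≤ Y) :
    ∃ K : ℕ → ℕ, ∏ j ∈ range (k + 1), K j = (∏ j ∈ range k, K' j) * r ∧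
      ∀ j < k + 1, (K j : ℝ) ≤ Y := by
  refine ⟨fun j => if j = k then r else K' j, ?_, ?_⟩
  · rw [Finset.prod_range_succ, if_pos rfl]
    congr 1
    refine Finset.prod_congr rfl fun j hj => ?_
    rw [if_neg (Finset.mem_range.1 hj).ne]
  · intro j hj
    by_cases h : j = k
    · simp only [h, if_true]
      exact hr
    · simp only [h, if_false]
      exact hK j (lt_of_le_of_ne (Nat.lt_succ_iff.1 hj) h)

theorem tGks (h1 : BgrStmt) : GksStmt := by
  intro k
  induction k with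
  | zero =>
    intro Q Y y _ _ hQ _ hle
    rw [pow_zero] at hle
    have h2 : Q ≤ 1 := by exact_mod_cast hle
    refine ⟨fun _ => 1, ?_, fun j hj => absurd hj (Nat.not_lt_zero j)⟩
    rw [Finset.range_zero, Finset.prod_empty]
    omega
  | succ k ih =>
    intro Q Y y hY hy hQ hp hle
    by_cases hQY : (Q : ℝ) ≤ Y
    · obtain ⟨K, hK1, hK2⟩ := Gks_ext k (fun _ => 1) Q Y hQY fun j _ => by
        rw [Nat.cast_one]
        exact hY
      refine ⟨K, ?_, hK2⟩
      rw [hK1, Finset.prod_const_one, one_mul]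
    · have hQY' : Y < Q := lt_of_not_ge hQY
      obtain ⟨r, -, hrQ, hrY, hYr⟩ := h1 Q 1 Y y hQ (one_dvd Q) (by rw [Nat.cast_one]; exact hY)
        hQY' fun p hpp hpd => hp p hpp (by rwa [Nat.div_one] at hpd)
      obtain ⟨Q', rfl⟩ := hrQ
      have hy0 : 0 < y := zero_lt_one.trans_le hy
      have hY0 : 0 < Y := zero_lt_one.trans_le hY
      have hYy : 0 < Y / y := div_pos hY0 hy0
      have hr : Y / y < r := (div_lt_iff₀ hy0).2 hYr
      have hQ'1 : 1 ≤ Q' := by
        rcases Nat.eq_zero_or_pos Q' with h | h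
        · rw [h, mul_zero] at hQ
          omega
        · exact h
      have hQ'0 : (0 : ℝ) ≤ Q' := Nat.cast_nonneg Q'
      have hle' : (Q' : ℝ) ≤ (Y / y) ^ k := by
        rw [pow_succ, Nat.cast_mul] at hle
        have h3 : (Q' : ℝ) * (Y / y) ≤ (Y / y) ^ k * (Y / y) :=
          calc (Q' : ℝ) * (Y / y) ≤ Q' * r := mul_le_mul_of_nonneg_left hr.le hQ'0
            _ = r * Q' := mul_comm _ _
            _ ≤ _ := hle
        exact le_of_mul_le_mul_right h3 hYy
      obtain ⟨K', hK1, hK2⟩ := ih Q' Y y hY hy hQ'1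
        (fun p hpp hpd => hp p hpp (hpd.mul_left r)) hle'
      obtain ⟨K, hK3, hK4⟩ := Gks_ext k K' r Y hrY hK2
      refine ⟨K, ?_, hK4⟩
      rw [hK3, hK1, mul_comm]

end Pool.Agent.Lib.SLG
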