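import Pool.Agent.Lib.SLG.SpecG

/-!
MP_00e23e_nt, project SL, chapter G, module Gli: Kloosterman phases on a line.
-/

set_option autoImplicit false

namespace Pool.Agent.Lib.SLG

open Finset Pool.Agent.Lib.EH3 Pool.Agent.Lib.TB Pool.Agent.Results.MP_00e23e_nt Pool.Agent.Lib.MI

private lemma Gli_congr {c : ℤ} {q : ℕ} {n n' : ℤ} (h : (q : ℤ) ∣ n - n') :
    tz c q n = tz c q n' := by
  have h1 : n' % (q : ℤ) = n % (q : ℤ) := Int.modEq_iff_dvd.2 h
  unfold tz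
  rw [h1]

private lemma Gli_norm (c : ℤ) (q : ℕ) (n : ℤ) : ‖tz c q n‖ ≤ 1 := t1_norm_g _ _ _

private lemma Gli_gf (p : ℕ) (hp : p.Prime) (d n1 u1 : ℤ) (hd : ¬ (p : ℤ) ∣ d)
    (hu : ¬ (p : ℤ) ∣ u1) : Gf 0 p (fun z : ZMod p => tz d p (n1 + (z.val : ℤ) * u1)) := by
  classical
  have hpf : Fact p.Prime := ⟨hp⟩
  have hu0 : (u1 : ZMod p) ≠ 0 := fun h => hu ((ZMod.intCast_zmod_eq_zero_iff_dvd u1 p).1 h)
  have hd0 : (d : ZMod p) ≠ 0 := fun h => hd ((ZMod.intCast_zmod_eq_zero_iff_dvd d p).1 h)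
  refine ⟨{-(n1 : ZMod p) / u1}, fun _ => (d : ZMod p) / u1, ?_, ?_, ?_⟩
  · rw [card_singleton, pow_zero]
  · exact ⟨_, mem_singleton_self _, div_ne_zero hd0 hu0⟩
  · intro z
    set N : ℤ := n1 + (z.val : ℤ) * u1 with hN
    have hNz : (N : ZMod p) = u1 * (z - -(n1 : ZMod p) / u1) := by
      rw [hN]
      push_cast
      rw [ZMod.natCast_zmod_val]
      field_simp
      ring
    set w : ℕ := (N % (p : ℤ)).toNat with hw
    have hw1 : (w : ℤ) = N % (p : ℤ) :=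
      Int.toNat_of_nonneg (Int.emod_nonneg _ (by exact_mod_cast hp.ne_zero))
    have hwz : (w : ZMod p) = N := by
      have h1 : ((w : ℤ) : ZMod p) = ((N % (p : ℤ) : ℤ) : ZMod p) := by rw [hw1]
      rw [Int.cast_natCast] at h1
      rw [h1]
      exact ZMod.intCast_mod N p
    change t1g d p w = lf p _ _ z
    unfold t1g lf
    by_cases hz : z = -(n1 : ZMod p) / u1
    · have h0 : (w : ZMod p) = 0 := by rw [hwz, hNz, hz, sub_self, mul_zero]
      have h1 : ¬ w.Coprime p := fun h =>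
        isUnit_iff_ne_zero.1 ((ZMod.isUnit_iff_coprime w p).2 h) h0
      rw [if_neg h1, if_pos (mem_singleton.2 hz)]
    · have hz' : z - -(n1 : ZMod p) / u1 ≠ 0 := sub_ne_zero.2 hz
      have h0 : (w : ZMod p) ≠ 0 := by
        rw [hwz, hNz]
        exact mul_ne_zero hu0 hz'
      have h1 : w.Coprime p := (ZMod.isUnit_iff_coprime w p).1 (isUnit_iff_ne_zero.2 h0)
      rw [if_pos h1, if_neg (by rwa [mem_singleton]), sum_singleton]
      unfold ez
      apply en_congr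
      rw [← ZMod.intCast_zmod_eq_zero_iff_dvd]
      push_cast
      rw [ZMod.natCast_zmod_val]
      unfold iv
      rw [ZMod.natCast_zmod_val, hwz, hNz, mul_inv, div_eq_mul_inv]
      ring

private lemma Gli_gcd (Q : ℕ) (K : ℕ → ℕ) : ∀ k : ℕ, Squarefree (∏ j ∈ range k, K j) →
    Nat.gcd Q (∏ j ∈ range k, K j) = ∏ j ∈ range k, Nat.gcd Q (K j) := by
  intro k
  induction k with
  | zero =>
    intro _
    rw [prod_range_zero, prod_range_zero, Nat.gcd_one_right]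
  | succ k ih =>
    intro h
    rw [prod_range_succ] at h
    obtain ⟨h1, h2, _⟩ := Nat.squarefree_mul_iff.1 h
    rw [prod_range_succ, prod_range_succ, Nat.Coprime.gcd_mul _ h1, ih h2]

theorem tGli (h1 : GrStmt) (h2 : GspStmt) (h3 : SL.VPhaStmt) : GliStmt := by
  classical
  have _ := h3
  intro k
  obtain ⟨C, hC, A, hA⟩ := h1 k 0
  refine ⟨C, hC, A, ?_⟩
  intro X T L Z M0 Q1 Q2 K c1 c2 n1 n2 u1 u2 a b hT hZ hs1 hs2 hp hK hKM hQ1 hQ2 hKL hMX hML hab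
  obtain ⟨hM0Q1, hM0s, hQ1s⟩ := Nat.squarefree_mul_iff.1 hs1
  have hPM : ∏ p ∈ M0.primeFactors, p = M0 := Nat.prod_primeFactors_of_squarefree hM0s
  have hK0 : ∏ j ∈ range k, K j ≠ 0 := hK.ne_zero
  -- two factors
  obtain ⟨d0, hd0, hd0'⟩ := h2 (range 2) (fun j => if j = 0 then M0 else Q1) c1 (by
    rw [prod_range_succ, prod_range_succ, prod_range_zero, one_mul, if_pos rfl,
      if_neg one_ne_zero]
    exact hs1)
  have e1 : ∀ n : ℤ, tz c1 (M0 * Q1) n = tz (d0 0) M0 n * tz (d0 1) Q1 n := by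
    intro n
    have h := hd0 n
    rw [prod_range_succ, prod_range_succ, prod_range_zero, one_mul, if_pos rfl,
      if_neg one_ne_zero, prod_range_succ, prod_range_succ, prod_range_zero, one_mul,
      if_pos rfl, if_neg one_ne_zero] at h
    exact h
  have e1' : ∀ p : ℕ, p.Prime → p ∣ M0 → ((p : ℤ) ∣ d0 0 ↔ (p : ℤ) ∣ c1) := by
    intro p hp1 hp2
    exact hd0' 0 (by simp) p hp1 (by rw [if_pos rfl]; exact hp2)
  -- the primes of M0
  obtain ⟨d1, hd1, hd1'⟩ := h2 M0.primeFactors (fun p => p) (d0 0) (by rw [hPM]; exact hM0s)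
  -- the two remaining factors
  have g1 : ∏ j ∈ range k, Nat.gcd Q1 (K j) = Q1 := by
    rw [← Gli_gcd Q1 K k hK]
    exact Nat.gcd_eq_left hQ1
  have g2 : ∏ j ∈ range k, Nat.gcd Q2 (K j) = Q2 := by
    rw [← Gli_gcd Q2 K k hK]
    exact Nat.gcd_eq_left hQ2
  obtain ⟨f1, hf1, _⟩ := h2 (range k) (fun j => Nat.gcd Q1 (K j)) (d0 1) (by rw [g1]; exact hQ1s)
  obtain ⟨f2, hf2, _⟩ := h2 (range k) (fun j => Nat.gcd Q2 (K j)) c2 (by rw [g2]; exact hs2)
  set F : (p : ℕ) → ZMod p → ℂ := fun p z => tz (d1 p) p (n1 + (z.val : ℤ) * u1) with hF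
  set Ψ : ℕ → ℤ → ℂ := fun j i => tz (f1 j) (Nat.gcd Q1 (K j)) (n1 + i * u1) *
    tz (f2 j) (Nat.gcd Q2 (K j)) (n2 + i * u2) with hΨ
  have hP0 : ∀ p ∈ M0.primeFactors, p.Prime ∧ p ∣ M0 := fun p hp =>
    ⟨Nat.prime_of_mem_primeFactors hp, Nat.dvd_of_mem_primeFactors hp⟩
  have hFp : ∀ p ∈ M0.primeFactors, ∀ i : ℤ, F p (i : ZMod p) = tz (d1 p) p (n1 + i * u1) := by
    intro p hp0 i
    have hpf : Fact p.Prime := ⟨(hP0 p hp0).1⟩
    change tz (d1 p) p (n1 + (((i : ZMod p)).val : ℤ) * u1) = _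
    apply Gli_congr
    have h4 : (p : ℤ) ∣ (((i : ZMod p)).val : ℤ) - i := by
      rw [← ZMod.intCast_zmod_eq_zero_iff_dvd]
      push_cast
      rw [ZMod.natCast_zmod_val, sub_self]
    have h5 : n1 + (((i : ZMod p)).val : ℤ) * u1 - (n1 + i * u1) =
        ((((i : ZMod p)).val : ℤ) - i) * u1 := by ring
    rw [h5]
    exact Dvd.dvd.mul_right h4 _
  have key : ∀ i : ℤ, tz c1 (M0 * Q1) (n1 + i * u1) * tz c2 Q2 (n2 + i * u2) =
      PF M0.primeFactors F i * ∏ j ∈ range k, Ψ j i := by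
    intro i
    have h4 := hd1 (n1 + i * u1)
    rw [hPM] at h4
    have h5 := hf1 (n1 + i * u1)
    rw [g1] at h5
    have h6 := hf2 (n2 + i * u2)
    rw [g2] at h6
    rw [e1, h4, h5, h6]
    unfold PF
    rw [prod_congr rfl fun p hp0 => hFp p hp0 i, hΨ, prod_mul_distrib, mul_assoc]
  have hper : ∀ j < k, ∀ i, Ψ j (i + K j) = Ψ j i := by
    intro j _ i
    have h4 : tz (f1 j) (Nat.gcd Q1 (K j)) (n1 + (i + K j) * u1) =
        tz (f1 j) (Nat.gcd Q1 (K j)) (n1 + i * u1) := by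
      apply Gli_congr
      have h5 : n1 + (i + K j) * u1 - (n1 + i * u1) = (K j : ℤ) * u1 := by ring
      rw [h5]
      exact Dvd.dvd.mul_right (Int.natCast_dvd_natCast.2 (Nat.gcd_dvd_right _ _)) _
    have h4' : tz (f2 j) (Nat.gcd Q2 (K j)) (n2 + (i + K j) * u2) =
        tz (f2 j) (Nat.gcd Q2 (K j)) (n2 + i * u2) := by
      apply Gli_congr
      have h5 : n2 + (i + K j) * u2 - (n2 + i * u2) = (K j : ℤ) * u2 := by ring
      rw [h5]
      exact Dvd.dvd.mul_right (Int.natCast_dvd_natCast.2 (Nat.gcd_dvd_right _ _)) _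
    change tz (f1 j) (Nat.gcd Q1 (K j)) (n1 + (i + K j) * u1) *
      tz (f2 j) (Nat.gcd Q2 (K j)) (n2 + (i + K j) * u2) = _
    rw [h4, h4']
  have hΨn : ∀ j, ∀ i, ‖Ψ j i‖ ≤ 1 := by
    intro j i
    change ‖tz (f1 j) (Nat.gcd Q1 (K j)) (n1 + i * u1) *
      tz (f2 j) (Nat.gcd Q2 (K j)) (n2 + i * u2)‖ ≤ 1
    rw [norm_mul]
    exact mul_le_one₀ (Gli_norm _ _ _) (norm_nonneg _) (Gli_norm _ _ _)
  have hfin := hA X T L Z M0.primeFactors ∅ F K Ψ a b hT hZ (empty_subset _)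
    (fun p hp0 => ⟨(hP0 p hp0).1, by
      rw [zero_add]
      exact (hp p (hP0 p hp0).1 (hP0 p hp0).2).1, fun z => Gli_norm _ _ _⟩)
    (fun p hp0 _ => Gli_gf p (hP0 p hp0).1 (d1 p) n1 u1
      (fun h => (hp p (hP0 p hp0).1 (hP0 p hp0).2).2.1
        ((e1' p (hP0 p hp0).1 (hP0 p hp0).2).1
          ((hd1' p hp0 p (hP0 p hp0).1 dvd_rfl).1 h)))
      (hp p (hP0 p hp0).1 (hP0 p hp0).2).2.2)
    (fun j hj => ⟨Nat.one_le_iff_ne_zero.2 fun h0 =>
        hK0 (prod_eq_zero (mem_range.2 hj) h0), by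
          rw [hPM]
          exact Nat.Coprime.coprime_dvd_left (dvd_prod_of_mem K (mem_range.2 hj)) hKM,
        hKL j hj, hper j hj, hΨn j⟩)
    (by rw [hPM]; exact hMX) (by rw [hPM]; exact hML) hab
  rw [sum_congr rfl fun i _ => key i]
  rw [hPM, prod_empty, Nat.cast_one] at hfin
  exact hfin

end Pool.Agent.Lib.SLG
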