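import Pool.Agent.Lib.SLG.SpecG

/-!
Module Gr: the induction (iterated van der Corput differencing).
-/

set_option autoImplicit false

namespace Pool.Agent.Lib.SLG

open Finset Pool.Agent.Lib.EH3 Pool.Agent.Lib.TB Pool.Agent.Results.MP_00e23e_nt Pool.Agent.Lib.MI

private theorem Gr_sum (n T1 : ℕ) (s : ℕ → ℝ) (hs0 : ∀ t, 0 ≤ s t) :
    (∑ t ∈ Ico 1 T1, s t) ^ (n + 1) ≤ (T1 : ℝ) ^ n * ∑ t ∈ Ico 1 T1, s t ^ (n + 1) := by
  rcases Nat.lt_or_ge 1 T1 with h | h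
  · have hc : 0 < (Ico 1 T1).card := by
      rw [Nat.card_Ico]
      omega
    have h2 := pow_sum_div_card_le_sum_pow (s := Ico 1 T1) (f := s)
      (fun t _ => hs0 t) n
    rw [div_le_iff₀ (pow_pos (by exact_mod_cast hc) n)] at h2
    refine h2.trans ?_
    rw [mul_comm]
    refine mul_le_mul_of_nonneg_right ?_ (sum_nonneg fun t _ => pow_nonneg (hs0 t) _)
    refine pow_le_pow_left₀ (Nat.cast_nonneg _) ?_ n
    rw [Nat.card_Ico]
    exact_mod_cast Nat.sub_le T1 1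
  · have he : Ico 1 T1 = ∅ := by
      rw [Ico_eq_empty_iff]
      omega
    rw [he, sum_empty, sum_empty, mul_zero, zero_pow (Nat.succ_ne_zero n)]

private theorem Gr_an (n A T1 : ℕ) (L Z T C S u : ℝ) (s g : ℕ → ℝ) (hL : 0 ≤ L) (hZ : 1 ≤ Z)
    (hT : 1 ≤ T) (hC : 0 ≤ C) (hu : 0 ≤ u) (hT1 : 1 ≤ T1) (hTZ : Z ≤ 2 * T1)
    (hs0 : ∀ t, 0 ≤ s t)
    (hs : ∀ t ∈ Ico 1 T1, s t ^ (n + 1) ≤ C * T ^ A * L ^ (n + 1) * (1 / Z + u * g t))
    (hg : ∑ t ∈ Ico 1 T1, g t ≤ T1 * T)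
    (hS : S ^ 2 ≤ 2 * L / T1 * (L + 2 * ∑ t ∈ Ico 1 T1, s t)) :
    S ^ (2 * (n + 1)) ≤ 4 ^ (n + 1) * (2 + 2 ^ (n + 1) * C) * T ^ (A + 1) *
      L ^ (2 * (n + 1)) * (1 / Z + u) := by
  have hτ : (1 : ℝ) ≤ T1 := by exact_mod_cast hT1
  have hτ0 : (0 : ℝ) < T1 := by linarith
  have hZ0 : 0 < Z := by linarith
  have hZi : 0 ≤ 1 / Z := by positivity
  set τ : ℝ := (T1 : ℝ) with hτd
  set Q : ℝ := ∑ t ∈ Ico 1 T1, s t with hQ
  have hQ0 : 0 ≤ Q := sum_nonneg fun t _ => hs0 t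
  have hLn : 0 ≤ L ^ (n + 1) := pow_nonneg hL _
  have hTA : 1 ≤ T ^ A := one_le_pow₀ hT
  -- the sum of the powers
  have h2 : ∑ t ∈ Ico 1 T1, s t ^ (n + 1) ≤ C * T ^ A * L ^ (n + 1) * (τ * T * (1 / Z + u)) := by
    calc ∑ t ∈ Ico 1 T1, s t ^ (n + 1)
        ≤ ∑ t ∈ Ico 1 T1, C * T ^ A * L ^ (n + 1) * (1 / Z + u * g t) := sum_le_sum hs
      _ = C * T ^ A * L ^ (n + 1) * (((Ico 1 T1).card : ℝ) * (1 / Z) + u * ∑ t ∈ Ico 1 T1, g t) := by
          rw [← mul_sum, sum_add_distrib, sum_const, nsmul_eq_mul, mul_sum]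
      _ ≤ C * T ^ A * L ^ (n + 1) * (τ * T * (1 / Z + u)) := by
          refine mul_le_mul_of_nonneg_left ?_ (by positivity)
          have h3 : ((Ico 1 T1).card : ℝ) ≤ τ := by
            rw [Nat.card_Ico, hτd]
            exact_mod_cast Nat.sub_le T1 1
          have h4 : ((Ico 1 T1).card : ℝ) * (1 / Z) ≤ τ * T * (1 / Z) := by
            refine mul_le_mul_of_nonneg_right ?_ hZi
            nlinarith
          have h5 : u * ∑ t ∈ Ico 1 T1, g t ≤ u * (τ * T) := mul_le_mul_of_nonneg_left hg hu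
          nlinarith
  have h3 : Q ^ (n + 1) ≤ τ ^ n * (C * T ^ A * L ^ (n + 1) * (τ * T * (1 / Z + u))) :=
    (Gr_sum n T1 s hs0).trans (mul_le_mul_of_nonneg_left h2 (by positivity))
  have h4 : (2 * Q / τ) ^ (n + 1) ≤ 2 ^ (n + 1) * C * T ^ (A + 1) * L ^ (n + 1) * (1 / Z + u) := by
    rw [div_pow, mul_pow, div_le_iff₀ (by positivity)]
    calc 2 ^ (n + 1) * Q ^ (n + 1)
        ≤ 2 ^ (n + 1) * (τ ^ n * (C * T ^ A * L ^ (n + 1) * (τ * T * (1 / Z + u)))) :=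
          mul_le_mul_of_nonneg_left h3 (by positivity)
      _ = 2 ^ (n + 1) * C * T ^ (A + 1) * L ^ (n + 1) * (1 / Z + u) * τ ^ (n + 1) := by ring
  have h5 : (L / τ) ^ (n + 1) ≤ 2 * T ^ (A + 1) * L ^ (n + 1) * (1 / Z + u) := by
    rw [div_pow, div_le_iff₀ (by positivity)]
    have h6 : 1 ≤ 2 * (1 / Z + u) * τ := by
      have h7 : 1 ≤ 2 * τ * (1 / Z) := by
        rw [mul_one_div, le_div_iff₀ hZ0]
        linarith
      nlinarith
    have h7 : 1 ≤ τ ^ n := one_le_pow₀ hτ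
    have h8 : 1 ≤ T ^ (A + 1) := one_le_pow₀ hT
    have h9 : 1 ≤ T ^ (A + 1) * (2 * (1 / Z + u) * τ * τ ^ n) := by
      have := one_le_mul_of_one_le_of_one_le h6 h7
      exact one_le_mul_of_one_le_of_one_le h8 this
    calc L ^ (n + 1) = L ^ (n + 1) * 1 := (mul_one _).symm
      _ ≤ L ^ (n + 1) * (T ^ (A + 1) * (2 * (1 / Z + u) * τ * τ ^ n)) :=
          mul_le_mul_of_nonneg_left h9 hLn
      _ = 2 * T ^ (A + 1) * L ^ (n + 1) * (1 / Z + u) * τ ^ (n + 1) := by ring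
  have h6 : (L / τ + 2 * Q / τ) ^ (n + 1) ≤
      2 ^ (n + 1) * ((2 + 2 ^ (n + 1) * C) * T ^ (A + 1) * L ^ (n + 1) * (1 / Z + u)) := by
    have h7 := add_pow_le (a := L / τ) (b := 2 * Q / τ) (by positivity) (by positivity) (n + 1)
    refine h7.trans ?_
    refine mul_le_mul (pow_le_pow_right₀ (by norm_num) (Nat.sub_le _ _)) ?_ (by positivity)
      (by positivity)
    calc (L / τ) ^ (n + 1) + (2 * Q / τ) ^ (n + 1)
        ≤ 2 * T ^ (A + 1) * L ^ (n + 1) * (1 / Z + u) +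
          2 ^ (n + 1) * C * T ^ (A + 1) * L ^ (n + 1) * (1 / Z + u) := add_le_add h5 h4
      _ = (2 + 2 ^ (n + 1) * C) * T ^ (A + 1) * L ^ (n + 1) * (1 / Z + u) := by ring
  calc S ^ (2 * (n + 1)) = (S ^ 2) ^ (n + 1) := pow_mul S 2 (n + 1)
    _ ≤ (2 * L / τ * (L + 2 * Q)) ^ (n + 1) := pow_le_pow_left₀ (sq_nonneg S) hS _
    _ = (2 * L) ^ (n + 1) * (L / τ + 2 * Q / τ) ^ (n + 1) := by
        rw [← mul_pow]
        congr 1
        ring
    _ ≤ (2 * L) ^ (n + 1) *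
        (2 ^ (n + 1) * ((2 + 2 ^ (n + 1) * C) * T ^ (A + 1) * L ^ (n + 1) * (1 / Z + u))) :=
        mul_le_mul_of_nonneg_left h6 (by positivity)
    _ = 4 ^ (n + 1) * (2 + 2 ^ (n + 1) * C) * T ^ (A + 1) * L ^ (2 * (n + 1)) *
        (1 / Z + u) := by
        rw [show (4 : ℝ) = 2 * 2 by norm_num, mul_pow (2 : ℝ) 2, mul_pow (2 : ℝ) L, pow_mul' L,
          sq]
        ring

private theorem Gr_prod (P0 E : Finset ℕ) (t : ℕ) (ht : 1 ≤ t) (hE : E ⊆ P0)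
    (hp : ∀ p ∈ P0, p.Prime) :
    (∏ p ∈ E ∪ P0.filter (fun p => p ∣ t), p) ≤ (∏ p ∈ E, p) * Nat.gcd t (∏ p ∈ P0, p) := by
  have h1 := prod_union_inter (s₁ := E) (s₂ := P0.filter fun p => p ∣ t) (f := fun p : ℕ => p)
  have h2 : 1 ≤ ∏ p ∈ E ∩ P0.filter (fun p => p ∣ t), p := by
    refine Nat.one_le_iff_ne_zero.2 (prod_ne_zero_iff.2 fun p h => ?_)
    exact (hp p (hE (mem_inter.1 h).1)).ne_zero
  have h3 : ∏ p ∈ P0.filter (fun p => p ∣ t), p ∣ Nat.gcd t (∏ p ∈ P0, p) := by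
    refine Nat.dvd_gcd ?_ (prod_dvd_prod_of_subset _ _ _ (filter_subset _ _))
    exact prod_primes_dvd t (fun p h => (hp p (mem_filter.1 h).1).prime)
      fun p h => (mem_filter.1 h).2
  have h4 : ∏ p ∈ P0.filter (fun p => p ∣ t), p ≤ Nat.gcd t (∏ p ∈ P0, p) :=
    Nat.le_of_dvd (Nat.gcd_pos_of_pos_left _ ht) h3
  calc ∏ p ∈ E ∪ P0.filter (fun p => p ∣ t), p
      ≤ (∏ p ∈ E ∪ P0.filter (fun p => p ∣ t), p) * ∏ p ∈ E ∩ P0.filter (fun p => p ∣ t), p :=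
        Nat.le_mul_of_pos_right _ h2
    _ = (∏ p ∈ E, p) * ∏ p ∈ P0.filter (fun p => p ∣ t), p := h1
    _ ≤ (∏ p ∈ E, p) * Nat.gcd t (∏ p ∈ P0, p) := Nat.mul_le_mul_left _ h4

private theorem Gr_norm (P0 : Finset ℕ) (F : (p : ℕ) → ZMod p → ℂ)
    (hF : ∀ p ∈ P0, ∀ z, ‖F p z‖ ≤ 1) (i : ℤ) : ‖PF P0 F i‖ ≤ 1 := by
  unfold PF
  rw [norm_prod]
  exact prod_le_one (fun _ _ => norm_nonneg _) fun p hp => hF p hp _

private theorem Gr_split (P0 : Finset ℕ) (F : (p : ℕ) → ZMod p → ℂ) (k : ℕ) (Ψ : ℕ → ℤ → ℂ)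
    (h : ℕ) (i : ℤ) :
    (PF P0 F i * ∏ j ∈ range k, Ψ j i) *
      (starRingEnd ℂ) (PF P0 F (i + (h : ℤ)) * ∏ j ∈ range k, Ψ j (i + (h : ℤ))) =
    PF P0 (fun p z => F p z * (starRingEnd ℂ) (F p (z + ((h : ℕ) : ZMod p)))) i *
      ∏ j ∈ range k, (Ψ j i * (starRingEnd ℂ) (Ψ j (i + (h : ℤ)))) := by
  have h1 : ∀ p : ℕ, (((i + (h : ℤ) : ℤ)) : ZMod p) = (i : ZMod p) + ((h : ℕ) : ZMod p) := by
    intro p
    push_cast
    rfl
  unfold PF
  simp only [h1, map_mul, map_prod, prod_mul_distrib]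
  ring

/-- Module Gr. -/
theorem tGr : GrMod := by
  intro hGba hGsh hGvd hGgc k
  induction k with
  | zero =>
    intro m
    obtain ⟨C, hC, A, h⟩ := hGba m
    refine ⟨C, hC, A, ?_⟩
    intro X T L Z P0 E F K Ψ a b hT hZ hE hP0 hGf _ hX hL hab
    have h1 := h X T L P0 E F a b hT hE (fun p hp => ⟨(hP0 p hp).1, (hP0 p hp).2.2⟩) hGf hX hL hab
    simp only [range_zero, prod_empty, mul_one, zero_add, pow_one]
    refine h1.trans ?_
    refine mul_le_mul_of_nonneg_left ?_ ?_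
    · have : 0 ≤ 1 / Z := by positivity
      linarith
    · have := hT.1
      positivity
  | succ k ih =>
    intro m
    obtain ⟨C, hC, A, h⟩ := ih (m + 1)
    obtain ⟨n, hn⟩ : ∃ n, 2 ^ (k + 1) = n + 1 :=
      ⟨2 ^ (k + 1) - 1, by have := Nat.one_le_two_pow (n := k + 1); omega⟩
    refine ⟨4 ^ (n + 1) * (2 + 2 ^ (n + 1) * C), by positivity, A + 1, ?_⟩
    intro X T L Z P0 E F K Ψ a b hT hZ hE hP0 hGf hK hX hL hab
    obtain ⟨hKk1, hKk2, hKk3, hKk4, hKk5⟩ := hK k (Nat.lt_succ_self k)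
    have hZ0 : 0 < Z := by linarith
    have hM1 : 1 ≤ ∏ p ∈ P0, p :=
      Nat.one_le_iff_ne_zero.2 (prod_ne_zero_iff.2 fun p hp => (hP0 p hp).1.ne_zero)
    have hM1r : (1 : ℝ) ≤ ((∏ p ∈ P0, p : ℕ) : ℝ) := by exact_mod_cast hM1
    have hL1 : 1 ≤ L := hM1r.trans hL
    have hKr : (1 : ℝ) ≤ (K k : ℝ) := by exact_mod_cast hKk1
    have hKr0 : (0 : ℝ) < (K k : ℝ) := by linarith
    have hLK : Z ≤ L / K k := by
      rw [le_div_iff₀ hKr0, mul_comm]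
      exact hKk3
    obtain ⟨T1, hT1d⟩ : ∃ T1, T1 = ⌊L / (K k : ℝ)⌋₊ := ⟨_, rfl⟩
    have hT1 : 1 ≤ T1 := by
      rw [hT1d]
      exact Nat.le_floor (by rw [Nat.cast_one]; linarith)
    have hT1r : (1 : ℝ) ≤ T1 := by exact_mod_cast hT1
    have hT1L : (T1 : ℝ) ≤ L / K k := by
      rw [hT1d]
      exact Nat.floor_le (by linarith)
    have hT1U : L / K k < (T1 : ℝ) + 1 := by
      rw [hT1d]
      exact Nat.lt_floor_add_one _
    have hKT : (K k : ℝ) * T1 ≤ L := by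
      rw [le_div_iff₀ hKr0] at hT1L
      linarith
    have hTZ : Z ≤ 2 * T1 := by linarith
    -- the step
    obtain ⟨G, hG⟩ : ∃ G : ℤ → ℂ, G = fun i => PF P0 F i * ∏ j ∈ range k, Ψ j i := ⟨_, rfl⟩
    have hGn : ∀ i, ‖G i‖ ≤ 1 := by
      intro i
      rw [hG]
      simp only [norm_mul]
      refine mul_le_one₀ (Gr_norm P0 F (fun p hp => (hP0 p hp).2.2) i) (norm_nonneg _) ?_
      rw [norm_prod]
      exact prod_le_one (fun _ _ => norm_nonneg _) fun j hj =>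
        (hK j (Nat.lt_succ_of_lt (mem_range.1 hj))).2.2.2.2 i
    have hS := hGvd L (K k) T1 a b G (Ψ k) hKk1 hT1 hKT hab hKk4 hKk5 hGn
    have hsum : ∑ i ∈ Ioc a b, PF P0 F i * ∏ j ∈ range (k + 1), Ψ j i =
        ∑ i ∈ Ioc a b, G i * Ψ k i := by
      refine sum_congr rfl fun i _ => ?_
      rw [hG, prod_range_succ, mul_assoc]
    rw [hsum, show 2 ^ (k + 1 + 1) = 2 * (n + 1) by rw [pow_succ, hn]; ring]
    obtain ⟨s, hs⟩ : ∃ s : ℕ → ℝ, s = fun t => ‖∑ i ∈ Ioc a (b - ((K k * t : ℕ) : ℤ)),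
        G i * (starRingEnd ℂ) (G (i + ((K k * t : ℕ) : ℤ)))‖ := ⟨_, rfl⟩
    have hsn : ∀ t, 0 ≤ s t := by
      intro t
      rw [hs]
      exact norm_nonneg _
    have hst : ∀ t ∈ Ico 1 T1, s t ^ (n + 1) ≤ C * T ^ A * L ^ (n + 1) *
        (1 / Z + (((∏ p ∈ E, p : ℕ) : ℝ) / ((∏ p ∈ P0, p : ℕ) : ℝ)) *
          (Nat.gcd t (∏ p ∈ P0, p) : ℝ)) := by
      intro t ht
      have ht1 : 1 ≤ t := (mem_Ico.1 ht).1
      have hE' : E ∪ P0.filter (fun p => p ∣ t) ⊆ P0 := union_subset hE (filter_subset _ _)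
      have h1 := h X T L Z P0 (E ∪ P0.filter fun p => p ∣ t)
        (fun p z => F p z * (starRingEnd ℂ) (F p (z + ((K k * t : ℕ) : ZMod p)))) K
        (fun j i => Ψ j i * (starRingEnd ℂ) (Ψ j (i + ((K k * t : ℕ) : ℤ)))) a
        (b - ((K k * t : ℕ) : ℤ)) hT hZ hE' ?_ ?_ ?_ hX hL ?_
      · rw [hn] at h1
        have h2 : s t = ‖∑ i ∈ Ioc a (b - ((K k * t : ℕ) : ℤ)),
            PF P0 (fun p z => F p z * (starRingEnd ℂ) (F p (z + ((K k * t : ℕ) : ZMod p)))) i *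
            ∏ j ∈ range k, (Ψ j i * (starRingEnd ℂ) (Ψ j (i + ((K k * t : ℕ) : ℤ))))‖ := by
          rw [hs, hG]
          refine congrArg norm (sum_congr rfl fun i _ => ?_)
          exact Gr_split P0 F k Ψ (K k * t) i
        rw [h2]
        refine h1.trans ?_
        refine mul_le_mul_of_nonneg_left ?_ ?_
        · refine add_le_add le_rfl ?_
          rw [div_mul_eq_mul_div]
          refine div_le_div_of_nonneg_right ?_ (Nat.cast_nonneg _)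
          have h3 := Gr_prod P0 E t ht1 hE fun p hp => (hP0 p hp).1
          exact_mod_cast h3
        · have := hT.1
          positivity
      · intro p hp
        refine ⟨(hP0 p hp).1, ?_, fun z => ?_⟩
        · have := (hP0 p hp).2.1
          rwa [show m + 1 + k = m + (k + 1) by ring]
        · rw [norm_mul, RCLike.norm_conj]
          exact mul_le_one₀ ((hP0 p hp).2.2 z) (norm_nonneg _) ((hP0 p hp).2.2 _)
      · intro p hp hpE
        rw [mem_union, mem_filter, not_or] at hpE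
        refine hGsh m p (F p) _ (hP0 p hp).1 ?_ ?_ (hGf p hp hpE.1)
        · refine lt_of_le_of_lt ?_ (hP0 p hp).2.1
          exact Nat.pow_le_pow_right (by norm_num) (by omega)
        · intro h0
          rw [ZMod.natCast_eq_zero_iff] at h0
          rcases ((hP0 p hp).1.dvd_mul).1 h0 with h1 | h1
          · have h2 := Nat.Coprime.coprime_dvd_right (dvd_prod_of_mem (fun p : ℕ => p) hp) hKk2
            have h3 := Nat.dvd_gcd h1 (dvd_refl p)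
            rw [h2] at h3
            exact (hP0 p hp).1.one_lt.ne' (Nat.dvd_one.1 h3)
          · exact hpE.2 ⟨hp, h1⟩
      · intro j hj
        obtain ⟨h1, h2, h3, h4, h5⟩ := hK j (Nat.lt_succ_of_lt hj)
        refine ⟨h1, h2, h3, fun i => ?_, fun i => ?_⟩
        · rw [h4, show i + (K j : ℤ) + ((K k * t : ℕ) : ℤ) = i + ((K k * t : ℕ) : ℤ) + (K j : ℤ) by
            ring, h4]
        · rw [norm_mul, RCLike.norm_conj]
          exact mul_le_one₀ (h5 i) (norm_nonneg _) (h5 _)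
      · have h1 : (((b - ((K k * t : ℕ) : ℤ) - a : ℤ)) : ℝ) ≤ ((b - a : ℤ) : ℝ) := by
          have : (b - ((K k * t : ℕ) : ℤ) - a : ℤ) ≤ b - a := by
            have := Int.natCast_nonneg (K k * t)
            linarith
          exact_mod_cast this
        exact h1.trans hab
    have hgg := hGgc X T (∏ p ∈ P0, p) T1 hT hM1 hX
    have hfin := Gr_an n A T1 L Z T C ‖∑ i ∈ Ioc a b, G i * Ψ k i‖
      (((∏ p ∈ E, p : ℕ) : ℝ) / ((∏ p ∈ P0, p : ℕ) : ℝ)) s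
      (fun t => (Nat.gcd t (∏ p ∈ P0, p) : ℝ)) (by linarith) hZ hT.1 hC.le (by positivity) hT1 hTZ
      hsn hst hgg (by rw [hs]; exact hS)
    exact hfin

end Pool.Agent.Lib.SLG
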