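import Pool.Agent.Lib.SLG.SpecG

/-!
MP_00e23e_nt, project SL, chapter G, module Gsh: differencing of a function with simple poles.
-/

namespace Pool.Agent.Lib.SLG

open Finset Pool.Agent.Lib.EH3 Pool.Agent.Lib.TB Pool.Agent.Results.MP_00e23e_nt Pool.Agent.Lib.MI

private lemma Gsh_ez_mul_conj (p : ℕ) [Fact p.Prime] (x y : ZMod p) :
    ez p x * (starRingEnd ℂ) (ez p y) = ez p (x - y) := by
  unfold ez
  rw [conj_en, ← en_add]
  apply en_congr
  rw [← ZMod.intCast_zmod_eq_zero_iff_dvd _ p]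
  push_cast
  rw [ZMod.natCast_zmod_val, ZMod.natCast_zmod_val, ZMod.natCast_zmod_val]
  ring

open Classical in
/-- the coefficients, extended by zero -/
private noncomputable def Gsh_c (p : ℕ) (s : Finset (ZMod p)) (c : ZMod p → ZMod p) (a : ZMod p) : ZMod p :=
  if a ∈ s then c a else 0

open Classical in
private lemma Gsh_sum (p : ℕ) [Fact p.Prime] (s : Finset (ZMod p)) (c g : ZMod p → ZMod p) :
    ∑ a, Gsh_c p s c a * g a = ∑ a ∈ s, c a * g a := by
  unfold Gsh_c
  rw [← Finset.sum_subset (Finset.subset_univ s)]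
  · refine Finset.sum_congr rfl fun a ha => ?_
    rw [if_pos ha]
  · intro a _ ha
    rw [if_neg ha, zero_mul]

theorem tGsh : GshStmt := by
  classical
  rintro m p f τ hp hm hτ ⟨s, c, hs, ⟨a0, ha0, hc0⟩, hf⟩
  have hF : Fact p.Prime := ⟨hp⟩
  have hmem : ∀ z : ZMod p, z ∈ s ∪ s.image (fun a => a - τ) ↔ z ∈ s ∨ z + τ ∈ s := by
    intro z
    rw [Finset.mem_union, Finset.mem_image]
    refine or_congr Iff.rfl ⟨?_, fun h => ⟨z + τ, h, by ring⟩⟩
    rintro ⟨a, ha, rfl⟩
    have h1 : a - τ + τ = a := by ring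
    rw [h1]
    exact ha
  have hd0 : ∀ a : ZMod p, a ∉ s ∪ s.image (fun a => a - τ) →
      Gsh_c p s c a - Gsh_c p s c (a + τ) = 0 := by
    intro a ha
    rw [hmem, not_or] at ha
    unfold Gsh_c
    rw [if_neg ha.1, if_neg ha.2, sub_zero]
  refine ⟨s ∪ s.image (fun a => a - τ), fun a => Gsh_c p s c a - Gsh_c p s c (a + τ), ?_, ?_, ?_⟩
  · refine (Finset.card_union_le _ _).trans ?_
    have h1 : (s.image (fun a => a - τ)).card ≤ s.card := Finset.card_image_le
    rw [pow_succ]
    omega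
  · by_contra hcon
    push Not at hcon
    have h1 : ∀ a, Gsh_c p s c (a + τ) = Gsh_c p s c a := by
      intro a
      by_cases ha : a ∈ s ∪ s.image (fun a => a - τ)
      · exact (sub_eq_zero.1 (hcon a ha)).symm
      · exact (sub_eq_zero.1 (hd0 a ha)).symm
    have h2 : ∀ n : ℕ, Gsh_c p s c (a0 + n * τ) = c a0 := by
      intro n
      induction n with
      | zero =>
        rw [Nat.cast_zero, zero_mul, add_zero]
        unfold Gsh_c
        rw [if_pos ha0]
      | succ n ih =>
        have h3 : a0 + ((n + 1 : ℕ) : ZMod p) * τ = a0 + n * τ + τ := by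
          push_cast
          ring
        rw [h3, h1, ih]
    have h3 : s = Finset.univ := by
      rw [Finset.eq_univ_iff_forall]
      intro z
      by_contra hz
      have h4 := h2 ((z - a0) * τ⁻¹).val
      rw [ZMod.natCast_zmod_val, mul_assoc, inv_mul_cancel₀ hτ, mul_one, add_sub_cancel] at h4
      unfold Gsh_c at h4
      rw [if_neg hz] at h4
      exact hc0 h4.symm
    rw [h3, Finset.card_univ, ZMod.card] at hs
    omega
  · intro z
    show f z * (starRingEnd ℂ) (f (z + τ)) = _
    rw [hf z, hf (z + τ)]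
    unfold lf
    by_cases hz : z ∈ s ∪ s.image (fun a => a - τ)
    · rw [if_pos hz]
      rcases (hmem z).1 hz with h | h
      · rw [if_pos h, zero_mul]
      · rw [if_pos h, map_zero, mul_zero]
    · have hz' := hz
      rw [hmem, not_or] at hz'
      rw [if_neg hz, if_neg hz'.1, if_neg hz'.2, Gsh_ez_mul_conj]
      congr 1
      have h1 : ∑ a ∈ s ∪ s.image (fun a => a - τ), (Gsh_c p s c a - Gsh_c p s c (a + τ)) * (z - a)⁻¹ =
          ∑ a, (Gsh_c p s c a - Gsh_c p s c (a + τ)) * (z - a)⁻¹ := by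
        refine Finset.sum_subset (Finset.subset_univ _) fun a _ ha => ?_
        rw [hd0 a ha, zero_mul]
      have h2 : ∑ a, Gsh_c p s c (a + τ) * (z - a)⁻¹ = ∑ a ∈ s, c a * (z + τ - a)⁻¹ := by
        rw [← Gsh_sum p s c fun a => (z + τ - a)⁻¹,
          ← Equiv.sum_comp (Equiv.addRight τ) fun a => Gsh_c p s c a * (z + τ - a)⁻¹]
        refine Finset.sum_congr rfl fun a _ => ?_
        have h3 : z + τ - (a + τ) = z - a := by ring
        show _ = Gsh_c p s c (a + τ) * (z + τ - (a + τ))⁻¹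
        rw [h3]
      rw [h1]
      simp_rw [sub_mul]
      rw [Finset.sum_sub_distrib, Gsh_sum p s c fun a => (z - a)⁻¹, h2]

end Pool.Agent.Lib.SLG
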