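import Pool.Agent.Lib.SLG.SpecG

/-!
MP_00e23e_nt, project SL, chapter G, module Gsp: splitting a phase into coprime moduli.
-/

set_option autoImplicit false

namespace Pool.Agent.Lib.SLG

open Finset Pool.Agent.Lib.EH3 Pool.Agent.Lib.TB Pool.Agent.Results.MP_00e23e_nt Pool.Agent.Lib.MI

private lemma Gsp_t1g (c : ℤ) {q N N' : ℕ} (h : N ≡ N' [MOD q]) : t1g c q N = t1g c q N' := by
  have h1 : N.Coprime q ↔ N'.Coprime q := by
    unfold Nat.Coprime
    rw [Nat.ModEq.gcd_eq h]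
  unfold t1g
  rw [iv_congr h]
  by_cases h2 : N'.Coprime q
  · rw [if_pos h2, if_pos (h1.2 h2)]
  · rw [if_neg h2, if_neg fun h3 => h2 (h1.1 h3)]

private lemma Gsp_cast {q : ℕ} (hq : 1 ≤ q) (n : ℤ) : (((n % (q : ℤ)).toNat : ℕ) : ℤ) = n % (q : ℤ) :=
  Int.toNat_of_nonneg (Int.emod_nonneg _ (by exact_mod_cast (by omega : q ≠ 0)))

private lemma Gsp_tz (c : ℤ) {q N : ℕ} (hq : 1 ≤ q) {n : ℤ} (h : (N : ℤ) % (q : ℤ) = n % (q : ℤ)) :
    t1g c q N = tz c q n := by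
  unfold tz
  apply Gsp_t1g
  rw [← Int.natCast_modEq_iff, Gsp_cast hq]
  unfold Int.ModEq
  rw [Int.emod_emod_of_dvd _ (dvd_refl _)]
  exact h

private lemma Gsp_dvd {a n p : ℕ} (c : ℤ) (ha : a.Coprime n) (hn : 1 ≤ n) (hp : p.Prime) (hpn : p ∣ n) :
    (p : ℤ) ∣ c * (iv a n : ℤ) ↔ (p : ℤ) ∣ c := by
  constructor
  · intro h
    rcases (Nat.prime_iff_prime_int.1 hp).dvd_or_dvd h with h1 | h1
    · exact h1
    · exfalso
      have h2 : (p : ℤ) ∣ (iv a n : ℤ) * a - 1 := (Int.natCast_dvd_natCast.2 hpn).trans (iv_dvd ha hn)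
      have h3 : (p : ℤ) ∣ 1 := by
        have h4 := dvd_sub (h1.mul_right (a : ℤ)) h2
        rwa [sub_sub_cancel] at h4
      exact (Nat.prime_iff_prime_int.1 hp).not_unit (isUnit_of_dvd_one h3)
  · exact fun h => h.mul_right _

private lemma Gsp_two (h1 : SL.VPhaStmt) (c n : ℤ) {F D : ℕ} (hF : 1 ≤ F) (hD : 1 ≤ D) (hc : F.Coprime D) :
    tz c (F * D) n = tz (c * (iv D F : ℤ)) F n * tz (c * (iv F D : ℤ)) D n := by
  have hFD : 1 ≤ F * D := Nat.mul_pos hF hD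
  have e0 := Gsp_cast hFD n
  have e1 : tz c (F * D) n = t1g c (F * D) (n % ((F * D : ℕ) : ℤ)).toNat := rfl
  rw [e1, h1 c F D _ hF hD hc]
  congr 1
  · refine Gsp_tz _ hF ?_
    rw [e0]
    exact Int.emod_emod_of_dvd _ (Int.natCast_dvd_natCast.2 (dvd_mul_right F D))
  · refine Gsp_tz _ hD ?_
    rw [e0]
    exact Int.emod_emod_of_dvd _ (Int.natCast_dvd_natCast.2 (dvd_mul_left D F))

private lemma Gsp_one (c n : ℤ) : tz c 1 n = 1 := by
  unfold tz t1g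
  rw [if_pos (Nat.coprime_one_right _)]
  exact en_of_dvd (by simp)

theorem tGsp (h1 : SL.VPhaStmt) : GspStmt := by
  intro J Q
  induction J using Finset.induction_on with
  | empty =>
    intro c _
    refine ⟨fun _ => 0, fun n => ?_, fun j hj => absurd hj (Finset.notMem_empty j)⟩
    rw [Finset.prod_empty, Finset.prod_empty, Gsp_one]
  | insert j J hj ih =>
    intro c hsq
    rw [Finset.prod_insert hj] at hsq
    obtain ⟨hc, hF, hD⟩ := Nat.squarefree_mul_iff.1 hsq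
    have hF1 : 1 ≤ Q j := Nat.pos_of_ne_zero hF.ne_zero
    have hD1 : 1 ≤ ∏ i ∈ J, Q i := Nat.pos_of_ne_zero hD.ne_zero
    obtain ⟨d, hd, hd'⟩ := ih (c * (iv (Q j) (∏ i ∈ J, Q i) : ℤ)) hD
    have hne : ∀ i ∈ J, i ≠ j := fun i hi h => hj (h ▸ hi)
    obtain ⟨e, he, he'⟩ : ∃ e : ℕ → ℤ, e j = c * (iv (∏ i ∈ J, Q i) (Q j) : ℤ) ∧ ∀ i ∈ J, e i = d i :=
      ⟨fun i => if i = j then c * (iv (∏ i ∈ J, Q i) (Q j) : ℤ) else d i, if_pos rfl,
        fun i hi => if_neg (hne i hi)⟩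
    refine ⟨e, fun n => ?_, ?_⟩
    · rw [Finset.prod_insert hj, Finset.prod_insert hj, Gsp_two h1 c n hF1 hD1 hc, hd n, he]
      congr 1
      exact Finset.prod_congr rfl fun i hi => by rw [he' i hi]
    · intro i hi p hp hpi
      rcases Finset.mem_insert.1 hi with rfl | hi
      · rw [he]
        exact Gsp_dvd c hc.symm hF1 hp hpi
      · rw [he' i hi, hd' i hi p hp hpi]
        exact Gsp_dvd c hc hD1 hp (hpi.trans (Finset.dvd_prod_of_mem Q hi))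

end Pool.Agent.Lib.SLG
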