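import Pool.Agent.Lib.SLG.SpecG

/-!
MP_00e23e_nt, project SL, chapter G, module Gvd: one van der Corput step with periodic factors (helper97).
-/

set_option autoImplicit false

namespace Pool.Agent.Lib.SLG

open Finset Pool.Agent.Lib.EH3 Pool.Agent.Lib.TB Pool.Agent.Results.MP_00e23e_nt Pool.Agent.Lib.MI

/-- Shift of a sum of a function supported on an interval. -/
private theorem Gvd_shift (a b : ℤ) (M c : ℤ) (hc : 0 ≤ c) (hcM : c ≤ M) (f : ℤ → ℂ)
    (hf : ∀ n, ¬ (a < n ∧ n ≤ b) → f n = 0) :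
    ∑ i ∈ Ioc (a - M) b, f (i + c) = ∑ n ∈ Ioc a b, f n := by
  have h1 : ∑ i ∈ Ioc (a - M) b, f (i + c) = ∑ n ∈ Ioc (a - M + c) (b + c), f n := by
    refine Finset.sum_bij (fun i _ => i + c) ?_ ?_ ?_ ?_
    · intro i hi
      rw [Finset.mem_Ioc] at hi ⊢
      omega
    · intro i _ j _ h
      exact add_right_cancel h
    · intro n hn
      rw [Finset.mem_Ioc] at hn
      refine ⟨n - c, ?_, by ring⟩
      rw [Finset.mem_Ioc]
      omega
    · intro i _
      rfl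
  rw [h1]
  symm
  refine Finset.sum_subset ?_ ?_
  · intro n hn
    rw [Finset.mem_Ioc] at hn ⊢
    omega
  · intro n _ hn
    rw [Finset.mem_Ioc] at hn
    exact hf n hn

/-- The correlation sums. -/
private theorem Gvd_cor (a b : ℤ) (M c e : ℤ) (hc : 0 ≤ c) (hcM : c ≤ M) (he : 0 ≤ e) (G : ℤ → ℂ) :
    ∑ i ∈ Ioc (a - M) b, (if a < i + c ∧ i + c ≤ b then G (i + c) else 0) *
      (starRingEnd ℂ) (if a < i + (c + e) ∧ i + (c + e) ≤ b then G (i + (c + e)) else 0) =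
      ∑ i ∈ Ioc a (b - e), G i * (starRingEnd ℂ) (G (i + e)) := by
  have h1 := Gvd_shift a b M c hc hcM
    (fun n => (if a < n ∧ n ≤ b then G n else 0) *
      (starRingEnd ℂ) (if a < n + e ∧ n + e ≤ b then G (n + e) else 0))
    (fun n hn => by
      show (if a < n ∧ n ≤ b then G n else 0) * _ = 0
      rw [if_neg hn, zero_mul])
  have h2 : ∀ i : ℤ, i + (c + e) = i + c + e := fun i => by ring
  simp only [h2]
  rw [h1]
  symm
  have h3 : ∀ n ∈ Ioc a (b - e), G n * (starRingEnd ℂ) (G (n + e)) =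
      (if a < n ∧ n ≤ b then G n else 0) *
      (starRingEnd ℂ) (if a < n + e ∧ n + e ≤ b then G (n + e) else 0) := by
    intro n hn
    rw [Finset.mem_Ioc] at hn
    rw [if_pos (by omega), if_pos (by omega)]
  rw [Finset.sum_congr rfl h3]
  refine Finset.sum_subset ?_ ?_
  · intro n hn
    rw [Finset.mem_Ioc] at hn ⊢
    omega
  · intro n hn hn'
    rw [Finset.mem_Ioc] at hn hn'
    rw [if_neg (by omega : ¬ (a < n + e ∧ n + e ≤ b)), map_zero, mul_zero]

/-- The pairs of shifts. -/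
private theorem Gvd_pairs (T1 : ℕ) (C : ℕ → ℝ) (hC : ∀ d, 0 ≤ C d) (t : ℕ) (ht : t < T1) :
    ∑ t' ∈ range T1, (if t ≤ t' then C (t' - t) else C (t - t')) ≤
      C 0 + 2 * ∑ d ∈ Ico 1 T1, C d := by
  have h0 : ∑ d ∈ range T1, C d = C 0 + ∑ d ∈ Ico 1 T1, C d := by
    rw [Finset.range_eq_Ico, ← Finset.sum_Ioo_add_eq_sum_Ico (by omega : 0 < T1)]
    rw [add_comm]
    rfl
  rw [Finset.sum_ite]
  have h1 : ∑ t' ∈ (range T1).filter (fun t' => t ≤ t'), C (t' - t) ≤ ∑ d ∈ range T1, C d := by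
    rw [← Finset.sum_image (f := C) (g := fun t' => t' - t) (s := (range T1).filter (fun t' => t ≤ t'))]
    · refine Finset.sum_le_sum_of_subset_of_nonneg ?_ fun d _ _ => hC d
      intro d hd
      rw [Finset.mem_image] at hd
      obtain ⟨t', ht', rfl⟩ := hd
      rw [Finset.mem_filter, Finset.mem_range] at ht'
      rw [Finset.mem_range]
      omega
    · intro x hx y hy hxy
      have hx' := (Finset.mem_filter.1 hx).2
      have hy' := (Finset.mem_filter.1 hy).2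
      have : x - t = y - t := hxy
      omega
  have h2 : ∑ t' ∈ (range T1).filter (fun t' => ¬ t ≤ t'), C (t - t') ≤ ∑ d ∈ Ico 1 T1, C d := by
    rw [← Finset.sum_image (f := C) (g := fun t' => t - t') (s := (range T1).filter (fun t' => ¬ t ≤ t'))]
    · refine Finset.sum_le_sum_of_subset_of_nonneg ?_ fun d _ _ => hC d
      intro d hd
      rw [Finset.mem_image] at hd
      obtain ⟨t', ht', rfl⟩ := hd
      rw [Finset.mem_filter, Finset.mem_range] at ht'
      rw [Finset.mem_Ico]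
      omega
    · intro x hx y hy hxy
      have hx' := (Finset.mem_filter.1 hx).2
      have hy' := (Finset.mem_filter.1 hy).2
      have : t - x = t - y := hxy
      omega
  linarith

theorem tGvd : GvdStmt := by
  intro L K T1 a b G Ψ hK hT1 hKT hab hΨ hΨ1 hG1
  have hK' : (1 : ℝ) ≤ K := by exact_mod_cast hK
  have hT' : (1 : ℝ) ≤ T1 := by exact_mod_cast hT1
  have hL : 0 < L := lt_of_lt_of_le (by positivity) hKT
  obtain ⟨C, hC⟩ : ∃ C : ℕ → ℝ, C = fun t => ‖∑ i ∈ Ioc a (b - ((K * t : ℕ) : ℤ)),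
    G i * (starRingEnd ℂ) (G (i + ((K * t : ℕ) : ℤ)))‖ := ⟨_, rfl⟩
  have hC0 : ∀ d, 0 ≤ C d := fun d => by rw [hC]; exact norm_nonneg _
  obtain ⟨S, hS⟩ : ∃ S, S = ∑ i ∈ Ioc a b, G i * Ψ i := ⟨_, rfl⟩
  have hgoal : ‖S‖ ^ 2 ≤ 2 * L / T1 * (L + 2 * ∑ t ∈ Ico 1 T1, C t) := by
    have hsum0 : 0 ≤ ∑ t ∈ Ico 1 T1, C t := Finset.sum_nonneg fun t _ => hC0 t
    rcases le_or_gt b a with hba | hba
    · rw [hS, Finset.Ioc_eq_empty_of_le hba, Finset.sum_empty, norm_zero, zero_pow two_ne_zero]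
      positivity
    -- the periodicity
    have hper : ∀ (t : ℕ) (i : ℤ), Ψ (i + ((K * t : ℕ) : ℤ)) = Ψ i := by
      intro t
      induction t with
      | zero => intro i; simp
      | succ t ih =>
        intro i
        have e : i + ((K * (t + 1) : ℕ) : ℤ) = (i + ((K * t : ℕ) : ℤ)) + K := by
          push_cast
          ring
        rw [e, hΨ, ih]
    obtain ⟨W, hW⟩ : ∃ W, W = Ioc (a - ((K * T1 : ℕ) : ℤ)) b := ⟨_, rfl⟩
    obtain ⟨g, hg⟩ : ∃ g : ℤ → ℕ → ℂ, g = fun i t =>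
      if a < i + ((K * t : ℕ) : ℤ) ∧ i + ((K * t : ℕ) : ℤ) ≤ b then G (i + ((K * t : ℕ) : ℤ)) else 0 :=
      ⟨_, rfl⟩
    obtain ⟨H, hH⟩ : ∃ H : ℤ → ℂ, H = fun m => ∑ t ∈ range T1, g m t := ⟨_, rfl⟩
    have hle : ∀ t, t < T1 → ((K * t : ℕ) : ℤ) ≤ ((K * T1 : ℕ) : ℤ) := by
      intro t ht
      exact_mod_cast Nat.mul_le_mul_left K ht.le
    have h1 : (T1 : ℂ) * S = ∑ m ∈ W, Ψ m * H m := by
      have e1 : ∑ _t ∈ range T1, S = (T1 : ℂ) * S := by
        rw [Finset.sum_const, nsmul_eq_mul, Finset.card_range]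
      rw [← e1, hH]
      have e2 : ∀ t ∈ range T1, S = ∑ m ∈ W, Ψ m * g m t := fun t ht => by
        have ht' := Finset.mem_range.1 ht
        have h := Gvd_shift a b ((K * T1 : ℕ) : ℤ) ((K * t : ℕ) : ℤ) (by positivity) (hle t ht')
          (fun n => (if a < n ∧ n ≤ b then G n else 0) * Ψ n)
          (fun n hn => by
            show (if a < n ∧ n ≤ b then G n else 0) * _ = 0
            rw [if_neg hn, zero_mul])
        have e3 : S = ∑ n ∈ Ioc a b, (if a < n ∧ n ≤ b then G n else 0) * Ψ n := by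
          rw [hS]
          refine Finset.sum_congr rfl fun n hn => ?_
          rw [if_pos (Finset.mem_Ioc.1 hn)]
        rw [e3, ← h, hW, hg]
        refine Finset.sum_congr rfl fun n _ => ?_
        rw [hper, mul_comm]
      rw [Finset.sum_congr rfl e2, Finset.sum_comm]
      exact Finset.sum_congr rfl fun m _ => (Finset.mul_sum _ _ _).symm
    have hcard : (W.card : ℝ) ≤ 2 * L := by
      rw [hW, Int.card_Ioc]
      have e1 : ((b - (a - ((K * T1 : ℕ) : ℤ))).toNat : ℤ) = b - (a - ((K * T1 : ℕ) : ℤ)) :=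
        Int.toNat_of_nonneg (by
          have : (0 : ℤ) ≤ ((K * T1 : ℕ) : ℤ) := by positivity
          omega)
      have e2 : ((b - (a - ((K * T1 : ℕ) : ℤ))).toNat : ℝ) = ((b - (a - ((K * T1 : ℕ) : ℤ)) : ℤ) : ℝ) := by
        rw [← e1]
        norm_cast
      rw [e2]
      push_cast at hab ⊢
      linarith
    have h2 : ‖(T1 : ℂ) * S‖ ^ 2 ≤ 2 * L * ∑ m ∈ W, ‖H m‖ ^ 2 := by
      have e1 : ‖(T1 : ℂ) * S‖ ≤ ∑ m ∈ W, ‖H m‖ := by
        rw [h1]
        refine (norm_sum_le _ _).trans (Finset.sum_le_sum fun m _ => ?_)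
        rw [norm_mul]
        exact mul_le_of_le_one_left (norm_nonneg _) (hΨ1 _)
      have e2 : (∑ m ∈ W, ‖H m‖) ^ 2 ≤ (W.card : ℝ) * ∑ m ∈ W, ‖H m‖ ^ 2 :=
        sq_sum_le_card_mul_sum_sq
      refine (pow_le_pow_left₀ (norm_nonneg _) e1 2).trans (e2.trans ?_)
      exact mul_le_mul_of_nonneg_right hcard (Finset.sum_nonneg fun i _ => sq_nonneg _)
    have h3 : ((∑ m ∈ W, ‖H m‖ ^ 2 : ℝ) : ℂ) =
        ∑ t ∈ range T1, ∑ t' ∈ range T1, ∑ m ∈ W, g m t * (starRingEnd ℂ) (g m t') := by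
      have e1 : ∀ m, ((‖H m‖ ^ 2 : ℝ) : ℂ) = ∑ t ∈ range T1, ∑ t' ∈ range T1,
          g m t * (starRingEnd ℂ) (g m t') := by
        intro m
        rw [Complex.ofReal_pow, ← Complex.mul_conj', hH]
        simp only [map_sum]
        rw [Finset.sum_mul_sum]
      rw [Complex.ofReal_sum, Finset.sum_congr rfl fun m _ => e1 m, Finset.sum_comm]
      exact Finset.sum_congr rfl fun a _ => Finset.sum_comm
    have h4 : ∑ m ∈ W, ‖H m‖ ^ 2 ≤ ∑ t ∈ range T1, ∑ t' ∈ range T1,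
        ‖∑ m ∈ W, g m t * (starRingEnd ℂ) (g m t')‖ := by
      have e0 : 0 ≤ ∑ m ∈ W, ‖H m‖ ^ 2 := Finset.sum_nonneg fun i _ => sq_nonneg _
      have e1 : ∑ m ∈ W, ‖H m‖ ^ 2 = ‖((∑ m ∈ W, ‖H m‖ ^ 2 : ℝ) : ℂ)‖ := by
        rw [Complex.norm_real, Real.norm_of_nonneg e0]
      rw [e1, h3]
      refine (norm_sum_le _ _).trans (Finset.sum_le_sum fun a _ => ?_)
      exact norm_sum_le _ _
    -- the inner sums
    have h5 : ∀ t t' : ℕ, t ≤ t' → t < T1 →
        ‖∑ m ∈ W, g m t * (starRingEnd ℂ) (g m t')‖ = C (t' - t) := by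
      intro t t' htt ht
      have e1 : ((K * t' : ℕ) : ℤ) = ((K * t : ℕ) : ℤ) + ((K * (t' - t) : ℕ) : ℤ) := by
        have : K * t' = K * t + K * (t' - t) := by
          rw [← Nat.mul_add, Nat.add_sub_cancel' htt]
        rw [this]
        push_cast
        rfl
      have h := Gvd_cor a b ((K * T1 : ℕ) : ℤ) ((K * t : ℕ) : ℤ) ((K * (t' - t) : ℕ) : ℤ)
        (by positivity) (hle t ht) (by positivity) G
      rw [hC]
      show _ = ‖∑ i ∈ Ioc a (b - ((K * (t' - t) : ℕ) : ℤ)), _‖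
      rw [← h, hW, hg]
      simp only [e1]
    have h6 : ∀ t t' : ℕ, t < T1 → t' < T1 →
        ‖∑ m ∈ W, g m t * (starRingEnd ℂ) (g m t')‖ = if t ≤ t' then C (t' - t) else C (t - t') := by
      intro t t' ht ht'
      split_ifs with h
      · exact h5 t t' h ht
      · rw [← h5 t' t (not_le.1 h).le ht', ← RCLike.norm_conj, map_sum]
        congr 1
        refine Finset.sum_congr rfl fun m _ => ?_
        rw [map_mul, Complex.conj_conj, mul_comm]
    have h7 : ∑ m ∈ W, ‖H m‖ ^ 2 ≤ T1 * (L + 2 * ∑ t ∈ Ico 1 T1, C t) := by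
      refine h4.trans ?_
      have e1 : ∀ t ∈ range T1, ∑ t' ∈ range T1, ‖∑ m ∈ W, g m t * (starRingEnd ℂ) (g m t')‖ ≤
          L + 2 * ∑ t ∈ Ico 1 T1, C t := by
        intro t ht
        have ht' := Finset.mem_range.1 ht
        rw [Finset.sum_congr rfl fun t' h' => h6 t t' ht' (Finset.mem_range.1 h')]
        refine (Gvd_pairs T1 C hC0 t ht').trans ?_
        have hC00 : C 0 ≤ L := by
          rw [hC]
          show ‖∑ i ∈ Ioc a (b - ((K * 0 : ℕ) : ℤ)), G i * (starRingEnd ℂ) (G (i + ((K * 0 : ℕ) : ℤ)))‖ ≤ L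
          refine (norm_sum_le _ _).trans ?_
          have e2 : ∀ i ∈ Ioc a (b - ((K * 0 : ℕ) : ℤ)),
              ‖G i * (starRingEnd ℂ) (G (i + ((K * 0 : ℕ) : ℤ)))‖ ≤ 1 := by
            intro i _
            rw [norm_mul, RCLike.norm_conj]
            exact mul_le_one₀ (hG1 _) (norm_nonneg _) (hG1 _)
          refine (Finset.sum_le_card_nsmul _ _ 1 e2).trans ?_
          rw [nsmul_eq_mul, mul_one, Int.card_Ioc]
          have e3 : ((b - ((K * 0 : ℕ) : ℤ) - a).toNat : ℤ) = b - a := by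
            rw [Nat.mul_zero, Nat.cast_zero, sub_zero]
            exact Int.toNat_of_nonneg (by omega)
          have e4 : ((b - ((K * 0 : ℕ) : ℤ) - a).toNat : ℝ) = ((b - a : ℤ) : ℝ) := by
            rw [← e3]
            norm_cast
          rw [e4]
          exact hab
        linarith
      refine (Finset.sum_le_card_nsmul _ _ _ e1).trans ?_
      rw [nsmul_eq_mul, Finset.card_range]
    have h8 : (T1 : ℝ) ^ 2 * ‖S‖ ^ 2 ≤ 2 * L * (T1 * (L + 2 * ∑ t ∈ Ico 1 T1, C t)) := by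
      have e1 : ‖(T1 : ℂ) * S‖ ^ 2 = (T1 : ℝ) ^ 2 * ‖S‖ ^ 2 := by
        rw [norm_mul, Complex.norm_natCast, mul_pow]
      rw [← e1]
      exact h2.trans (mul_le_mul_of_nonneg_left h7 (by positivity))
    have hTpos : (0 : ℝ) < T1 := by linarith
    rw [div_mul_eq_mul_div, le_div_iff₀ hTpos]
    have h9 : (T1 : ℝ) * (‖S‖ ^ 2 * T1) ≤ T1 * (2 * L * (L + 2 * ∑ t ∈ Ico 1 T1, C t)) := by
      nlinarith [h8]
    exact le_of_mul_le_mul_left h9 hTpos
  rw [hS, hC] at hgoal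
  exact hgoal

end Pool.Agent.Lib.SLG
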