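import Pool.Agent.Lib.SLG.SpecG
import Pool.Agent.Lib.WR.All

/-!
MP_00e23e_nt, project SL, phase 3, chapter G: Weil's bound for the local functions.
-/

set_option autoImplicit false

namespace Pool.Agent.Lib.SLG

open Finset Pool.Agent.Lib.EH3 Pool.Agent.Lib.TB Pool.Agent.Results.MP_00e23e_nt Pool.Agent.Lib.MI

private theorem Gwe_en (p : ℕ) [Fact p.Prime] (j : ℤ) :
    en j p = ZMod.stdAddChar ((j : ℤ) : ZMod p) := by
  rw [ZMod.stdAddChar_coe]
  unfold en ee
  congr 1
  push_cast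
  ring

private theorem Gwe_ez (p : ℕ) [Fact p.Prime] (z : ZMod p) : ez p z = ZMod.stdAddChar z := by
  unfold ez
  rw [Gwe_en, Int.cast_natCast, ZMod.natCast_zmod_val]

theorem tGwe : GweStmt := by
  classical
  intro m p f b hp hG
  obtain ⟨s, c, hs, hc, hf⟩ := hG
  have hpf : Fact p.Prime := ⟨hp⟩
  have h1 : ∑ x ∈ range p, f (x : ZMod p) * en (b * x) p =
      ∑ z ∈ (univ : Finset (ZMod p)), f z * ZMod.stdAddChar ((b : ZMod p) * z) := by
    refine Finset.sum_nbij' (fun x => (x : ZMod p)) (fun z => z.val) ?_ ?_ ?_ ?_ ?_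
    · intro x _
      exact mem_univ _
    · intro z _
      exact mem_range.2 (ZMod.val_lt z)
    · intro x hx
      exact ZMod.val_cast_of_lt (mem_range.1 hx)
    · intro z _
      exact ZMod.natCast_zmod_val z
    · intro x _
      rw [Gwe_en]
      push_cast
      rfl
  have h2 : ∑ z ∈ (univ : Finset (ZMod p)), f z * ZMod.stdAddChar ((b : ZMod p) * z) =
      ∑ z ∈ univ \ s, (ZMod.stdAddChar ((b : ZMod p) * z + ∑ a ∈ s, c a / (z - a)) : ℂ) := by
    rw [← sum_sdiff (subset_univ s)]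
    have h3 : ∑ z ∈ s, f z * ZMod.stdAddChar ((b : ZMod p) * z) = 0 := by
      apply sum_eq_zero
      intro z hz
      rw [hf, lf, if_pos hz, zero_mul]
    rw [h3, add_zero]
    apply sum_congr rfl
    intro z hz
    rw [mem_sdiff] at hz
    rw [hf, lf, if_neg hz.2, Gwe_ez, AddChar.map_add_eq_mul, mul_comm]
    congr 2
  rw [h1, h2]
  refine (WR.wr p s c (b : ZMod p) (Or.inr hc)).trans ?_
  have h4 : (s.card : ℝ) ≤ 2 ^ m := by exact_mod_cast hs
  have h5 : 2 * (s.card : ℝ) ≤ 2 ^ (m + 1) := by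
    rw [pow_succ]
    linarith
  exact mul_le_mul_of_nonneg_right h5 (Real.sqrt_nonneg _)

end Pool.Agent.Lib.SLG
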