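import Pool.Agent.Lib.SLG.SpecL

/-!
MP_00e23e_nt, project SL, P2, chapter L, module Lal (helper40): the two directions.
-/

set_option autoImplicit false

namespace Pool.Agent.Lib.SLG

open Finset Pool.Agent.Lib.EH3 Pool.Agent.Lib.TB Pool.Agent.Results.MP_00e23e_nt Pool.Agent.Lib.MI

private lemma Lal_prime {s : Finset ℕ} (hs : ∀ q ∈ s, q.Prime) {p : ℕ} (hp : p.Prime)
    (h : p ∣ ∏ q ∈ s, q) : p ∈ s := by
  obtain ⟨q, hq, hpq⟩ := (Prime.dvd_finsetProd_iff hp.prime (fun q : ℕ => q)).1 h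
  have h1 : p = q := (Nat.prime_dvd_prime_iff_eq hp (hs q hq)).1 hpq
  rw [h1]
  exact hq

private lemma Lal_dvd {s : Finset ℕ} (hs : ∀ q ∈ s, q.Prime) {n : ℤ}
    (h : ∀ q ∈ s, (q : ℤ) ∣ n) : ∏ q ∈ s, q ∣ n.natAbs :=
  Finset.prod_primes_dvd _ (fun q hq => (hs q hq).prime) fun q hq => Int.natCast_dvd.1 (h q hq)

private lemma Lal_le {G : ℕ} {e : ℤ × ℤ} (he : 1 ≤ nm e) (h1 : G ∣ e.1.natAbs)
    (h2 : G ∣ e.2.natAbs) : (G : ℤ) ≤ nm e := by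
  by_cases h : e.1 = 0
  · have h3 : e.2 ≠ 0 := by
      intro h3
      unfold nm at he
      rw [h, h3] at he
      norm_num at he
    have h4 : G ≤ e.2.natAbs := Nat.le_of_dvd (Int.natAbs_pos.2 h3) h2
    have h5 : (G : ℤ) ≤ |e.2| := by
      rw [← Int.natCast_natAbs]
      exact_mod_cast h4
    exact h5.trans (le_max_right _ _)
  · have h4 : G ≤ e.1.natAbs := Nat.le_of_dvd (Int.natAbs_pos.2 h) h1
    have h5 : (G : ℤ) ≤ |e.1| := by
      rw [← Int.natCast_natAbs]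
      exact_mod_cast h4
    exact h5.trans (le_max_left _ _)

private lemma Lal_real1 {a b B N W : ℝ} (ha : 1 ≤ a) (hab : a ≤ b) (hm : a * b ≤ 2 * B)
    (hW : 1 ≤ W) (hN : 0 ≤ N) (h : W ^ 2 * B ≤ N ^ 2) : a * W ≤ 2 * N := by
  have h1 : a * a ≤ 2 * B := (mul_le_mul_of_nonneg_left hab (by linarith)).trans hm
  have h2 : (a * W) * (a * W) ≤ 2 * N ^ 2 := by
    have h3 : (a * a) * W ^ 2 ≤ 2 * B * W ^ 2 := mul_le_mul_of_nonneg_right h1 (by positivity)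
    calc (a * W) * (a * W) = (a * a) * W ^ 2 := by ring
      _ ≤ 2 * B * W ^ 2 := h3
      _ = 2 * (W ^ 2 * B) := by ring
      _ ≤ 2 * N ^ 2 := by linarith
  by_contra h5
  push Not at h5
  have h6 : (2 * N) * (2 * N) ≤ (a * W) * (a * W) :=
    mul_self_le_mul_self (by linarith) h5.le
  have h8 : N ^ 2 ≤ 0 := by nlinarith
  have h9 : N = 0 := by nlinarith [sq_nonneg N]
  have h10 : 0 < a * W := mul_pos (by linarith) (by linarith)
  have h11 : 0 < (a * W) * (a * W) := mul_pos h10 h10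
  rw [h9] at h2
  linarith

private lemma Lal_real2 {a b B N Z W Y G1 G2 Go : ℝ} (hab : a ≤ b) (ha : 1 ≤ a)
    (hm : a * b ≤ 2 * B) (hZ : 1 ≤ Z) (hW : 1 ≤ W) (hY : 0 ≤ Y) (hB : B = Go * Y)
    (hG : G1 * G2 = Go) (hGo : Z ^ 2 ≤ Go) (h1 : G1 < Z) (hG2 : 0 ≤ G2) (h2 : G2 ≤ a)
    (h : Z * (W * Y) ≤ N) : Z ≤ G2 ∧ b * W ≤ 2 * N := by
  have hZ0 : 0 < Z := by linarith
  have hb0 : 0 ≤ b := by linarith
  have h3 : Z * Z ≤ Z * G2 := by
    calc Z * Z = Z ^ 2 := by ring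
      _ ≤ G1 * G2 := by rw [hG]; exact hGo
      _ ≤ Z * G2 := mul_le_mul_of_nonneg_right h1.le hG2
  have h4 : Z ≤ G2 := le_of_mul_le_mul_left h3 hZ0
  have hG2' : 0 < G2 := by linarith
  refine ⟨h4, ?_⟩
  have h5 : G2 * b ≤ G2 * (2 * (Z * Y)) := by
    calc G2 * b ≤ a * b := mul_le_mul_of_nonneg_right h2 hb0
      _ ≤ 2 * B := hm
      _ = G1 * (2 * (G2 * Y)) := by rw [hB, ← hG]; ring
      _ ≤ Z * (2 * (G2 * Y)) := mul_le_mul_of_nonneg_right h1.le (by positivity)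
      _ = G2 * (2 * (Z * Y)) := by ring
  have h6 : b ≤ 2 * (Z * Y) := le_of_mul_le_mul_left h5 hG2'
  calc b * W ≤ 2 * (Z * Y) * W := mul_le_mul_of_nonneg_right h6 (by linarith)
    _ = 2 * (Z * (W * Y)) := by ring
    _ ≤ 2 * N := by linarith

theorem tLal (h1 : LrbStmt) (h2 : LbsStmt) : LalStmt := by
  intro W Z B Go Y N l hW hZ hB hN hsq hl hGY hZG hBN hZY
  obtain ⟨e, f, hbs, he1, hef, hmul⟩ := h1 B l hB
  obtain ⟨-, -, -, -, -, -, hpr0⟩ := h2 B l e f hB hbs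
  have hpr := hpr0 hsq hl
  have hGd : Go ∣ B := ⟨Y, hGY⟩
  have hGsq : Squarefree Go := hsq.squarefree_of_dvd hGd
  have hprod : ∏ p ∈ Go.primeFactors, p = Go := Nat.prod_primeFactors_of_squarefree hGsq
  have hN0 : (0 : ℝ) ≤ (N : ℝ) := Nat.cast_nonneg N
  have ha : (1 : ℝ) ≤ (nm e : ℝ) := by exact_mod_cast he1
  have hab : (nm e : ℝ) ≤ (nm f : ℝ) := by exact_mod_cast hef
  have hm : (nm e : ℝ) * (nm f : ℝ) ≤ 2 * (B : ℝ) := by exact_mod_cast hmul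
  have hf1 : 1 ≤ nm f := he1.trans hef
  have hfB : nm f ≤ 2 * (B : ℤ) := by
    calc nm f = 1 * nm f := (one_mul _).symm
      _ ≤ nm e * nm f := mul_le_mul_of_nonneg_right he1 (by omega)
      _ ≤ 2 * (B : ℤ) := hmul
  -- the two parts of Go
  have hs1 : ∀ q ∈ Go.primeFactors.filter (fun p : ℕ => (p : ℤ) ∣ e.1), q.Prime := fun q hq =>
    Nat.prime_of_mem_primeFactors (mem_filter.1 hq).1
  have hs2 : ∀ q ∈ Go.primeFactors.filter (fun p : ℕ => ¬ (p : ℤ) ∣ e.1), q.Prime := fun q hq =>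
    Nat.prime_of_mem_primeFactors (mem_filter.1 hq).1
  obtain ⟨G2, hG2⟩ : ∃ G2, G2 = ∏ p ∈ Go.primeFactors.filter (fun p : ℕ => (p : ℤ) ∣ e.1), p :=
    ⟨_, rfl⟩
  obtain ⟨G1, hG1⟩ : ∃ G1, G1 = ∏ p ∈ Go.primeFactors.filter (fun p : ℕ => ¬ (p : ℤ) ∣ e.1), p :=
    ⟨_, rfl⟩
  have h12 : G2 * G1 = Go := by
    rw [hG1, hG2, Finset.prod_filter_mul_prod_filter_not]
    exact hprod
  by_cases hc : Z ≤ (G1 : ℝ)
  · refine ⟨e, f, G1, hbs, ⟨G2, by rw [mul_comm]; exact h12.symm⟩, ?_, ?_, hef.trans hfB, hc⟩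
    · intro p hp hpG
      rw [hG1] at hpG
      exact (mem_filter.1 (Lal_prime hs2 hp hpG)).2
    · exact Lal_real1 ha hab hm hW hN0 hBN
  · push Not at hc
    have hd1 : G2 ∣ e.1.natAbs := by
      rw [hG2]
      exact Lal_dvd hs1 fun q hq => (mem_filter.1 hq).2
    have hd2 : G2 ∣ e.2.natAbs := by
      rw [hG2]
      refine Lal_dvd hs1 fun q hq => ?_
      have hqB : q ∣ B := (Nat.dvd_of_mem_primeFactors (mem_filter.1 hq).1).trans hGd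
      exact (hpr q (hs1 q hq) hqB).1.1 (mem_filter.1 hq).2
    have hle : (G2 : ℤ) ≤ nm e := Lal_le he1 hd1 hd2
    have hle' : (G2 : ℝ) ≤ (nm e : ℝ) := by exact_mod_cast hle
    have hG : (G1 : ℝ) * (G2 : ℝ) = (Go : ℝ) := by
      rw [mul_comm]
      exact_mod_cast h12
    have hGY' : (B : ℝ) = (Go : ℝ) * (Y : ℝ) := by exact_mod_cast hGY
    obtain ⟨k1, k2⟩ := Lal_real2 hab ha hm hZ hW (Nat.cast_nonneg Y) hGY' hG hZG hc
      (Nat.cast_nonneg G2) hle' hZY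
    refine ⟨f, e, G2, ⟨hbs.2.1, hbs.1, ?_⟩, ⟨G1, h12.symm⟩, ?_, k2, hfB, k1⟩
    · rw [← hbs.2.2, ← abs_neg (dt e f)]
      congr 1
      unfold dt
      ring
    · intro p hp hpG
      rw [hG2] at hpG
      have hmem := Lal_prime hs1 hp hpG
      have hpB : p ∣ B := (Nat.dvd_of_mem_primeFactors (mem_filter.1 hmem).1).trans hGd
      exact (hpr p hp hpB).2 (mem_filter.1 hmem).2

end Pool.Agent.Lib.SLG
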