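import Pool.Agent.Lib.SLG.SpecL

/-!
MP_00e23e_nt, project SL, chapter L, module Lbs: coordinates and primes of a lattice basis.
-/

set_option autoImplicit false

namespace Pool.Agent.Lib.SLG

open Finset Pool.Agent.Lib.EH3 Pool.Agent.Lib.TB Pool.Agent.Results.MP_00e23e_nt Pool.Agent.Lib.MI

private lemma Lbs_dt (B : ℕ) (l : ℤ) (m n : ℤ × ℤ) (hm : (B : ℤ) ∣ m.1 - l * m.2)
    (hn : (B : ℤ) ∣ n.1 - l * n.2) : (B : ℤ) ∣ dt m n := by
  obtain ⟨a, ha⟩ := hm
  obtain ⟨b, hb⟩ := hn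
  refine ⟨a * n.2 - b * m.2, ?_⟩
  have h1 : m.1 = l * m.2 + B * a := by linarith
  have h2 : n.1 = l * n.2 + B * b := by linarith
  unfold dt
  rw [h1, h2]
  ring

private lemma Lbs_dvd (B : ℕ) (D t : ℤ) (h : |D| = (B : ℤ)) (ht : (B : ℤ) ∣ t) : D ∣ t := by
  rw [← h] at ht
  exact (abs_dvd D t).mp ht

theorem tLbs : LbsStmt := by
  intro B l e f hB hbs
  obtain ⟨he, hf, hD⟩ := hbs
  have hBpos : (0 : ℤ) < (B : ℤ) := by exact_mod_cast hB
  have hD0 : dt e f ≠ 0 := by
    intro h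
    rw [h, abs_zero] at hD
    omega
  have hj : ∀ i j : ℤ, dt e (pt2 e f i j) = j * dt e f := by
    intro i j
    unfold dt pt2
    ring
  have hi : ∀ i j : ℤ, dt (pt2 e f i j) f = i * dt e f := by
    intro i j
    unfold dt pt2
    ring
  refine ⟨?_, ?_, ?_, hj, hi, ?_, ?_⟩
  · by_contra hlt
    have h0 : nm e ≤ 0 := by omega
    have h1 : |e.1| ≤ 0 := le_trans (le_max_left _ _) h0
    have h2 : |e.2| ≤ 0 := le_trans (le_max_right _ _) h0
    have h3 : e.1 = 0 := abs_nonpos_iff.mp h1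
    have h4 : e.2 = 0 := abs_nonpos_iff.mp h2
    apply hD0
    unfold dt
    rw [h3, h4]
    ring
  · intro n hn
    obtain ⟨i, hi'⟩ := Lbs_dvd B (dt e f) (dt n f) hD (Lbs_dt B l n f hn hf)
    obtain ⟨j, hj'⟩ := Lbs_dvd B (dt e f) (dt e n) hD (Lbs_dt B l e n he hn)
    refine ⟨i, j, ?_⟩
    have e1 : dt e f * n.1 = dt e f * (j * f.1 + i * e.1) := by
      have : dt e f * n.1 = dt n f * e.1 + dt e n * f.1 := by
        unfold dt
        ring
      rw [this, hi', hj']
      ring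
    have e2 : dt e f * n.2 = dt e f * (j * f.2 + i * e.2) := by
      have : dt e f * n.2 = dt n f * e.2 + dt e n * f.2 := by
        unfold dt
        ring
      rw [this, hi', hj']
      ring
    have e1' := mul_left_cancel₀ hD0 e1
    have e2' := mul_left_cancel₀ hD0 e2
    exact Prod.ext e1' e2'
  · intro i j
    have : (pt2 e f i j).1 - l * (pt2 e f i j).2 = j * (f.1 - l * f.2) + i * (e.1 - l * e.2) := by
      unfold pt2
      ring
    rw [this]
    exact dvd_add (Dvd.dvd.mul_left hf j) (Dvd.dvd.mul_left he i)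
  · intro i j i' j' h
    constructor
    · have h1 := hi i j
      rw [h, hi i' j'] at h1
      exact (mul_right_cancel₀ hD0 h1).symm
    · have h1 := hj i j
      rw [h, hj i' j'] at h1
      exact (mul_right_cancel₀ hD0 h1).symm
  · intro hsq hgcd p hp hpB
    have hpBZ : (p : ℤ) ∣ (B : ℤ) := by exact_mod_cast hpB
    have hpZ : Prime (p : ℤ) := Nat.prime_iff_prime_int.mp hp
    have hpl : ¬ (p : ℤ) ∣ l := by
      intro h
      have h1 : (p : ℤ) ∣ ((Int.gcd l B : ℕ) : ℤ) := Int.dvd_coe_gcd h hpBZ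
      rw [hgcd] at h1
      have h2 : p ∣ 1 := by exact_mod_cast h1
      exact hp.one_lt.ne' (Nat.dvd_one.mp h2)
    have key : ∀ m : ℤ × ℤ, (B : ℤ) ∣ m.1 - l * m.2 → ((p : ℤ) ∣ m.1 ↔ (p : ℤ) ∣ m.2) := by
      intro m hm
      have h1 : (p : ℤ) ∣ m.1 - l * m.2 := dvd_trans hpBZ hm
      constructor
      · intro h
        have h2 : (p : ℤ) ∣ l * m.2 := by
          have := dvd_sub h h1
          simpa using this
        rcases hpZ.dvd_or_dvd h2 with h3 | h3
        · exact absurd h3 hpl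
        · exact h3
      · intro h
        have h2 : (p : ℤ) ∣ (m.1 - l * m.2) + l * m.2 := dvd_add h1 (Dvd.dvd.mul_left h l)
        simpa using h2
    refine ⟨key e he, ?_⟩
    intro h1 h2
    have h3 := (key e he).mp h1
    have h4 := (key f hf).mp h2
    have h5 : (p : ℤ) * p ∣ dt e f := by
      unfold dt
      exact dvd_sub (mul_dvd_mul h1 h4) (mul_dvd_mul h3 h2)
    have h6 : (p : ℤ) * p ∣ (B : ℤ) := by
      rw [← hD]
      exact (dvd_abs _ _).mpr h5
    have h7 : p * p ∣ B := by exact_mod_cast h6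
    have h8 := hsq p h7
    exact hp.one_lt.ne' (Nat.isUnit_iff.mp h8)

end Pool.Agent.Lib.SLG
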