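import Pool.Agent.Lib.SLG.SpecL

/-!
MP_00e23e_nt, project SL, P2, chapter L (helper28), module Lfi: the final statement of the lattice chapter.
-/

set_option autoImplicit false

namespace Pool.Agent.Lib.SLG

open Finset Pool.Agent.Lib.EH3 Pool.Agent.Lib.TB Pool.Agent.Results.MP_00e23e_nt Pool.Agent.Lib.MI

private lemma Lfi_tz (c : ℤ) (q : ℕ) (n : ℕ) : tz c q (n : ℤ) = t1g c q n := by
  unfold tz
  have e1 : (((n : ℤ) % (q : ℤ)).toNat) = n % q := by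
    rw [← Int.natCast_mod]
    exact Int.toNat_natCast _
  rw [e1]
  have e2 : n = n % q + (n / q) * q := by
    have := Nat.mod_add_div n q
    rw [mul_comm] at this
    exact this.symm
  conv_rhs => rw [e2]
  rw [t1_g_add_mul]

private lemma Lfi_norm (c : ℤ) (q : ℕ) (n : ℤ) : ‖tz c q n‖ ≤ 1 := t1_norm_g _ _ _

private lemma Lfi_prod (c1 c2 : ℤ) (q1 q2 : ℕ) (n m : ℤ) : ‖tz c1 q1 n * tz c2 q2 m‖ ≤ 1 := by
  rw [norm_mul]
  calc ‖tz c1 q1 n‖ * ‖tz c2 q2 m‖ ≤ 1 * 1 :=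
        mul_le_mul (Lfi_norm _ _ _) (Lfi_norm _ _ _) (norm_nonneg _) zero_le_one
    _ = 1 := one_mul 1

/-- the phase vanishes if n is not coprime to B -/
private lemma Lfi_zero {c : ℤ} {B w : ℕ} {n : ℤ} (hq : 1 ≤ B * w) (h : tz c (B * w) n ≠ 0) : Int.gcd n B = 1 := by
  unfold tz t1g at h
  have h1 : ((n % ((B * w : ℕ) : ℤ)).toNat).Coprime (B * w) := by
    by_contra hc
    exact h (if_neg hc)
  have h2 : ((n % ((B * w : ℕ) : ℤ)).toNat).Coprime B := Nat.Coprime.coprime_mul_right_right h1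
  have h0 : 0 ≤ n % ((B * w : ℕ) : ℤ) := Int.emod_nonneg _ (by exact_mod_cast (by omega : B * w ≠ 0))
  have h3 : Int.gcd (n % ((B * w : ℕ) : ℤ)) B = 1 := by
    have : (((n % ((B * w : ℕ) : ℤ)).toNat : ℕ) : ℤ) = n % ((B * w : ℕ) : ℤ) := Int.toNat_of_nonneg h0
    rw [← this, Int.gcd_natCast_natCast]
    exact h2
  have h4 : (B : ℤ) ∣ n - n % ((B * w : ℕ) : ℤ) := by
    have : ((B * w : ℕ) : ℤ) ∣ n - n % ((B * w : ℕ) : ℤ) := Int.dvd_self_sub_emod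
    have h6 : (B : ℤ) ∣ ((B * w : ℕ) : ℤ) := ⟨(w : ℤ), by push_cast; rfl⟩
    exact h6.trans this
  rw [← h3]
  obtain ⟨m, hm⟩ := h4
  have h5 : n = n % ((B * w : ℕ) : ℤ) + m * (B : ℤ) := by linarith
  conv_lhs => rw [h5]
  exact Int.gcd_add_mul_right_left ..

/-- the number of the lines j ≠ 0 -/
private lemma Lfi_card {J : ℤ} (hJ : 0 ≤ J) : (((Icc (-J) J).filter (fun j => j ≠ 0)).card : ℝ) = 2 * (J : ℝ) := by
  have h1 : (Icc (-J) J).filter (fun j => j ≠ 0) = (Icc (-J) J).erase 0 := by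
    ext j
    rw [mem_filter, mem_erase]
    tauto
  have h2 : (0 : ℤ) ∈ Icc (-J) J := mem_Icc.2 ⟨by omega, hJ⟩
  rw [h1, card_erase_of_mem h2, Int.card_Icc]
  have h3 : ((J + 1 - -J).toNat - 1 : ℕ) = (2 * J).toNat := by omega
  rw [h3]
  have h4 : (((2 * J).toNat : ℕ) : ℤ) = 2 * J := Int.toNat_of_nonneg (by omega)
  have h5 : (((2 * J).toNat : ℕ) : ℝ) = ((2 * J : ℤ) : ℝ) := by rw [← h4]; rfl
  rw [h5]
  push_cast
  ring

/-- one line -/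
private lemma Lfi_line (f : ℤ → ℂ) (g : ℤ → ℕ) (P : ℤ → Prop) [DecidablePred P] (s : Finset ℤ) (t0 : ℕ) (E : ℝ)
    (hf : ∀ i, ‖f i‖ ≤ 1) (hP : ∀ i ∈ s, f i ≠ 0 → P i) (hE : ‖∑ i ∈ s, f i‖ ≤ E) :
    ‖∑ i ∈ s, (if g i ≤ t0 then f i else 0)‖ ≤ E + ((s.filter (fun i => P i ∧ t0 < g i)).card : ℝ) := by
  have e1 : ∑ i ∈ s, (if g i ≤ t0 then f i else 0) = ∑ i ∈ s, f i - ∑ i ∈ s, (if t0 < g i then f i else 0) := by
    rw [← sum_sub_distrib]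
    refine sum_congr rfl fun i _ => ?_
    by_cases h : g i ≤ t0
    · rw [if_pos h, if_neg (by omega), sub_zero]
    · rw [if_neg h, if_pos (by omega), sub_self]
  have e2 : ‖∑ i ∈ s, (if t0 < g i then f i else 0)‖ ≤ ((s.filter (fun i => P i ∧ t0 < g i)).card : ℝ) := by
    calc ‖∑ i ∈ s, (if t0 < g i then f i else 0)‖ ≤ ∑ i ∈ s, ‖(if t0 < g i then f i else 0)‖ := norm_sum_le _ _
      _ ≤ ∑ i ∈ s, (if P i ∧ t0 < g i then (1 : ℝ) else 0) := by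
          refine sum_le_sum fun i hi => ?_
          by_cases h : t0 < g i
          · rw [if_pos h]
            by_cases h0 : f i = 0
            · rw [h0, norm_zero]
              split_ifs <;> norm_num
            · rw [if_pos ⟨hP i hi h0, h⟩]
              exact hf i
          · rw [if_neg h, norm_zero]
            split_ifs <;> norm_num
      _ = _ := by rw [sum_boole]
  rw [e1]
  calc ‖∑ i ∈ s, f i - ∑ i ∈ s, (if t0 < g i then f i else 0)‖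
      ≤ ‖∑ i ∈ s, f i‖ + ‖∑ i ∈ s, (if t0 < g i then f i else 0)‖ := norm_sub_le _ _
    _ ≤ _ := add_le_add hE e2

/-- the final numbers -/
private lemma Lfi_num {C1 T N B n W Δ t0 J Sb tot : ℝ} {A1 : ℕ} (hC1 : 0 < C1) (hT : 1 ≤ T) (hN : 0 < N) (hB : 0 < B)
    (hn : 0 < n) (hW : 0 < W) (hΔ : 0 < Δ) (ht0 : 0 < t0) (hnW : n * W ≤ 2 * N) (hJ : 2 * J ≤ 8 * N * n / B)
    (hSb : Sb ≤ T * (16 * N ^ 2 / (B * t0) + 8 * N * n / B))
    (htot : tot ≤ t0 + (2 * J * (C1 * T ^ A1 * (2 * N / n) * Δ) + Sb)) :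
    tot ≤ (16 * C1 + 32) * T ^ (A1 + 1) * (N ^ 2 / B * (Δ + 1 / t0 + 1 / W) + t0) := by
  have hT0 : 0 < T := by linarith
  have hTA : 1 ≤ T ^ A1 := one_le_pow₀ hT
  have hTA1 : 1 ≤ T ^ (A1 + 1) := one_le_pow₀ hT
  have e1 : T ^ A1 ≤ T ^ (A1 + 1) := pow_le_pow_right₀ hT (by omega)
  have e2 : T ≤ T ^ (A1 + 1) := by
    calc T = T ^ 1 := (pow_one T).symm
      _ ≤ T ^ (A1 + 1) := pow_le_pow_right₀ hT (by omega)
  have hNB : 0 < N ^ 2 / B := by positivity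
  have e3 : 2 * J * (C1 * T ^ A1 * (2 * N / n) * Δ) ≤ 16 * C1 * T ^ (A1 + 1) * (N ^ 2 / B * Δ) := by
    calc 2 * J * (C1 * T ^ A1 * (2 * N / n) * Δ) ≤ 8 * N * n / B * (C1 * T ^ A1 * (2 * N / n) * Δ) :=
          mul_le_mul_of_nonneg_right hJ (by positivity)
      _ = 16 * C1 * T ^ A1 * (N ^ 2 / B * Δ) := by field_simp; ring
      _ ≤ 16 * C1 * T ^ (A1 + 1) * (N ^ 2 / B * Δ) := by gcongr
  have e4 : 8 * N * n / B ≤ 16 * (N ^ 2 / B * (1 / W)) := by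
    have : n ≤ 2 * N / W := (le_div_iff₀ hW).2 hnW
    calc 8 * N * n / B ≤ 8 * N * (2 * N / W) / B := by gcongr
      _ = 16 * (N ^ 2 / B * (1 / W)) := by field_simp; ring
  have e5 : Sb ≤ 16 * T ^ (A1 + 1) * (N ^ 2 / B * (1 / t0 + 1 / W)) := by
    calc Sb ≤ T * (16 * N ^ 2 / (B * t0) + 8 * N * n / B) := hSb
      _ ≤ T * (16 * (N ^ 2 / B * (1 / t0)) + 16 * (N ^ 2 / B * (1 / W))) := by
          refine mul_le_mul_of_nonneg_left (add_le_add (le_of_eq ?_) e4) hT0.le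
          field_simp
      _ = 16 * T * (N ^ 2 / B * (1 / t0 + 1 / W)) := by ring
      _ ≤ 16 * T ^ (A1 + 1) * (N ^ 2 / B * (1 / t0 + 1 / W)) := by gcongr
  have e6 : t0 ≤ T ^ (A1 + 1) * t0 := le_mul_of_one_le_left ht0.le hTA1
  have p1 : 0 < T ^ (A1 + 1) * (N ^ 2 / B * Δ) := by positivity
  have p2 : 0 < T ^ (A1 + 1) * (N ^ 2 / B * (1 / t0 + 1 / W)) := by positivity
  have p3 : 0 < T ^ (A1 + 1) * t0 := by positivity
  have e7 : (16 * C1 + 32) * T ^ (A1 + 1) * (N ^ 2 / B * (Δ + 1 / t0 + 1 / W) + t0) =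
      (16 * C1 + 32) * (T ^ (A1 + 1) * (N ^ 2 / B * Δ)) +
      (16 * C1 + 32) * (T ^ (A1 + 1) * (N ^ 2 / B * (1 / t0 + 1 / W))) + (16 * C1 + 32) * (T ^ (A1 + 1) * t0) := by ring
  rw [e7]
  nlinarith [mul_pos hC1 p1, mul_pos hC1 p2, mul_pos hC1 p3]

theorem tLfi (h1 : LbsStmt) (h2 : LinStmt) (h3 : LgdStmt) (h4 : LzeStmt) (h5 : LalStmt) (h6 : LmzStmt)
    (h7 : LliStmt) : LfiStmt := by
  intro k
  obtain ⟨C1, hC1, A1, hL⟩ := h7 k
  refine ⟨16 * C1 + 32, by linarith, A1 + 1, ?_⟩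
  intro X T W Z y Δ N B w1 w2 Go Y t0 l c1 c2 hTau hZ hy hΔ hZΔ hN ht0 hs1 hs2 hl hX hsm hBG hgo hZG hWB hCW hCW2 hk
  have hT : 1 ≤ T := hTau.1
  have hT0 : 0 < T := by linarith
  have hC : (32 : ℝ) ≤ 16 * C1 + 32 := by linarith
  set C : ℝ := 16 * C1 + 32 with hCdef
  have hC0 : 0 < C := by linarith
  have hZy : 1 ≤ Z * y := by
    have e1 : (1 : ℝ) * 1 ≤ Z * y := mul_le_mul hZ hy zero_le_one (by linarith)
    linarith
  have hZy0 : 0 < Z * y := by linarith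
  have hZ0 : 0 < Z := by linarith
  have hW32 : 32 ≤ W := by
    have e1 : C ≤ C * (Z * y) ^ 2 := le_mul_of_one_le_right hC0.le (one_le_pow₀ hZy)
    linarith
  have hW0 : 0 < W := by linarith
  have hB1w : 1 ≤ B * w1 := Nat.pos_of_ne_zero hs1.ne_zero
  have hsB : Squarefree B := hs1.of_mul_left
  have hB : 1 ≤ B := Nat.pos_of_ne_zero hsB.ne_zero
  have hNr : (1 : ℝ) ≤ (N : ℝ) := by exact_mod_cast hN
  have hBr : (1 : ℝ) ≤ (B : ℝ) := by exact_mod_cast hB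
  have ht0r : (1 : ℝ) ≤ (t0 : ℝ) := by exact_mod_cast ht0
  have hYr : (0 : ℝ) ≤ (Y : ℝ) := Nat.cast_nonneg _
  have hZWY : Z * (W * (Y : ℝ)) ≤ (N : ℝ) := by
    refine le_trans ?_ hCW
    refine mul_le_mul_of_nonneg_right ?_ (by positivity)
    have e1 : Z * 1 ≤ Z * y := mul_le_mul_of_nonneg_left hy hZ0.le
    have e2 : Z * y ≤ C * (Z * y) := le_mul_of_one_le_left hZy0.le (by linarith)
    linarith
  obtain ⟨e, f, G', hBs, hG'd, hG'p, hnW, hn2B, hZG'⟩ := h5 W Z B Go Y N l (by linarith) hZ hB hN hsB hl hBG hZG hWB hZWY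
  have hGoB : Go ∣ B := ⟨Y, hBG⟩
  obtain ⟨M0, hM0d, hZM0, hM0Z⟩ := h6 Z y G' hZ hy hZG' (fun p hp hpd =>
    hsm p hp ((((hpd.trans hG'd).trans hGoB).mul_right w1).mul_right w2))
  have hM0B : M0 ∣ B := (hM0d.trans hG'd).trans hGoB
  obtain ⟨hnm1, -, -, -, -, -, -⟩ := h1 B l e f hB hBs
  obtain ⟨a, b, hab, hmem, hsum⟩ := h2 B l e f N hB hN hBs
  have hnr : (1 : ℝ) ≤ (nm e : ℝ) := by exact_mod_cast hnm1
  have hn0 : (0 : ℝ) < (nm e : ℝ) := by linarith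
  have hnN : (nm e : ℝ) ≤ (N : ℝ) := by
    have e1 : (nm e : ℝ) * 2 ≤ (nm e : ℝ) * W := mul_le_mul_of_nonneg_left (by linarith) hn0.le
    linarith
  have hnNz : nm e ≤ (N : ℤ) := by exact_mod_cast hnN
  set L : ℝ := 2 * (N : ℝ) / (nm e : ℝ) with hLdef
  have hWL : W ≤ L := by
    rw [hLdef, le_div_iff₀ hn0, mul_comm]
    exact hnW
  have hNn1 : (1 : ℝ) ≤ (N : ℝ) / (nm e : ℝ) := (one_le_div hn0).2 hnN
  have hLn : (N : ℝ) / (nm e : ℝ) + 1 ≤ L := by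
    have : L = (N : ℝ) / (nm e : ℝ) + (N : ℝ) / (nm e : ℝ) := by rw [hLdef]; ring
    rw [this]
    linarith
  have hZyW : Z * y ≤ W := by
    have e1 : Z * y ≤ (Z * y) ^ 2 := le_self_pow₀ hZy (by norm_num)
    have e2 : (Z * y) ^ 2 ≤ C * (Z * y) ^ 2 := le_mul_of_one_le_left (by positivity) (by linarith)
    linarith
  have hZyL : Z * y ≤ L := hZyW.trans hWL
  have hCZy : Z * y ≤ C * (Z * y) := le_mul_of_one_le_left hZy0.le (by linarith)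
  -- sizes
  have hJ0 : 0 ≤ JJ B N e := Int.ediv_nonneg (by positivity) (by positivity)
  have hJr : 2 * ((JJ B N e : ℤ) : ℝ) ≤ 8 * (N : ℝ) * (nm e : ℝ) / (B : ℝ) := by
    have e1 : JJ B N e * (B : ℤ) ≤ 4 * (N : ℤ) * nm e := Int.ediv_mul_le _ (by omega)
    have e2 : ((JJ B N e : ℤ) : ℝ) * (B : ℝ) ≤ 4 * (N : ℝ) * (nm e : ℝ) := by exact_mod_cast e1
    rw [le_div_iff₀ (by linarith)]
    linarith
  have hnX : 4 * (N : ℝ) * (nm e : ℝ) ≤ X := by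
    have e1 : (nm e : ℝ) ≤ 2 * (B : ℝ) := by exact_mod_cast hn2B
    calc 4 * (N : ℝ) * (nm e : ℝ) ≤ 4 * (N : ℝ) * (2 * (B : ℝ)) := mul_le_mul_of_nonneg_left e1 (by linarith)
      _ = 8 * (N : ℝ) * B := by ring
      _ ≤ X := hX
  have hBX : (B : ℝ) ≤ X := by
    refine le_trans ?_ hX
    exact le_mul_of_one_le_left (by linarith) (by linarith)
  have hbad := h3 X T B l e f N t0 a b hTau hB hN ht0 hBs hnNz hnX hab
  obtain ⟨hz1, -⟩ := h4 B e f N t0 a b hB hN hnm1 hmem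
  -- the sum by lines
  have key : ∑ n1 ∈ Ioc N (2 * N), ∑ n2 ∈ Ioc N (2 * N), (if (B : ℤ) ∣ (n1 : ℤ) - l * n2 ∧ Nat.gcd n1 n2 ≤ t0 then
      t1g c1 (B * w1) n1 * t1g c2 w2 n2 else 0) =
      ∑ j ∈ Icc (-(JJ B N e)) (JJ B N e), ∑ i ∈ Ioc (a j) (b j),
        (if Int.gcd (pt2 e f i j).1 (pt2 e f i j).2 ≤ t0 then
          tz c1 (B * w1) (pt2 e f i j).1 * tz c2 w2 (pt2 e f i j).2 else 0) := by
    rw [← hsum (fun n => if Int.gcd n.1 n.2 ≤ t0 then tz c1 (B * w1) n.1 * tz c2 w2 n.2 else 0)]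
    refine sum_congr rfl fun n1 _ => sum_congr rfl fun n2 _ => ?_
    simp only [Int.gcd_natCast_natCast, Lfi_tz]
    by_cases p1 : (B : ℤ) ∣ (n1 : ℤ) - l * n2
    · by_cases p2 : Nat.gcd n1 n2 ≤ t0
      · rw [if_pos ⟨p1, p2⟩, if_pos p1, if_pos p2]
      · rw [if_neg (fun h => p2 h.2), if_pos p1, if_neg p2]
    · rw [if_neg (fun h => p1 h.1), if_neg p1]
  rw [key, ← sum_filter_add_sum_filter_not _ (fun j => j ≠ 0)]
  have hne : (Icc (-(JJ B N e)) (JJ B N e)).filter (fun j => ¬ j ≠ 0) = {0} := by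
    ext j
    rw [mem_filter, mem_singleton, mem_Icc]
    constructor
    · exact fun h => not_not.1 h.2
    · rintro rfl
      exact ⟨⟨by omega, hJ0⟩, fun h => h rfl⟩
  rw [hne, sum_singleton]
  -- the line 0
  have hzero : ‖∑ i ∈ Ioc (a 0) (b 0), (if Int.gcd (pt2 e f i 0).1 (pt2 e f i 0).2 ≤ t0 then
      tz c1 (B * w1) (pt2 e f i 0).1 * tz c2 w2 (pt2 e f i 0).2 else 0)‖ ≤ (t0 : ℝ) := by
    rw [← sum_filter]
    refine (norm_sum_le _ _).trans ?_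
    refine (sum_le_card_nsmul _ _ 1 fun i _ => Lfi_prod _ _ _ _ _ _).trans ?_
    rw [nsmul_eq_mul, mul_one]
    exact_mod_cast hz1
  -- one line
  have hline : ∀ j : ℤ, ‖∑ i ∈ Ioc (a j) (b j), (if Int.gcd (pt2 e f i j).1 (pt2 e f i j).2 ≤ t0 then
      tz c1 (B * w1) (pt2 e f i j).1 * tz c2 w2 (pt2 e f i j).2 else 0)‖ ≤ C1 * T ^ A1 * L * Δ +
      ((#((Ioc (a j) (b j)).filter (fun i => Int.gcd (pt2 e f i j).1 B = 1 ∧
        t0 < Int.gcd (pt2 e f i j).1 (pt2 e f i j).2)) : ℕ) : ℝ) := by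
    intro j
    refine Lfi_line (fun i => tz c1 (B * w1) (pt2 e f i j).1 * tz c2 w2 (pt2 e f i j).2)
      (fun i => Int.gcd (pt2 e f i j).1 (pt2 e f i j).2) (fun i => Int.gcd (pt2 e f i j).1 B = 1) (Ioc (a j) (b j)) t0
      (C1 * T ^ A1 * L * Δ) (fun i => Lfi_prod _ _ _ _ _ _) (fun i _ hi => Lfi_zero hB1w (left_ne_zero_of_mul hi)) ?_
    exact hL X T L Z y Δ B w1 w2 M0 c1 c2 (j * f.1) (j * f.2) e.1 e.2 (a j) (b j) hTau hZ hy hΔ hZΔ hs1 hs2 hsm hM0B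
      hZM0 hM0Z (fun p hp hpd => ⟨(hgo p hp ((hpd.trans hM0d).trans hG'd)).1, (hgo p hp ((hpd.trans hM0d).trans hG'd)).2,
        hG'p p hp (hpd.trans hM0d)⟩)
      (le_trans (by exact_mod_cast Nat.le_of_dvd hB hM0B) hBX) hZyL
      (hk.trans (pow_le_pow_left₀ (by positivity) (by
        rw [div_le_div_iff₀ (by positivity) hZy0]
        exact mul_le_mul hWL hCZy hZy0.le (by linarith)) k))
      ((hab j).2.trans hLn)
  have hrest : ‖∑ j ∈ (Icc (-(JJ B N e)) (JJ B N e)).filter (fun j => j ≠ 0), ∑ i ∈ Ioc (a j) (b j),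
      (if Int.gcd (pt2 e f i j).1 (pt2 e f i j).2 ≤ t0 then
          tz c1 (B * w1) (pt2 e f i j).1 * tz c2 w2 (pt2 e f i j).2 else 0)‖ ≤
      2 * ((JJ B N e : ℤ) : ℝ) * (C1 * T ^ A1 * L * Δ) +
      ∑ j ∈ (Icc (-(JJ B N e)) (JJ B N e)).filter (fun j => j ≠ 0), ((#((Ioc (a j) (b j)).filter (fun i =>
        Int.gcd (pt2 e f i j).1 B = 1 ∧ t0 < Int.gcd (pt2 e f i j).1 (pt2 e f i j).2)) : ℕ) : ℝ) := by
    refine (norm_sum_le _ _).trans ((sum_le_sum fun j _ => hline j).trans (le_of_eq ?_))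
    rw [sum_add_distrib, sum_const, nsmul_eq_mul, Lfi_card hJ0]
  refine Lfi_num (n := (nm e : ℝ)) hC1 hT (by linarith) (by linarith) hn0 hW0 hΔ (by linarith) hnW hJr hbad ?_
  refine (norm_add_le _ _).trans ?_
  rw [add_comm]
  exact add_le_add hzero hrest

end Pool.Agent.Lib.SLG
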