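import Pool.Agent.Lib.SLG.SpecL

/-!
Module Lin: the sum over the lattice points of the box by lines (helper85).
-/

set_option autoImplicit false

namespace Pool.Agent.Lib.SLG

open Finset Pool.Agent.Lib.EH3 Pool.Agent.Lib.TB Pool.Agent.Results.MP_00e23e_nt Pool.Agent.Lib.MI

private theorem Lin_lt (u c N i1 i i2 : ℤ) (h1 : i1 ≤ i) (h2 : i ≤ i2) (h3 : N < u + i1 * c)
    (h4 : N < u + i2 * c) : N < u + i * c := by
  rcases le_total 0 c with hc | hc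
  · have := mul_le_mul_of_nonneg_right h1 hc
    linarith
  · have := mul_le_mul_of_nonpos_right h2 hc
    linarith

private theorem Lin_le (u c N i1 i i2 : ℤ) (h1 : i1 ≤ i) (h2 : i ≤ i2) (h3 : u + i1 * c ≤ N)
    (h4 : u + i2 * c ≤ N) : u + i * c ≤ N := by
  rcases le_total 0 c with hc | hc
  · have := mul_le_mul_of_nonneg_right h2 hc
    linarith
  · have := mul_le_mul_of_nonpos_right h1 hc
    linarith

private theorem Lin_cvx (e f : ℤ × ℤ) (N : ℕ) (j i1 i i2 : ℤ) (h1 : i1 ≤ i) (h2 : i ≤ i2)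
    (h3 : bx N (pt2 e f i1 j)) (h4 : bx N (pt2 e f i2 j)) : bx N (pt2 e f i j) :=
  ⟨⟨Lin_lt _ _ _ _ _ _ h1 h2 h3.1.1 h4.1.1, Lin_le _ _ _ _ _ _ h1 h2 h3.1.2 h4.1.2⟩,
    ⟨Lin_lt _ _ _ _ _ _ h1 h2 h3.2.1 h4.2.1, Lin_le _ _ _ _ _ _ h1 h2 h3.2.2 h4.2.2⟩⟩

private theorem Lin_dif (e f : ℤ × ℤ) (N : ℕ) (j i i' : ℤ) (h : bx N (pt2 e f i j))
    (h' : bx N (pt2 e f i' j)) : |i' - i| * nm e ≤ N := by
  obtain ⟨⟨a1, a2⟩, a3, a4⟩ := h
  obtain ⟨⟨b1, b2⟩, b3, b4⟩ := h'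
  simp only [pt2] at a1 a2 a3 a4 b1 b2 b3 b4
  have k1 : |i' - i| * |e.1| ≤ N := by
    rw [← abs_mul, abs_le]
    constructor
    · linarith
    · linarith
  have k2 : |i' - i| * |e.2| ≤ N := by
    rw [← abs_mul, abs_le]
    constructor
    · linarith
    · linarith
  unfold nm
  rcases max_choice |e.1| |e.2| with hm | hm
  · rw [hm]
    exact k1
  · rw [hm]
    exact k2

private theorem Lin_ex (e f : ℤ × ℤ) (N : ℕ) (he : 1 ≤ nm e) (j : ℤ) :
    ∃ a b : ℤ, (a ≤ b ∧ ((b - a : ℤ) : ℝ) ≤ (N : ℝ) / (nm e : ℝ) + 1) ∧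
      ∀ i : ℤ, i ∈ Ioc a b ↔ bx N (pt2 e f i j) := by
  classical
  have heR : (0 : ℝ) < (nm e : ℝ) := by
    have : (1 : ℝ) ≤ (nm e : ℝ) := by exact_mod_cast he
    linarith
  by_cases h : ∃ i0, bx N (pt2 e f i0 j)
  · obtain ⟨i0, h0⟩ := h
    obtain ⟨S, hS⟩ : ∃ S : Finset ℤ,
        S = (Icc (i0 - N) (i0 + N)).filter fun i => bx N (pt2 e f i j) := ⟨_, rfl⟩
    have hmem : ∀ i, bx N (pt2 e f i j) → i ∈ S := by
      intro i hi
      rw [hS, mem_filter, mem_Icc]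
      refine ⟨?_, hi⟩
      have h1 := Lin_dif e f N j i0 i h0 hi
      have h2 : |i - i0| ≤ |i - i0| * nm e := le_mul_of_one_le_right (abs_nonneg _) he
      have h3 := abs_le.1 (h2.trans h1)
      constructor
      · linarith
      · linarith
    have hprop : ∀ i ∈ S, bx N (pt2 e f i j) := by
      intro i hi
      rw [hS, mem_filter] at hi
      exact hi.2
    have hne : S.Nonempty := ⟨i0, hmem i0 h0⟩
    have hmin := hprop _ (S.min'_mem hne)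
    have hmax := hprop _ (S.max'_mem hne)
    have hmm : S.min' hne ≤ S.max' hne := S.min'_le _ (S.max'_mem hne)
    refine ⟨S.min' hne - 1, S.max' hne, ⟨by linarith, ?_⟩, fun i => ?_⟩
    · have h1 := Lin_dif e f N j _ _ hmin hmax
      rw [abs_of_nonneg (by linarith)] at h1
      have h2 : ((S.max' hne - S.min' hne : ℤ) : ℝ) * (nm e : ℝ) ≤ (N : ℝ) := by
        exact_mod_cast h1
      have h3 : ((S.max' hne - S.min' hne : ℤ) : ℝ) ≤ (N : ℝ) / (nm e : ℝ) := by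
        rwa [le_div_iff₀ heR]
      push_cast at h3 ⊢
      linarith
    · rw [mem_Ioc]
      constructor
      · rintro ⟨k1, k2⟩
        exact Lin_cvx e f N j _ i _ (by linarith) k2 hmin hmax
      · intro hi
        have k1 := S.min'_le _ (hmem i hi)
        have k2 := S.le_max' _ (hmem i hi)
        exact ⟨by linarith, k2⟩
  · refine ⟨0, 0, ⟨le_rfl, ?_⟩, fun i => ?_⟩
    · have : (0 : ℝ) ≤ (N : ℝ) / (nm e : ℝ) := div_nonneg (Nat.cast_nonneg _) heR.le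
      simp only [sub_self, Int.cast_zero]
      linarith
    · rw [mem_Ioc]
      constructor
      · rintro ⟨k1, k2⟩
        linarith
      · intro hi
        exact absurd ⟨i, hi⟩ h

private theorem Lin_J (B N : ℕ) (l : ℤ) (e f : ℤ × ℤ) (hB : 1 ≤ B) (hb : Bs B l e f) (i j : ℤ)
    (hdt : dt e (pt2 e f i j) = j * dt e f) (h : bx N (pt2 e f i j)) :
    j ∈ Icc (-(JJ B N e)) (JJ B N e) := by
  obtain ⟨⟨a1, a2⟩, a3, a4⟩ := h
  have hN : (0 : ℤ) ≤ N := Int.natCast_nonneg N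
  have hBp : (0 : ℤ) < B := by exact_mod_cast hB
  have e1 : |e.1| ≤ nm e := le_max_left _ _
  have e2 : |e.2| ≤ nm e := le_max_right _ _
  have e0 : 0 ≤ nm e := (abs_nonneg _).trans e1
  have h1 : |j| * B ≤ 4 * (N : ℤ) * nm e := by
    have h2 : |j| * B = |dt e (pt2 e f i j)| := by
      rw [hdt, abs_mul, hb.2.2]
    rw [h2]
    unfold dt
    have h3 : |e.1 * (pt2 e f i j).2| ≤ nm e * (2 * N) := by
      rw [abs_mul]
      refine mul_le_mul e1 ?_ (abs_nonneg _) e0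
      rw [abs_of_nonneg (by linarith)]
      exact a4
    have h4 : |e.2 * (pt2 e f i j).1| ≤ nm e * (2 * N) := by
      rw [abs_mul]
      refine mul_le_mul e2 ?_ (abs_nonneg _) e0
      rw [abs_of_nonneg (by linarith)]
      exact a2
    have h5 := abs_sub (e.1 * (pt2 e f i j).2) (e.2 * (pt2 e f i j).1)
    linarith
  have h2 : |j| ≤ JJ B N e := by
    unfold JJ
    rwa [Int.le_ediv_iff_mul_le hBp]
  rw [mem_Icc]
  exact abs_le.1 h2

/-- Module Lin. -/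
theorem tLin (h1 : LbsStmt) : LinStmt := by
  intro B l e f N hB hN hb
  obtain ⟨he, honto, hlat, hdt, -, hinj, -⟩ := h1 B l e f hB hb
  choose a b hab hP using fun j => Lin_ex e f N he j
  refine ⟨a, b, hab, hP, fun F => ?_⟩
  have hN0 : (0 : ℤ) < N := by exact_mod_cast hN
  rw [← Finset.sum_product' (Ioc N (2 * N)) (Ioc N (2 * N))
    (fun n1 n2 => if (B : ℤ) ∣ (n1 : ℤ) - l * n2 then F ((n1 : ℤ), (n2 : ℤ)) else 0),
    ← Finset.sum_filter, Finset.sum_sigma']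
  symm
  refine Finset.sum_bij (fun q _ => ((pt2 e f q.2 q.1).1.toNat, (pt2 e f q.2 q.1).2.toNat))
    ?_ ?_ ?_ ?_
  · intro q hq
    rw [mem_sigma] at hq
    obtain ⟨⟨a1, a2⟩, a3, a4⟩ := (hP q.1 q.2).1 hq.2
    have t1 : (((pt2 e f q.2 q.1).1.toNat : ℕ) : ℤ) = (pt2 e f q.2 q.1).1 :=
      Int.toNat_of_nonneg (by linarith)
    have t2 : (((pt2 e f q.2 q.1).2.toNat : ℕ) : ℤ) = (pt2 e f q.2 q.1).2 :=
      Int.toNat_of_nonneg (by linarith)
    rw [mem_filter, mem_product, mem_Ioc, mem_Ioc]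
    refine ⟨⟨⟨?_, ?_⟩, ?_, ?_⟩, ?_⟩
    · show N < (pt2 e f q.2 q.1).1.toNat
      omega
    · show (pt2 e f q.2 q.1).1.toNat ≤ 2 * N
      omega
    · show N < (pt2 e f q.2 q.1).2.toNat
      omega
    · show (pt2 e f q.2 q.1).2.toNat ≤ 2 * N
      omega
    · show (B : ℤ) ∣ (((pt2 e f q.2 q.1).1.toNat : ℕ) : ℤ) -
        l * (((pt2 e f q.2 q.1).2.toNat : ℕ) : ℤ)
      rw [t1, t2]
      exact hlat _ _
  · intro q hq q' hq' hqq
    rw [mem_sigma] at hq hq'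
    obtain ⟨⟨a1, a2⟩, a3, a4⟩ := (hP q.1 q.2).1 hq.2
    obtain ⟨⟨b1, b2⟩, b3, b4⟩ := (hP q'.1 q'.2).1 hq'.2
    have t1 := congrArg Prod.fst hqq
    have t2 := congrArg Prod.snd hqq
    simp only [] at t1 t2
    have t3 : pt2 e f q.2 q.1 = pt2 e f q'.2 q'.1 := by
      refine Prod.ext ?_ ?_
      · omega
      · omega
    obtain ⟨t4, t5⟩ := hinj _ _ _ _ t3
    obtain ⟨q1, q2⟩ := q
    obtain ⟨q1', q2'⟩ := q'
    simp only at t4 t5
    rw [t4, t5]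
  · intro p hp
    rw [mem_filter, mem_product, mem_Ioc, mem_Ioc] at hp
    obtain ⟨⟨⟨a1, a2⟩, a3, a4⟩, hd⟩ := hp
    obtain ⟨i, j, hij⟩ := honto ((p.1 : ℤ), (p.2 : ℤ)) hd
    have hbx : bx N (pt2 e f i j) := by
      rw [← hij]
      refine ⟨⟨?_, ?_⟩, ?_, ?_⟩
      · show (N : ℤ) < (p.1 : ℤ)
        exact_mod_cast a1
      · show (p.1 : ℤ) ≤ 2 * (N : ℤ)
        exact_mod_cast a2
      · show (N : ℤ) < (p.2 : ℤ)
        exact_mod_cast a3
      · show (p.2 : ℤ) ≤ 2 * (N : ℤ)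
        exact_mod_cast a4
    refine ⟨⟨j, i⟩, ?_, ?_⟩
    · rw [mem_sigma]
      exact ⟨Lin_J B N l e f hB hb i j (hdt i j) hbx, (hP j i).2 hbx⟩
    · show ((pt2 e f i j).1.toNat, (pt2 e f i j).2.toNat) = p
      rw [← hij]
      refine Prod.ext ?_ ?_
      · exact Int.toNat_natCast _
      · exact Int.toNat_natCast _
  · intro q hq
    rw [mem_sigma] at hq
    obtain ⟨⟨a1, a2⟩, a3, a4⟩ := (hP q.1 q.2).1 hq.2
    have t1 : (((pt2 e f q.2 q.1).1.toNat : ℕ) : ℤ) = (pt2 e f q.2 q.1).1 :=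
      Int.toNat_of_nonneg (by linarith)
    have t2 : (((pt2 e f q.2 q.1).2.toNat : ℕ) : ℤ) = (pt2 e f q.2 q.1).2 :=
      Int.toNat_of_nonneg (by linarith)
    show F (pt2 e f q.2 q.1) = F ((((pt2 e f q.2 q.1).1.toNat : ℕ) : ℤ),
      (((pt2 e f q.2 q.1).2.toNat : ℕ) : ℤ))
    rw [t1, t2]

end Pool.Agent.Lib.SLG
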