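import Pool.Agent.Lib.SLG.SpecL

set_option autoImplicit false

namespace Pool.Agent.Lib.SLG

open Finset Pool.Agent.Lib.EH3 Pool.Agent.Lib.TB Pool.Agent.Results.MP_00e23e_nt Pool.Agent.Lib.MI

/-- Choice of M0: the least divisor which is at least Z. -/
theorem tLmz : LmzStmt := by
  classical
  intro Z y G hZ hy hG hp
  have hex : ∃ m : ℕ, m ∣ G ∧ Z ≤ (m : ℝ) := ⟨G, dvd_rfl, hG⟩
  have h1 : Nat.find hex ∣ G ∧ Z ≤ (Nat.find hex : ℝ) := Nat.find_spec hex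
  have h2 : ∀ m : ℕ, m < Nat.find hex → ¬ (m ∣ G ∧ Z ≤ (m : ℝ)) := fun m hm => Nat.find_min hex hm
  generalize Nat.find hex = M0 at h1 h2
  refine ⟨M0, h1.1, h1.2, ?_⟩
  have hM1 : (1 : ℝ) ≤ (M0 : ℝ) := hZ.trans h1.2
  have hM1' : 1 ≤ M0 := by exact_mod_cast hM1
  rcases hM1'.eq_or_lt with h3 | h3
  · rw [← h3, Nat.cast_one]
    nlinarith
  · obtain ⟨p, hpp, hpd⟩ := Nat.exists_prime_and_dvd (Nat.ne_of_gt h3)
    obtain ⟨c, hc⟩ := hpd
    have hp1 : (1 : ℝ) < (p : ℝ) := by exact_mod_cast hpp.one_lt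
    have hc0 : 0 < c := by
      rcases Nat.eq_zero_or_pos c with h4 | h4
      · rw [h4, Nat.mul_zero] at hc
        omega
      · exact h4
    have hclt : c < M0 := by
      rw [hc]
      exact lt_mul_of_one_lt_left hc0 hpp.one_lt
    have hcG : c ∣ G := (Dvd.intro_left p hc.symm).trans h1.1
    have h4 : (c : ℝ) < Z := by
      by_contra h5
      exact h2 c hclt ⟨hcG, not_lt.1 h5⟩
    have h5 : (p : ℝ) ≤ y := hp p hpp ((Dvd.intro c hc.symm).trans h1.1)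
    have h6 : (M0 : ℝ) = (p : ℝ) * (c : ℝ) := by
      rw [hc]
      push_cast
      ring
    rw [h6]
    calc (p : ℝ) * (c : ℝ) ≤ y * Z := mul_le_mul h5 h4.le (Nat.cast_nonneg c) (by linarith)
      _ = Z * y := mul_comm y Z

end Pool.Agent.Lib.SLG
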