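import Pool.Agent.Lib.SLG.SpecL

/-!
Module Lrb of the lattice chapter of project SL (helper97): the lattice B ∣ n1 - l n2 has a basis e, f with nm e ≤ nm f and
nm e nm f ≤ 2B.

Proof. Q e = e.1^2 + e.2^2. Among the pairs (e, f) with Bs B l e f (the pair (B, 0), (l, 1) is one) choose one with Q e + Q f
minimal; we may assume Q e ≤ Q f. The pairs (e, f + e), (e, f - e) are bases too, so 2|⟨e, f⟩| ≤ Q e and
Q e Q f = ⟨e, f⟩^2 + dt^2 ≤ Q e Q f/4 + B^2, 3 Q e Q f ≤ 4 B^2. (nm e)^2 ≤ Q e gives (nm e nm f)^2 ≤ 4 B^2.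
-/

set_option autoImplicit false

namespace Pool.Agent.Lib.SLG

open Finset Pool.Agent.Lib.EH3 Pool.Agent.Lib.TB Pool.Agent.Results.MP_00e23e_nt Pool.Agent.Lib.MI

private def Lrb_Q (e : ℤ × ℤ) : ℤ := e.1 ^ 2 + e.2 ^ 2

private lemma Lrb_Q_nonneg (e : ℤ × ℤ) : 0 ≤ Lrb_Q e := by
  unfold Lrb_Q; positivity

private lemma Lrb_nm_sq (e : ℤ × ℤ) : nm e ^ 2 ≤ Lrb_Q e := by
  unfold nm Lrb_Q
  rcases le_total |e.1| |e.2| with h | h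
  · rw [max_eq_right h, sq_abs]; nlinarith [sq_nonneg e.1]
  · rw [max_eq_left h, sq_abs]; nlinarith [sq_nonneg e.2]

private lemma Lrb_nm_nonneg (e : ℤ × ℤ) : 0 ≤ nm e := le_trans (abs_nonneg e.1) (le_max_left _ _)

private lemma Lrb_swap (B : ℕ) (l : ℤ) (e f : ℤ × ℤ) (h : Bs B l e f) : Bs B l f e := by
  obtain ⟨h1, h2, h3⟩ := h
  refine ⟨h2, h1, ?_⟩
  rw [← h3, show dt f e = -dt e f by unfold dt; ring, abs_neg]

private lemma Lrb_shear (B : ℕ) (l s : ℤ) (e f : ℤ × ℤ) (h : Bs B l e f) :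
    Bs B l e (f.1 + s * e.1, f.2 + s * e.2) := by
  obtain ⟨h1, h2, h3⟩ := h
  refine ⟨h1, ?_, ?_⟩
  · have h4 := dvd_add h2 (Dvd.dvd.mul_left h1 s)
    have h5 : (f.1 + s * e.1) - l * (f.2 + s * e.2) = (f.1 - l * f.2) + s * (e.1 - l * e.2) := by ring
    simpa only [h5] using h4
  · rw [← h3]
    congr 1
    unfold dt
    ring

private lemma Lrb_min (B : ℕ) (l : ℤ) : ∃ e f : ℤ × ℤ, Bs B l e f ∧ Lrb_Q e ≤ Lrb_Q f ∧
    ∀ e' f' : ℤ × ℤ, Bs B l e' f' → Lrb_Q e + Lrb_Q f ≤ Lrb_Q e' + Lrb_Q f' := by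
  classical
  have hex : ∃ n : ℕ, ∃ e f : ℤ × ℤ, Bs B l e f ∧ Lrb_Q e + Lrb_Q f = (n : ℤ) := by
    refine ⟨(Lrb_Q ((B : ℤ), 0) + Lrb_Q (l, 1)).toNat, ((B : ℤ), 0), (l, 1), ⟨?_, ?_, ?_⟩, ?_⟩
    · simp
    · simp
    · unfold dt; simp
    · rw [Int.toNat_of_nonneg]
      exact add_nonneg (Lrb_Q_nonneg _) (Lrb_Q_nonneg _)
  obtain ⟨e, f, hb, hq⟩ := Nat.find_spec hex
  have hmin : ∀ e' f' : ℤ × ℤ, Bs B l e' f' → Lrb_Q e + Lrb_Q f ≤ Lrb_Q e' + Lrb_Q f' := by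
    intro e' f' hb'
    by_contra hlt
    push Not at hlt
    have h0 : 0 ≤ Lrb_Q e' + Lrb_Q f' := add_nonneg (Lrb_Q_nonneg _) (Lrb_Q_nonneg _)
    have h1 : (Lrb_Q e' + Lrb_Q f').toNat < Nat.find hex := by
      have h2 : (((Lrb_Q e' + Lrb_Q f').toNat : ℕ) : ℤ) = Lrb_Q e' + Lrb_Q f' := Int.toNat_of_nonneg h0
      have h3 : (((Lrb_Q e' + Lrb_Q f').toNat : ℕ) : ℤ) < ((Nat.find hex : ℕ) : ℤ) := by
        rw [h2, ← hq]; exact hlt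
      exact_mod_cast h3
    exact Nat.find_min hex h1 ⟨e', f', hb', (Int.toNat_of_nonneg h0).symm⟩
  rcases le_total (Lrb_Q e) (Lrb_Q f) with h | h
  · exact ⟨e, f, hb, h, hmin⟩
  · refine ⟨f, e, Lrb_swap B l e f hb, h, ?_⟩
    intro e' f' hb'
    rw [add_comm]
    exact hmin e' f' hb'

private lemma Lrb_prod (B : ℕ) (l : ℤ) (e f : ℤ × ℤ) (hb : Bs B l e f) (hle : Lrb_Q e ≤ Lrb_Q f)
    (hmin : ∀ e' f' : ℤ × ℤ, Bs B l e' f' → Lrb_Q e + Lrb_Q f ≤ Lrb_Q e' + Lrb_Q f') :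
    nm e * nm f ≤ 2 * (B : ℤ) := by
  have h1 := hmin e _ (Lrb_shear B l 1 e f hb)
  have h2 := hmin e _ (Lrb_shear B l (-1) e f hb)
  set z : ℤ := e.1 * f.1 + e.2 * f.2 with hz
  have h1' : 0 ≤ 2 * z + Lrb_Q e := by
    have : Lrb_Q (f.1 + 1 * e.1, f.2 + 1 * e.2) = Lrb_Q f + 2 * z + Lrb_Q e := by
      rw [hz]; unfold Lrb_Q; ring
    linarith
  have h2' : 0 ≤ -(2 * z) + Lrb_Q e := by
    have : Lrb_Q (f.1 + (-1) * e.1, f.2 + (-1) * e.2) = Lrb_Q f - 2 * z + Lrb_Q e := by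
      rw [hz]; unfold Lrb_Q; ring
    linarith
  have hz4 : 4 * z ^ 2 ≤ Lrb_Q e ^ 2 := by nlinarith
  have hid : Lrb_Q e * Lrb_Q f = z ^ 2 + dt e f ^ 2 := by
    rw [hz]; unfold Lrb_Q dt; ring
  have hB : dt e f ^ 2 = (B : ℤ) ^ 2 := by
    rw [← sq_abs, hb.2.2]
  have hQe : 0 ≤ Lrb_Q e := Lrb_Q_nonneg e
  have hQQ : Lrb_Q e ^ 2 ≤ Lrb_Q e * Lrb_Q f := by
    rw [sq]; exact mul_le_mul_of_nonneg_left hle hQe
  have h3 : 3 * (Lrb_Q e * Lrb_Q f) ≤ 4 * (B : ℤ) ^ 2 := by linarith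
  have h4 : nm e ^ 2 * nm f ^ 2 ≤ Lrb_Q e * Lrb_Q f :=
    mul_le_mul (Lrb_nm_sq e) (Lrb_nm_sq f) (sq_nonneg _) hQe
  have h5 : 0 ≤ Lrb_Q e * Lrb_Q f := mul_nonneg hQe (Lrb_Q_nonneg f)
  have h6 : (nm e * nm f) ^ 2 ≤ (2 * (B : ℤ)) ^ 2 := by
    have : (nm e * nm f) ^ 2 = nm e ^ 2 * nm f ^ 2 := by ring
    rw [this]
    nlinarith
  exact le_of_sq_le_sq h6 (by positivity)

private lemma Lrb_pos (B : ℕ) (l : ℤ) (e f : ℤ × ℤ) (hB : 1 ≤ B) (hb : Bs B l e f) : 1 ≤ nm e := by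
  by_contra h
  push Not at h
  have h0 : nm e = 0 := le_antisymm (by omega) (Lrb_nm_nonneg e)
  have h1 : |e.1| ≤ 0 := by rw [← h0]; exact le_max_left _ _
  have h2 : |e.2| ≤ 0 := by rw [← h0]; exact le_max_right _ _
  have h3 : e.1 = 0 := abs_eq_zero.mp (le_antisymm h1 (abs_nonneg _))
  have h4 : e.2 = 0 := abs_eq_zero.mp (le_antisymm h2 (abs_nonneg _))
  have h5 := hb.2.2
  unfold dt at h5
  rw [h3, h4] at h5
  simp at h5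
  omega

theorem tLrb : LrbStmt := by
  intro B l hB
  obtain ⟨e, f, hb, hle, hmin⟩ := Lrb_min B l
  have hp := Lrb_prod B l e f hb hle hmin
  rcases le_total (nm e) (nm f) with h | h
  · exact ⟨e, f, hb, Lrb_pos B l e f hB hb, h, hp⟩
  · exact ⟨f, e, Lrb_swap B l e f hb, Lrb_pos B l f e hB (Lrb_swap B l e f hb), h, by rw [mul_comm]; exact hp⟩

end Pool.Agent.Lib.SLG
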