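import Pool.Agent.Lib.SLG.SpecL

/-!
MP_00e23e_nt, project SL, P2, chapter L, module Ltr: the trivial bound of a sum over the points of a lattice.
-/

set_option autoImplicit false

namespace Pool.Agent.Lib.SLG

open Finset Pool.Agent.Lib.EH3 Pool.Agent.Lib.TB Pool.Agent.Results.MP_00e23e_nt Pool.Agent.Lib.MI

theorem tLtr (h1 : LrbStmt) (h2 : LinStmt) (h3 : LzeStmt) : LtrStmt := by
  classical
  intro B N t0 l Φ hB hN hBN hΦ
  obtain ⟨e, f, hBs, he1, hef, hmul⟩ := h1 B l hB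
  have heN : nm e ≤ (N : ℤ) := by
    have h4 : nm e * nm e ≤ (N : ℤ) * N := by
      have h5 : nm e * nm e ≤ nm e * nm f := mul_le_mul_of_nonneg_left hef (by omega)
      have h6 : (2 : ℤ) * (B : ℤ) ≤ (N : ℤ) * N := by
        have h7 : 2 * B ≤ N * N := by rwa [pow_two] at hBN
        exact_mod_cast h7
      linarith
    by_contra hcon
    push Not at hcon
    have h8 : (N : ℤ) * N < nm e * nm e := by
      have hN0 : (0 : ℤ) ≤ N := Int.natCast_nonneg N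
      nlinarith
    omega
  obtain ⟨a, b, hab, hbx, hsum⟩ := h2 B l e f N hB hN hBs
  obtain ⟨h0, hj⟩ := h3 B e f N t0 a b hB hN he1 hbx
  have hj := hj hab heN
  obtain ⟨F, hF⟩ : ∃ F : ℤ × ℤ → ℂ, ∀ n, F n = if Int.gcd n.1 n.2 ≤ t0 then Φ n.1.toNat n.2.toNat else 0 :=
    ⟨fun n => if Int.gcd n.1 n.2 ≤ t0 then Φ n.1.toNat n.2.toNat else 0, fun _ => rfl⟩
  have hleft : ∑ n1 ∈ Ioc N (2 * N), ∑ n2 ∈ Ioc N (2 * N),
      (if (B : ℤ) ∣ (n1 : ℤ) - l * n2 ∧ Nat.gcd n1 n2 ≤ t0 then Φ n1 n2 else 0) =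
      ∑ n1 ∈ Ioc N (2 * N), ∑ n2 ∈ Ioc N (2 * N),
        (if (B : ℤ) ∣ (n1 : ℤ) - l * n2 then F ((n1 : ℤ), (n2 : ℤ)) else 0) := by
    refine Finset.sum_congr rfl fun n1 _ => Finset.sum_congr rfl fun n2 _ => ?_
    rw [hF]
    simp only [Int.gcd_natCast_natCast, Int.toNat_natCast]
    by_cases h4 : (B : ℤ) ∣ (n1 : ℤ) - l * n2
    · simp only [h4, true_and, if_true]
    · simp only [h4, false_and, if_false]
  rw [hleft, hsum F]
  have hFn : ∀ n, ‖F n‖ ≤ if Int.gcd n.1 n.2 ≤ t0 then (1 : ℝ) else 0 := by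
    intro n
    rw [hF]
    split_ifs
    · exact hΦ _ _
    · rw [norm_zero]
  -- every line
  have hline : ∀ j, ‖∑ i ∈ Ioc (a j) (b j), F (pt2 e f i j)‖ ≤ ((b j - a j : ℤ) : ℝ) := by
    intro j
    refine (norm_sum_le _ _).trans ?_
    have h5 : ∑ i ∈ Ioc (a j) (b j), ‖F (pt2 e f i j)‖ ≤ ∑ i ∈ Ioc (a j) (b j), (1 : ℝ) := by
      refine Finset.sum_le_sum fun i _ => (hFn _).trans ?_
      split_ifs
      · exact le_rfl
      · exact zero_le_one
    refine h5.trans ?_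
    rw [Finset.sum_const, Int.card_Ioc, nsmul_eq_mul, mul_one]
    have h6 : (((b j - a j).toNat : ℕ) : ℤ) = b j - a j := Int.toNat_of_nonneg (by have := (hab j).1; omega)
    exact_mod_cast h6.le
  -- the line 0
  have hline0 : ‖∑ i ∈ Ioc (a 0) (b 0), F (pt2 e f i 0)‖ ≤ (t0 : ℝ) := by
    refine (norm_sum_le _ _).trans ?_
    have h5 : ∑ i ∈ Ioc (a 0) (b 0), ‖F (pt2 e f i 0)‖ ≤
        ∑ i ∈ Ioc (a 0) (b 0), if Int.gcd (pt2 e f i 0).1 (pt2 e f i 0).2 ≤ t0 then (1 : ℝ) else 0 :=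
      Finset.sum_le_sum fun i _ => hFn _
    refine h5.trans ?_
    rw [Finset.sum_boole]
    exact_mod_cast h0
  refine (norm_sum_le _ _).trans ?_
  rw [← Finset.sum_filter_add_sum_filter_not (Icc (-(JJ B N e)) (JJ B N e)) (fun j => j ≠ 0)]
  refine add_le_add ((Finset.sum_le_sum fun j _ => hline j).trans hj) ?_
  have hsub : (Icc (-(JJ B N e)) (JJ B N e)).filter (fun j => ¬ j ≠ 0) ⊆ {0} := by
    intro j hj
    rw [Finset.mem_filter, not_not] at hj
    rw [Finset.mem_singleton]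
    exact hj.2
  refine (Finset.sum_le_sum_of_subset_of_nonneg hsub fun j _ _ => norm_nonneg _).trans ?_
  rw [Finset.sum_singleton]
  exact hline0

end Pool.Agent.Lib.SLG
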