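import Pool.Agent.Lib.SLG.SpecL

/-!
MP_00e23e_nt, project SL, P2, chapter L: the line 0 and the number of the other points (LzeStmt).
-/

set_option autoImplicit false

namespace Pool.Agent.Lib.SLG

open Finset Pool.Agent.Lib.EH3 Pool.Agent.Lib.TB Pool.Agent.Results.MP_00e23e_nt Pool.Agent.Lib.MI

private theorem Lze_pt (e f : ℤ × ℤ) (i : ℤ) : pt2 e f i 0 = (i * e.1, i * e.2) := by
  simp [pt2]

private theorem Lze_J (B N : ℕ) (e : ℤ × ℤ) (hB : 1 ≤ B) (he : 1 ≤ nm e) :
    0 ≤ JJ B N e ∧ ((JJ B N e : ℤ) : ℝ) ≤ 4 * (N : ℝ) * (nm e : ℝ) / (B : ℝ) := by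
  have hB' : (0 : ℤ) < (B : ℤ) := by exact_mod_cast hB
  constructor
  · unfold JJ
    apply Int.ediv_nonneg _ hB'.le
    have : (0 : ℤ) ≤ nm e := by omega
    positivity
  · have h1 : JJ B N e * (B : ℤ) ≤ 4 * (N : ℤ) * nm e := Int.ediv_mul_le _ hB'.ne'
    have h2 : ((JJ B N e : ℤ) : ℝ) * (B : ℝ) ≤ 4 * (N : ℝ) * (nm e : ℝ) := by exact_mod_cast h1
    have hBr : (0 : ℝ) < (B : ℝ) := by exact_mod_cast hB
    rw [le_div_iff₀ hBr]
    exact h2

private theorem Lze_card (J : ℤ) (hJ : 0 ≤ J) :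
    ((#((Icc (-J) J).filter (fun j : ℤ => j ≠ 0)) : ℕ) : ℝ) = 2 * (J : ℝ) := by
  have h1 : (Icc (-J) J).filter (fun j : ℤ => j ≠ 0) = (Icc (-J) J).erase 0 := by
    rw [Finset.filter_ne']
  rw [h1, Finset.card_erase_of_mem (by simp [hJ]), Int.card_Icc]
  have h2 : (((J + 1 - -J).toNat - 1 : ℕ) : ℤ) = 2 * J := by omega
  exact_mod_cast h2

theorem tLze : LzeStmt := by
  intro B e f N t0 a b hB hN he hab
  constructor
  · set S := (Ioc (a 0) (b 0)).filter (fun i => Int.gcd (pt2 e f i 0).1 (pt2 e f i 0).2 ≤ t0) with hS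
    have hmem : ∀ i ∈ S, 0 < i * e.1 ∧ (i.natAbs ≤ t0) := by
      intro i hi
      rw [hS, Finset.mem_filter, hab, Lze_pt] at hi
      obtain ⟨⟨⟨h1, _⟩, _⟩, h3⟩ := hi
      simp only at h1 h3
      have h0 : (0 : ℤ) ≤ (N : ℤ) := by positivity
      have hpos : 0 < i * e.1 := by omega
      refine ⟨hpos, ?_⟩
      rw [Int.gcd_mul_left] at h3
      have he1 : e.1 ≠ 0 := by
        intro h
        rw [h] at hpos
        simp at hpos
      have hg : 1 ≤ Int.gcd e.1 e.2 := by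
        rw [Nat.one_le_iff_ne_zero]
        intro h
        rw [Int.gcd_eq_zero_iff] at h
        exact he1 h.1
      calc i.natAbs = i.natAbs * 1 := by ring
        _ ≤ i.natAbs * Int.gcd e.1 e.2 := Nat.mul_le_mul_left _ hg
        _ ≤ t0 := h3
    rcases lt_trichotomy e.1 0 with hneg | hzero | hpos
    · have hsub : S ⊆ Icc (-(t0 : ℤ)) (-1) := by
        intro i hi
        obtain ⟨h1, h2⟩ := hmem i hi
        have hi0 : i < 0 := by
          by_contra hc
          push Not at hc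
          have := mul_nonpos_of_nonneg_of_nonpos hc hneg.le
          omega
        rw [Finset.mem_Icc]
        omega
      calc #S ≤ #(Icc (-(t0 : ℤ)) (-1)) := Finset.card_le_card hsub
        _ = t0 := by rw [Int.card_Icc]; omega
    · have hem : S = ∅ := by
        rw [Finset.eq_empty_iff_forall_notMem]
        intro i hi
        have := (hmem i hi).1
        rw [hzero] at this
        simp at this
      rw [hem]
      simp
    · have hsub : S ⊆ Icc 1 (t0 : ℤ) := by
        intro i hi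
        obtain ⟨h1, h2⟩ := hmem i hi
        have hi0 : 0 < i := by
          by_contra hc
          push Not at hc
          have := mul_nonpos_of_nonpos_of_nonneg hc hpos.le
          omega
        rw [Finset.mem_Icc]
        omega
      calc #S ≤ #(Icc 1 (t0 : ℤ)) := Finset.card_le_card hsub
        _ = t0 := by rw [Int.card_Icc]; omega
  · intro hlen hnm
    obtain ⟨hJ0, hJ⟩ := Lze_J B N e hB he
    have hBr : (0 : ℝ) < (B : ℝ) := by exact_mod_cast hB
    have hNr : (0 : ℝ) < (N : ℝ) := by exact_mod_cast hN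
    have her : (0 : ℝ) < (nm e : ℝ) := by exact_mod_cast (by omega : 0 < nm e)
    have hnr : (nm e : ℝ) ≤ (N : ℝ) := by exact_mod_cast hnm
    have h1 : ∑ j ∈ (Icc (-(JJ B N e)) (JJ B N e)).filter (fun j => j ≠ 0), ((b j - a j : ℤ) : ℝ) ≤
        #((Icc (-(JJ B N e)) (JJ B N e)).filter (fun j => j ≠ 0)) • ((N : ℝ) / (nm e : ℝ) + 1) :=
      Finset.sum_le_card_nsmul _ _ _ (fun j _ => (hlen j).2)
    rw [nsmul_eq_mul, Lze_card _ hJ0] at h1
    refine h1.trans ?_
    have h2 : (1 : ℝ) ≤ (N : ℝ) / (nm e : ℝ) := by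
      rw [le_div_iff₀ her]
      linarith
    have h3 : (N : ℝ) / (nm e : ℝ) + 1 ≤ 2 * ((N : ℝ) / (nm e : ℝ)) := by linarith
    have h4 : (0 : ℝ) ≤ ((JJ B N e : ℤ) : ℝ) := by exact_mod_cast hJ0
    calc 2 * ((JJ B N e : ℤ) : ℝ) * ((N : ℝ) / (nm e : ℝ) + 1)
        ≤ 2 * (4 * (N : ℝ) * (nm e : ℝ) / (B : ℝ)) * (2 * ((N : ℝ) / (nm e : ℝ))) := by
          apply mul_le_mul _ h3 (by positivity) (by positivity)
          linarith
      _ = 16 * (N : ℝ) ^ 2 / (B : ℝ) := by
          field_simp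
          ring

end Pool.Agent.Lib.SLG
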