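import Pool.Agent.Lib.SLG.Gba
import Pool.Agent.Lib.SLG.Gcr
import Pool.Agent.Lib.SLG.Ggc
import Pool.Agent.Lib.SLG.Gks
import Pool.Agent.Lib.SLG.Gli
import Pool.Agent.Lib.SLG.Gr
import Pool.Agent.Lib.SLG.Gsh
import Pool.Agent.Lib.SLG.Gsp
import Pool.Agent.Lib.SLG.Gvd
import Pool.Agent.Lib.SLG.Gwe
import Pool.Agent.Lib.SLG.Lal
import Pool.Agent.Lib.SLG.Lbs
import Pool.Agent.Lib.SLG.Lfi
import Pool.Agent.Lib.SLG.Lgd
import Pool.Agent.Lib.SLG.Lin
import Pool.Agent.Lib.SLG.Lli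
import Pool.Agent.Lib.SLG.Lmz
import Pool.Agent.Lib.SLG.Lrb
import Pool.Agent.Lib.SLG.Ltr
import Pool.Agent.Lib.SLG.Lze
import Pool.Agent.Lib.SL.Ecm
import Pool.Agent.Lib.SL.Ecr
import Pool.Agent.Lib.SL.VPha
import Pool.Agent.Lib.MI.Bgr

/-!
MP_00e23e_nt, projects SL P2 and NL, chapters G and L (helper78, helper28): the final statements without hypotheses.
-/

set_option autoImplicit false

namespace Pool.Agent.Lib.SLG

open Pool.Agent.Lib

theorem aGba : GbaStmt := tGba tGwe (tGcr SL.tEcr) SL.tEcm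

theorem aGr : GrStmt := tGr aGba tGsh tGvd tGgc

theorem aGsp : GspStmt := tGsp SL.tVPha

theorem aGli : GliStmt := tGli aGr aGsp SL.tVPha

theorem aGks : GksStmt := tGks MI.tBgr

theorem aLin : LinStmt := tLin tLbs

theorem aLgd : LgdStmt := tLgd tLbs

theorem aLal : LalStmt := tLal tLrb tLbs

theorem aLli : LliStmt := tLli aGli aGks

/-- the trivial bound (final statement) -/
theorem aLtr : LtrStmt := tLtr tLrb aLin tLze

/-- the lattice theorem with one type of good primes (final statement) -/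
theorem aLfi : LfiStmt := tLfi tLbs aLin aLgd tLze aLal tLmz aLli

end Pool.Agent.Lib.SLG
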