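import Pool.Agent.Lib.SLG.SpecM

/-!
MP_00e23e_nt, project NL, lattice chapter, module LalT (helper85): the two directions, good primes of
three types.
-/

set_option autoImplicit false

namespace Pool.Agent.Lib.SLG

open Finset Pool.Agent.Lib.EH3 Pool.Agent.Lib.TB Pool.Agent.Results.MP_00e23e_nt Pool.Agent.Lib.MI

private lemma LalT_split {G : ℕ} (hG : Squarefree G) (x : ℤ) : ∃ a b : ℕ, a * b = G ∧
    (a : ℤ) ∣ x ∧ ∀ p : ℕ, p.Prime → p ∣ b → ¬ (p : ℤ) ∣ x := by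
  refine ⟨Nat.gcd G x.natAbs, G / Nat.gcd G x.natAbs, Nat.mul_div_cancel' (Nat.gcd_dvd_left _ _),
    Int.natCast_dvd.2 (Nat.gcd_dvd_right _ _), ?_⟩
  intro p hp hpb hpx
  have h1 : p ∣ Nat.gcd G x.natAbs :=
    Nat.dvd_gcd (hpb.trans (Nat.div_dvd_of_dvd (Nat.gcd_dvd_left _ _))) (Int.natCast_dvd.1 hpx)
  have h2 : p * p ∣ G := by
    have h3 : p * p ∣ Nat.gcd G x.natAbs * (G / Nat.gcd G x.natAbs) := mul_dvd_mul h1 hpb
    rwa [Nat.mul_div_cancel' (Nat.gcd_dvd_left _ _)] at h3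
  exact hp.not_isUnit (hG p h2)

private lemma LalT_le {a : ℕ} {x : ℤ} (hx : x ≠ 0) (h : (a : ℤ) ∣ x) : (a : ℤ) ≤ |x| :=
  Int.le_of_dvd (abs_pos.2 hx) ((dvd_abs _ _).2 h)

private lemma LalT_mul {a b : ℕ} {x : ℤ} (hab : a.Coprime b) (ha : (a : ℤ) ∣ x) (hb : (b : ℤ) ∣ x) :
    ((a * b : ℕ) : ℤ) ∣ x :=
  Int.natCast_dvd.2 (hab.mul_dvd_of_dvd_of_dvd (Int.natCast_dvd.1 ha) (Int.natCast_dvd.1 hb))

private lemma LalT_real1 {a b B N W : ℝ} (ha : 1 ≤ a) (hab : a ≤ b) (hm : a * b ≤ 2 * B)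
    (hW : 1 ≤ W) (hN : 0 ≤ N) (h : W ^ 2 * B ≤ N ^ 2) : a * W ≤ 2 * N := by
  have h1 : a * a ≤ 2 * B := (mul_le_mul_of_nonneg_left hab (by linarith)).trans hm
  have h2 : (a * W) ^ 2 ≤ (2 * N) ^ 2 := by
    have h3 : (a * a) * W ^ 2 ≤ 2 * B * W ^ 2 := mul_le_mul_of_nonneg_right h1 (by positivity)
    calc (a * W) ^ 2 = (a * a) * W ^ 2 := by ring
      _ ≤ 2 * B * W ^ 2 := h3
      _ = 2 * (W ^ 2 * B) := by ring
      _ ≤ 2 * N ^ 2 := by linarith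
      _ ≤ (2 * N) ^ 2 := by nlinarith [sq_nonneg N]
  exact (pow_le_pow_iff_left₀ (mul_nonneg (by linarith) (by linarith)) (by linarith)
    (by norm_num)).1 h2

private lemma LalT_real2 {ne nf B N Z W GQ G a1 a2 P1 P2 : ℝ} (hne : 1 ≤ ne) (hnf : 1 ≤ nf)
    (hm : ne * nf ≤ 2 * B) (hZ : 1 ≤ Z) (hW : 1 ≤ W) (hN : 0 ≤ N) (ha : a1 * a2 = GQ)
    (hP : P1 * P2 = G) (ha1 : 0 ≤ a1) (hP1 : 0 ≤ P1) (ha2 : a2 ≤ P2) (ha20 : 0 ≤ a2)
    (hP2 : P2 < Z) (hsq : a1 * P1 ≤ ne ^ 2) (hZG : Z ^ 2 ≤ G)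
    (h : (W * Z * B) ^ 2 ≤ N ^ 2 * GQ * G) : nf * W ≤ 2 * N ∧ Z ≤ P1 := by
  have hZ0 : 0 < Z := by linarith
  refine ⟨?_, ?_⟩
  · have hB : 0 ≤ B := by nlinarith
    have h1 : GQ * G ≤ Z ^ 2 * ne ^ 2 := by
      have h2 : a2 * P2 ≤ Z * Z := mul_le_mul (by linarith) hP2.le (by linarith) hZ0.le
      calc GQ * G = (a1 * P1) * (a2 * P2) := by rw [← ha, ← hP]; ring
        _ ≤ (a1 * P1) * (Z * Z) := mul_le_mul_of_nonneg_left h2 (mul_nonneg ha1 hP1)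
        _ ≤ ne ^ 2 * (Z * Z) := mul_le_mul_of_nonneg_right hsq (mul_nonneg hZ0.le hZ0.le)
        _ = Z ^ 2 * ne ^ 2 := by ring
    have h3 : (W * B) ^ 2 * Z ^ 2 ≤ (N * ne) ^ 2 * Z ^ 2 := by
      calc (W * B) ^ 2 * Z ^ 2 = (W * Z * B) ^ 2 := by ring
        _ ≤ N ^ 2 * GQ * G := h
        _ = N ^ 2 * (GQ * G) := by ring
        _ ≤ N ^ 2 * (Z ^ 2 * ne ^ 2) := mul_le_mul_of_nonneg_left h1 (sq_nonneg N)
        _ = (N * ne) ^ 2 * Z ^ 2 := by ring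
    have h4 : (W * B) ^ 2 ≤ (N * ne) ^ 2 := le_of_mul_le_mul_right h3 (by positivity)
    have h5 : W * B ≤ N * ne :=
      (pow_le_pow_iff_left₀ (mul_nonneg (by linarith) hB) (mul_nonneg hN (by linarith))
        (by norm_num)).1 h4
    have h6 : ne * (nf * W) ≤ ne * (2 * N) := by
      calc ne * (nf * W) = (ne * nf) * W := by ring
        _ ≤ 2 * B * W := mul_le_mul_of_nonneg_right hm (by linarith)
        _ = 2 * (W * B) := by ring
        _ ≤ 2 * (N * ne) := by linarith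
        _ = ne * (2 * N) := by ring
    exact le_of_mul_le_mul_left h6 (by linarith)
  · have h1 : Z * Z ≤ P1 * Z := by
      calc Z * Z = Z ^ 2 := by ring
        _ ≤ P1 * P2 := by rw [hP]; exact hZG
        _ ≤ P1 * Z := mul_le_mul_of_nonneg_left hP2.le hP1
    exact le_of_mul_le_mul_right h1 hZ0

theorem tLalT (h1 : LrbStmt) (h2 : LbsStmt) : LalTStmt := by
  intro W Z B w1 w2 GQ G1 G2 N l hW hZ hB hN hs1 hs2 hl hGQ hG1 hG2 hZG hWB hbig
  have hB1 : 1 ≤ B := by omega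
  obtain ⟨e, f, hbs, he1, hef, hmul⟩ := h1 B l hB1
  obtain ⟨-, -, -, -, -, -, hpr0⟩ := h2 B l e f hB1 hbs
  obtain ⟨hc1, hsB, hsw1⟩ := Nat.squarefree_mul_iff.1 hs1
  obtain ⟨hc2, -, hsw2⟩ := Nat.squarefree_mul_iff.1 hs2
  have hpr := hpr0 hsB hl
  have hN0 : (0 : ℝ) ≤ (N : ℝ) := Nat.cast_nonneg N
  have hf1 : 1 ≤ nm f := he1.trans hef
  have hfB : nm f ≤ 2 * (B : ℤ) := by
    calc nm f = 1 * nm f := (one_mul _).symm
      _ ≤ nm e * nm f := mul_le_mul_of_nonneg_right he1 (by omega)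
      _ ≤ 2 * (B : ℤ) := hmul
  have heB : nm e ≤ 2 * (B : ℤ) := hef.trans hfB
  have ha : (1 : ℝ) ≤ (nm e : ℝ) := by exact_mod_cast he1
  have hf1' : (1 : ℝ) ≤ (nm f : ℝ) := by exact_mod_cast hf1
  have hab : (nm e : ℝ) ≤ (nm f : ℝ) := by exact_mod_cast hef
  have hm : (nm e : ℝ) * (nm f : ℝ) ≤ 2 * (B : ℝ) := by exact_mod_cast hmul
  have hcop : IsCoprime (B : ℤ) l := by
    rw [Int.isCoprime_iff_gcd_eq_one, Int.gcd_comm]
    exact hl
  -- the coordinates of e do not vanish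
  have hbig0 : ¬ (B : ℤ) ≤ nm e := by
    intro h
    have h3 : (B : ℤ) * B ≤ nm e * nm f := mul_le_mul h (h.trans hef) (by omega) (by omega)
    have h4 : (3 : ℤ) ≤ B := by exact_mod_cast hB
    nlinarith
  have hx2 : e.2 ≠ 0 := by
    intro h
    have h3 : e.1 ≠ 0 := by
      intro h3
      unfold nm at he1
      rw [h, h3] at he1
      norm_num at he1
    have h4 : (B : ℤ) ∣ e.1 := by
      have h5 := hbs.1
      rw [h, mul_zero, sub_zero] at h5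
      exact h5
    exact hbig0 ((LalT_le h3 h4).trans (le_max_left _ _))
  have hx1 : e.1 ≠ 0 := by
    intro h
    have h4 : (B : ℤ) ∣ e.2 := by
      have h5 := hbs.1
      rw [h, zero_sub, dvd_neg] at h5
      exact hcop.dvd_of_dvd_mul_left h5
    exact hbig0 ((LalT_le hx2 h4).trans (le_max_right _ _))
  -- the parts
  obtain ⟨a1, a2, haa, had, hap⟩ := LalT_split (hsB.squarefree_of_dvd hGQ) e.1
  obtain ⟨b1, b2, hbb, hbd, hbp⟩ := LalT_split (hsw1.squarefree_of_dvd hG1) e.1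
  obtain ⟨d1, d2, hdd, hdd1, hdp⟩ := LalT_split (hsw2.squarefree_of_dvd hG2) e.2
  have haB : a1 ∣ B := (Dvd.intro _ haa).trans hGQ
  have hbw : b1 ∣ w1 := (Dvd.intro _ hbb).trans hG1
  have hdw : d1 ∣ w2 := (Dvd.intro _ hdd).trans hG2
  have hpos : 0 < GQ ∧ 0 < G1 ∧ 0 < G2 :=
    ⟨Nat.pos_of_ne_zero (hsB.squarefree_of_dvd hGQ).ne_zero,
      Nat.pos_of_ne_zero (hsw1.squarefree_of_dvd hG1).ne_zero,
      Nat.pos_of_ne_zero (hsw2.squarefree_of_dvd hG2).ne_zero⟩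
  have hb2 : 1 ≤ b2 := by
    rcases Nat.eq_zero_or_pos b2 with h | h
    · rw [h, mul_zero] at hbb
      omega
    · exact h
  have hd2 : 1 ≤ d2 := by
    rcases Nat.eq_zero_or_pos d2 with h | h
    · rw [h, mul_zero] at hdd
      omega
    · exact h
  by_cases hc : Z ≤ ((a2 * b2 * d2 : ℕ) : ℝ)
  · refine ⟨e, f, a2 * b2, d2, hbs, ?_, Dvd.intro_left _ hdd, ?_, hdp, ?_, heB, ?_⟩
    · rw [← haa, ← hbb]
      exact mul_dvd_mul (Dvd.intro_left _ rfl) (Dvd.intro_left _ rfl)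
    · intro p hp hpd
      rcases (Nat.Prime.dvd_mul hp).1 hpd with h | h
      · exact hap p hp h
      · exact hbp p hp h
    · exact LalT_real1 ha hab hm hW hN0 hWB
    · push_cast at hc ⊢
      exact hc
  · push Not at hc
    -- divisibility of the coordinates
    have hb : ((a1 * b1 : ℕ) : ℤ) ∣ e.1 :=
      LalT_mul (Nat.Coprime.coprime_dvd_left haB (Nat.Coprime.coprime_dvd_right hbw hc1)) had hbd
    have ha2' : (a1 : ℤ) ∣ e.2 := by
      have h5 : (a1 : ℤ) ∣ e.1 - l * e.2 := (Int.natCast_dvd_natCast.2 haB).trans hbs.1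
      have h6 : (a1 : ℤ) ∣ l * e.2 := by
        have h7 := dvd_sub had h5
        rwa [sub_sub_cancel] at h7
      exact (IsCoprime.of_isCoprime_of_dvd_left hcop
        (Int.natCast_dvd_natCast.2 haB)).dvd_of_dvd_mul_left h6
    have hd : ((a1 * d1 : ℕ) : ℤ) ∣ e.2 :=
      LalT_mul (Nat.Coprime.coprime_dvd_left haB (Nat.Coprime.coprime_dvd_right hdw hc2)) ha2' hdd1
    have hsq : ((a1 : ℝ)) * ((a1 : ℝ) * b1 * d1) ≤ (nm e : ℝ) ^ 2 := by
      have h5 : ((a1 * b1 : ℕ) : ℤ) ≤ nm e := (LalT_le hx1 hb).trans (le_max_left _ _)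
      have h6 : ((a1 * d1 : ℕ) : ℤ) ≤ nm e := (LalT_le hx2 hd).trans (le_max_right _ _)
      have h5' : (a1 : ℝ) * b1 ≤ (nm e : ℝ) := by exact_mod_cast h5
      have h6' : (a1 : ℝ) * d1 ≤ (nm e : ℝ) := by exact_mod_cast h6
      calc ((a1 : ℝ)) * ((a1 : ℝ) * b1 * d1) = ((a1 : ℝ) * b1) * ((a1 : ℝ) * d1) := by ring
        _ ≤ (nm e : ℝ) * (nm e : ℝ) := mul_le_mul h5' h6' (by positivity) (by linarith)
        _ = (nm e : ℝ) ^ 2 := by ring
    have hGQr : (a1 : ℝ) * a2 = (GQ : ℝ) := by exact_mod_cast haa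
    have hG1r : (b1 : ℝ) * b2 = (G1 : ℝ) := by exact_mod_cast hbb
    have hG2r : (d1 : ℝ) * d2 = (G2 : ℝ) := by exact_mod_cast hdd
    have hle : (a2 : ℝ) ≤ (a2 : ℝ) * b2 * d2 := by
      have h5 : a2 * 1 ≤ a2 * (b2 * d2) := Nat.mul_le_mul_left _ (Nat.mul_le_mul hb2 hd2)
      have h6 : ((a2 * 1 : ℕ) : ℝ) ≤ ((a2 * (b2 * d2) : ℕ) : ℝ) := by exact_mod_cast h5
      push_cast at h6
      linarith
    have hc' : (a2 : ℝ) * b2 * d2 < Z := by
      push_cast at hc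
      exact hc
    obtain ⟨k1, k2⟩ := LalT_real2 (P1 := (a1 : ℝ) * b1 * d1) (P2 := (a2 : ℝ) * b2 * d2)
      (G := (GQ : ℝ) * G1 * G2) ha hf1' hm hZ hW hN0 hGQr
      (by rw [← hGQr, ← hG1r, ← hG2r]; ring) (Nat.cast_nonneg _) (by positivity) hle
      (Nat.cast_nonneg _) hc' hsq hZG hbig
    refine ⟨f, e, a1 * b1, d1, ⟨hbs.2.1, hbs.1, ?_⟩, ?_, Dvd.intro _ hdd, ?_, ?_, k1, hfB, ?_⟩
    · rw [← hbs.2.2, ← abs_neg (dt e f)]
      congr 1
      unfold dt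
      ring
    · rw [← haa, ← hbb]
      exact mul_dvd_mul (Dvd.intro _ rfl) (Dvd.intro _ rfl)
    · intro p hp hpd
      rcases (Nat.Prime.dvd_mul hp).1 hpd with h | h
      · exact (hpr p hp (h.trans haB)).2 ((Int.natCast_dvd_natCast.2 h).trans had)
      · intro hf
        have h5 : (p : ℤ) ∣ dt e f := by
          unfold dt
          exact dvd_sub (Dvd.dvd.mul_right ((Int.natCast_dvd_natCast.2 h).trans hbd) _)
            (Dvd.dvd.mul_left hf _)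
        have h6 : p ∣ B := by
          rw [← dvd_abs, hbs.2.2] at h5
          exact Int.natCast_dvd_natCast.1 h5
        exact hp.not_dvd_one (hc1 ▸ Nat.dvd_gcd h6 (h.trans hbw))
    · intro p hp h hf
      have h5 : (p : ℤ) ∣ dt e f := by
        unfold dt
        exact dvd_sub (Dvd.dvd.mul_left hf _)
          (Dvd.dvd.mul_right ((Int.natCast_dvd_natCast.2 h).trans hdd1) _)
      have h6 : p ∣ B := by
        rw [← dvd_abs, hbs.2.2] at h5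
        exact Int.natCast_dvd_natCast.1 h5
      exact hp.not_dvd_one (hc2 ▸ Nat.dvd_gcd h6 (h.trans hdw))
    · push_cast
      exact k2

end Pool.Agent.Lib.SLG
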