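import Pool.Agent.Lib.SLG.SpecM

/-!
MP_00e23e_nt, project NL (all classes), chapter M (helper28), module LfiT: the final statement of the lattice chapter.
-/

set_option autoImplicit false

namespace Pool.Agent.Lib.SLG

open Finset Pool.Agent.Lib.EH3 Pool.Agent.Lib.TB Pool.Agent.Results.MP_00e23e_nt Pool.Agent.Lib.MI

private lemma LfiT_tz (c : ℤ) (q : ℕ) (n : ℕ) : tz c q (n : ℤ) = t1g c q n := by
  unfold tz
  have e1 : (((n : ℤ) % (q : ℤ)).toNat) = n % q := by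
    rw [← Int.natCast_mod]
    exact Int.toNat_natCast _
  rw [e1]
  have e2 : n = n % q + (n / q) * q := by
    have := Nat.mod_add_div n q
    rw [mul_comm] at this
    exact this.symm
  conv_rhs => rw [e2]
  rw [t1_g_add_mul]

private lemma LfiT_norm (c : ℤ) (q : ℕ) (n : ℤ) : ‖tz c q n‖ ≤ 1 := t1_norm_g _ _ _

private lemma LfiT_prod (c1 c2 : ℤ) (q1 q2 : ℕ) (n m : ℤ) : ‖tz c1 q1 n * tz c2 q2 m‖ ≤ 1 := by
  rw [norm_mul]
  calc ‖tz c1 q1 n‖ * ‖tz c2 q2 m‖ ≤ 1 * 1 :=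
        mul_le_mul (LfiT_norm _ _ _) (LfiT_norm _ _ _) (norm_nonneg _) zero_le_one
    _ = 1 := one_mul 1

/-- the phase vanishes if n is not coprime to B -/
private lemma LfiT_zero {c : ℤ} {B w : ℕ} {n : ℤ} (hq : 1 ≤ B * w) (h : tz c (B * w) n ≠ 0) : Int.gcd n B = 1 := by
  unfold tz t1g at h
  have h1 : ((n % ((B * w : ℕ) : ℤ)).toNat).Coprime (B * w) := by
    by_contra hc
    exact h (if_neg hc)
  have h2 : ((n % ((B * w : ℕ) : ℤ)).toNat).Coprime B := Nat.Coprime.coprime_mul_right_right h1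
  have h0 : 0 ≤ n % ((B * w : ℕ) : ℤ) := Int.emod_nonneg _ (by exact_mod_cast (by omega : B * w ≠ 0))
  have h3 : Int.gcd (n % ((B * w : ℕ) : ℤ)) B = 1 := by
    have : (((n % ((B * w : ℕ) : ℤ)).toNat : ℕ) : ℤ) = n % ((B * w : ℕ) : ℤ) := Int.toNat_of_nonneg h0
    rw [← this, Int.gcd_natCast_natCast]
    exact h2
  have h4 : (B : ℤ) ∣ n - n % ((B * w : ℕ) : ℤ) := by
    have : ((B * w : ℕ) : ℤ) ∣ n - n % ((B * w : ℕ) : ℤ) := Int.dvd_self_sub_emod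
    have h6 : (B : ℤ) ∣ ((B * w : ℕ) : ℤ) := ⟨(w : ℤ), by push_cast; rfl⟩
    exact h6.trans this
  rw [← h3]
  obtain ⟨m, hm⟩ := h4
  have h5 : n = n % ((B * w : ℕ) : ℤ) + m * (B : ℤ) := by linarith
  conv_lhs => rw [h5]
  exact Int.gcd_add_mul_right_left ..

/-- the number of the lines j ≠ 0 -/
private lemma LfiT_card {J : ℤ} (hJ : 0 ≤ J) : (((Icc (-J) J).filter (fun j => j ≠ 0)).card : ℝ) = 2 * (J : ℝ) := by
  have h1 : (Icc (-J) J).filter (fun j => j ≠ 0) = (Icc (-J) J).erase 0 := by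
    ext j
    rw [mem_filter, mem_erase]
    tauto
  have h2 : (0 : ℤ) ∈ Icc (-J) J := mem_Icc.2 ⟨by omega, hJ⟩
  rw [h1, card_erase_of_mem h2, Int.card_Icc]
  have h3 : ((J + 1 - -J).toNat - 1 : ℕ) = (2 * J).toNat := by omega
  rw [h3]
  have h4 : (((2 * J).toNat : ℕ) : ℤ) = 2 * J := Int.toNat_of_nonneg (by omega)
  have h5 : (((2 * J).toNat : ℕ) : ℝ) = ((2 * J : ℤ) : ℝ) := by rw [← h4]; rfl
  rw [h5]
  push_cast
  ring

/-- one line -/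
private lemma LfiT_line (f : ℤ → ℂ) (g : ℤ → ℕ) (P : ℤ → Prop) [DecidablePred P] (s : Finset ℤ) (t0 : ℕ) (E : ℝ)
    (hf : ∀ i, ‖f i‖ ≤ 1) (hP : ∀ i ∈ s, f i ≠ 0 → P i) (hE : ‖∑ i ∈ s, f i‖ ≤ E) :
    ‖∑ i ∈ s, (if g i ≤ t0 then f i else 0)‖ ≤ E + ((s.filter (fun i => P i ∧ t0 < g i)).card : ℝ) := by
  have e1 : ∑ i ∈ s, (if g i ≤ t0 then f i else 0) = ∑ i ∈ s, f i - ∑ i ∈ s, (if t0 < g i then f i else 0) := by
    rw [← sum_sub_distrib]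
    refine sum_congr rfl fun i _ => ?_
    by_cases h : g i ≤ t0
    · rw [if_pos h, if_neg (by omega), sub_zero]
    · rw [if_neg h, if_pos (by omega), sub_self]
  have e2 : ‖∑ i ∈ s, (if t0 < g i then f i else 0)‖ ≤ ((s.filter (fun i => P i ∧ t0 < g i)).card : ℝ) := by
    calc ‖∑ i ∈ s, (if t0 < g i then f i else 0)‖ ≤ ∑ i ∈ s, ‖(if t0 < g i then f i else 0)‖ := norm_sum_le _ _
      _ ≤ ∑ i ∈ s, (if P i ∧ t0 < g i then (1 : ℝ) else 0) := by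
          refine sum_le_sum fun i hi => ?_
          by_cases h : t0 < g i
          · rw [if_pos h]
            by_cases h0 : f i = 0
            · rw [h0, norm_zero]
              split_ifs <;> norm_num
            · rw [if_pos ⟨hP i hi h0, h⟩]
              exact hf i
          · rw [if_neg h, norm_zero]
            split_ifs <;> norm_num
      _ = _ := by rw [sum_boole]
  rw [e1]
  calc ‖∑ i ∈ s, f i - ∑ i ∈ s, (if t0 < g i then f i else 0)‖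
      ≤ ‖∑ i ∈ s, f i‖ + ‖∑ i ∈ s, (if t0 < g i then f i else 0)‖ := norm_sub_le _ _
    _ ≤ _ := add_le_add hE e2

/-- the final numbers -/
private lemma LfiT_num {C1 T N B n W Δ t0 J Sb tot : ℝ} {A1 : ℕ} (hC1 : 0 < C1) (hT : 1 ≤ T) (hN : 0 < N) (hB : 0 < B)
    (hn : 0 < n) (hW : 0 < W) (hΔ : 0 < Δ) (ht0 : 0 < t0) (hnW : n * W ≤ 2 * N) (hJ : 2 * J ≤ 8 * N * n / B)
    (hSb : Sb ≤ T * (16 * N ^ 2 / (B * t0) + 8 * N * n / B))
    (htot : tot ≤ t0 + (2 * J * (C1 * T ^ A1 * (2 * N / n) * Δ) + Sb)) :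
    tot ≤ (16 * C1 + 32) * T ^ (A1 + 1) * (N ^ 2 / B * (Δ + 1 / t0 + 1 / W) + t0) := by
  have hT0 : 0 < T := by linarith
  have hTA : 1 ≤ T ^ A1 := one_le_pow₀ hT
  have hTA1 : 1 ≤ T ^ (A1 + 1) := one_le_pow₀ hT
  have e1 : T ^ A1 ≤ T ^ (A1 + 1) := pow_le_pow_right₀ hT (by omega)
  have e2 : T ≤ T ^ (A1 + 1) := by
    calc T = T ^ 1 := (pow_one T).symm
      _ ≤ T ^ (A1 + 1) := pow_le_pow_right₀ hT (by omega)
  have hNB : 0 < N ^ 2 / B := by positivity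
  have e3 : 2 * J * (C1 * T ^ A1 * (2 * N / n) * Δ) ≤ 16 * C1 * T ^ (A1 + 1) * (N ^ 2 / B * Δ) := by
    calc 2 * J * (C1 * T ^ A1 * (2 * N / n) * Δ) ≤ 8 * N * n / B * (C1 * T ^ A1 * (2 * N / n) * Δ) :=
          mul_le_mul_of_nonneg_right hJ (by positivity)
      _ = 16 * C1 * T ^ A1 * (N ^ 2 / B * Δ) := by field_simp; ring
      _ ≤ 16 * C1 * T ^ (A1 + 1) * (N ^ 2 / B * Δ) := by gcongr
  have e4 : 8 * N * n / B ≤ 16 * (N ^ 2 / B * (1 / W)) := by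
    have : n ≤ 2 * N / W := (le_div_iff₀ hW).2 hnW
    calc 8 * N * n / B ≤ 8 * N * (2 * N / W) / B := by gcongr
      _ = 16 * (N ^ 2 / B * (1 / W)) := by field_simp; ring
  have e5 : Sb ≤ 16 * T ^ (A1 + 1) * (N ^ 2 / B * (1 / t0 + 1 / W)) := by
    calc Sb ≤ T * (16 * N ^ 2 / (B * t0) + 8 * N * n / B) := hSb
      _ ≤ T * (16 * (N ^ 2 / B * (1 / t0)) + 16 * (N ^ 2 / B * (1 / W))) := by
          refine mul_le_mul_of_nonneg_left (add_le_add (le_of_eq ?_) e4) hT0.le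
          field_simp
      _ = 16 * T * (N ^ 2 / B * (1 / t0 + 1 / W)) := by ring
      _ ≤ 16 * T ^ (A1 + 1) * (N ^ 2 / B * (1 / t0 + 1 / W)) := by gcongr
  have e6 : t0 ≤ T ^ (A1 + 1) * t0 := le_mul_of_one_le_left ht0.le hTA1
  have p1 : 0 < T ^ (A1 + 1) * (N ^ 2 / B * Δ) := by positivity
  have p2 : 0 < T ^ (A1 + 1) * (N ^ 2 / B * (1 / t0 + 1 / W)) := by positivity
  have p3 : 0 < T ^ (A1 + 1) * t0 := by positivity
  have e7 : (16 * C1 + 32) * T ^ (A1 + 1) * (N ^ 2 / B * (Δ + 1 / t0 + 1 / W) + t0) =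
      (16 * C1 + 32) * (T ^ (A1 + 1) * (N ^ 2 / B * Δ)) +
      (16 * C1 + 32) * (T ^ (A1 + 1) * (N ^ 2 / B * (1 / t0 + 1 / W))) + (16 * C1 + 32) * (T ^ (A1 + 1) * t0) := by ring
  rw [e7]
  nlinarith [mul_pos hC1 p1, mul_pos hC1 p2, mul_pos hC1 p3]

/-- splitting the modulus M0 into its two parts -/
private lemma LfiT_split {M0 A1 A2 : ℕ} (hc : A1.Coprime A2) (hM : M0 ∣ A1 * A2) :
    Nat.gcd M0 A1 * Nat.gcd M0 A2 = M0 := by
  rw [← Nat.Coprime.gcd_mul M0 hc]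
  exact Nat.gcd_eq_left hM

theorem tLfiT (h1 : LbsStmt) (h2 : LinStmt) (h3 : LgdStmt) (h4 : LzeStmt) (h5 : LalTStmt) (h6 : LmzStmt)
    (h7 : LliTStmt) : LfiTStmt := by
  intro k
  obtain ⟨C1, hC1, A1, hL⟩ := h7 k
  refine ⟨16 * C1 + 32, by linarith, A1 + 1, ?_⟩
  intro X T W Z y Δ N B w1 w2 GQ G1 G2 t0 l c1 c2 hTau hZ hy hΔ hZΔ hN ht0 hB3 hs1 hs2 hl hX hsm hGQ hG1 hG2 hG1w hG2w
    hgo1 hgo2 hZG hWB hWZB hCW2 hk
  have hT : 1 ≤ T := hTau.1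
  have hT0 : 0 < T := by linarith
  have hC : (32 : ℝ) ≤ 16 * C1 + 32 := by linarith
  set C : ℝ := 16 * C1 + 32 with hCdef
  have hC0 : 0 < C := by linarith
  have hZy : 1 ≤ Z * y := by
    have e1 : (1 : ℝ) * 1 ≤ Z * y := mul_le_mul hZ hy zero_le_one (by linarith)
    linarith
  have hZy0 : 0 < Z * y := by linarith
  have hZ0 : 0 < Z := by linarith
  have hW32 : 32 ≤ W := by
    have e1 : C ≤ C * (Z * y) ^ 2 := le_mul_of_one_le_right hC0.le (one_le_pow₀ hZy)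
    linarith
  have hW0 : 0 < W := by linarith
  have hB1w : 1 ≤ B * w1 := Nat.pos_of_ne_zero hs1.ne_zero
  have hsB : Squarefree B := hs1.of_mul_left
  have hB : 1 ≤ B := by omega
  have hNr : (1 : ℝ) ≤ (N : ℝ) := by exact_mod_cast hN
  have hBr : (1 : ℝ) ≤ (B : ℝ) := by exact_mod_cast hB
  have ht0r : (1 : ℝ) ≤ (t0 : ℝ) := by exact_mod_cast ht0
  obtain ⟨e, f, P1, P2, hBs, hP1, hP2, hP1e, hP2e, hnW, hn2B, hZP⟩ :=
    h5 W Z B w1 w2 GQ G1 G2 N l (by linarith) hZ hB3 hN hs1 hs2 hl hGQ hG1 hG2 hZG hWB hWZB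
  -- coprimality
  have hBw1 : B.Coprime w1 := Nat.coprime_of_squarefree_mul hs1
  have hBw2 : B.Coprime w2 := Nat.coprime_of_squarefree_mul hs2
  have hP1w2 : P1.Coprime w2 := Nat.Coprime.coprime_dvd_left hP1
    (Nat.Coprime.mul_left (Nat.Coprime.coprime_dvd_left hGQ hBw2) hG1w)
  have hP2B : P2.Coprime (B * w1) := Nat.Coprime.coprime_dvd_left hP2
    (Nat.Coprime.mul_right ((Nat.Coprime.coprime_dvd_right hG2 hBw2).symm) hG2w)
  have hP12 : P1.Coprime P2 := Nat.Coprime.coprime_dvd_right (hP2.trans hG2) hP1w2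
  have hGQ1 : GQ * G1 ∣ B * w1 := mul_dvd_mul hGQ hG1
  obtain ⟨M0, hM0d, hZM0, hM0Z⟩ := h6 Z y (P1 * P2) hZ hy (by push_cast; exact hZP) (fun p hp hpd => by
    refine hsm p hp ?_
    rcases (Nat.Prime.dvd_mul hp).1 hpd with hh | hh
    · exact ((hh.trans hP1).trans hGQ1).mul_right w2
    · exact Dvd.dvd.mul_left ((hh.trans hP2).trans hG2) (B * w1))
  have hsplit := LfiT_split hP12 hM0d
  have hsplitR : ((Nat.gcd M0 P1 : ℕ) : ℝ) * (Nat.gcd M0 P2 : ℕ) = (M0 : ℝ) := by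
    rw [← Nat.cast_mul, hsplit]
  have hD1 : Nat.gcd M0 P1 ∣ P1 := Nat.gcd_dvd_right _ _
  have hD2 : Nat.gcd M0 P2 ∣ P2 := Nat.gcd_dvd_right _ _
  obtain ⟨hnm1, -, -, -, -, -, -⟩ := h1 B l e f hB hBs
  obtain ⟨a, b, hab, hmem, hsum⟩ := h2 B l e f N hB hN hBs
  have hnr : (1 : ℝ) ≤ (nm e : ℝ) := by exact_mod_cast hnm1
  have hn0 : (0 : ℝ) < (nm e : ℝ) := by linarith
  have hnN : (nm e : ℝ) ≤ (N : ℝ) := by
    have e1 : (nm e : ℝ) * 2 ≤ (nm e : ℝ) * W := mul_le_mul_of_nonneg_left (by linarith) hn0.le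
    linarith
  have hnNz : nm e ≤ (N : ℤ) := by exact_mod_cast hnN
  set L : ℝ := 2 * (N : ℝ) / (nm e : ℝ) with hLdef
  have hWL : W ≤ L := by
    rw [hLdef, le_div_iff₀ hn0, mul_comm]
    exact hnW
  have hNn1 : (1 : ℝ) ≤ (N : ℝ) / (nm e : ℝ) := (one_le_div hn0).2 hnN
  have hLn : (N : ℝ) / (nm e : ℝ) + 1 ≤ L := by
    have : L = (N : ℝ) / (nm e : ℝ) + (N : ℝ) / (nm e : ℝ) := by rw [hLdef]; ring
    rw [this]
    linarith
  have hZyW : Z * y ≤ W := by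
    have e1 : Z * y ≤ (Z * y) ^ 2 := le_self_pow₀ hZy (by norm_num)
    have e2 : (Z * y) ^ 2 ≤ C * (Z * y) ^ 2 := le_mul_of_one_le_left (by positivity) (by linarith)
    linarith
  have hZyL : Z * y ≤ L := hZyW.trans hWL
  have hCZy : Z * y ≤ C * (Z * y) := le_mul_of_one_le_left hZy0.le (by linarith)
  -- sizes
  have hJ0 : 0 ≤ JJ B N e := Int.ediv_nonneg (by positivity) (by positivity)
  have hJr : 2 * ((JJ B N e : ℤ) : ℝ) ≤ 8 * (N : ℝ) * (nm e : ℝ) / (B : ℝ) := by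
    have e1 : JJ B N e * (B : ℤ) ≤ 4 * (N : ℤ) * nm e := Int.ediv_mul_le _ (by omega)
    have e2 : ((JJ B N e : ℤ) : ℝ) * (B : ℝ) ≤ 4 * (N : ℝ) * (nm e : ℝ) := by exact_mod_cast e1
    rw [le_div_iff₀ (by linarith)]
    linarith
  have hnX : 4 * (N : ℝ) * (nm e : ℝ) ≤ X := by
    have e1 : (nm e : ℝ) ≤ 2 * (B : ℝ) := by exact_mod_cast hn2B
    calc 4 * (N : ℝ) * (nm e : ℝ) ≤ 4 * (N : ℝ) * (2 * (B : ℝ)) := mul_le_mul_of_nonneg_left e1 (by linarith)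
      _ = 8 * (N : ℝ) * B := by ring
      _ ≤ X := hX
  have hWN : W ≤ (N : ℝ) := by
    have e1 : W ^ 2 ≤ W ^ 2 * (B : ℝ) := le_mul_of_one_le_right (by positivity) hBr
    exact le_of_sq_le_sq (e1.trans hWB) (by linarith)
  have hNX : (N : ℝ) ≤ X := by
    refine le_trans ?_ hX
    have e1 : (N : ℝ) ≤ (N : ℝ) * B := le_mul_of_one_le_right (by linarith) hBr
    have e2 : (N : ℝ) * B ≤ 8 * ((N : ℝ) * B) := le_mul_of_one_le_left (by positivity) (by norm_num)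
    linarith
  have hbad := h3 X T B l e f N t0 a b hTau hB hN ht0 hBs hnNz hnX hab
  obtain ⟨hz1, -⟩ := h4 B e f N t0 a b hB hN hnm1 hmem
  -- the sum by lines
  have key : ∑ n1 ∈ Ioc N (2 * N), ∑ n2 ∈ Ioc N (2 * N), (if (B : ℤ) ∣ (n1 : ℤ) - l * n2 ∧ Nat.gcd n1 n2 ≤ t0 then
      t1g c1 (B * w1) n1 * t1g c2 w2 n2 else 0) =
      ∑ j ∈ Icc (-(JJ B N e)) (JJ B N e), ∑ i ∈ Ioc (a j) (b j),
        (if Int.gcd (pt2 e f i j).1 (pt2 e f i j).2 ≤ t0 then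
          tz c1 (B * w1) (pt2 e f i j).1 * tz c2 w2 (pt2 e f i j).2 else 0) := by
    rw [← hsum (fun n => if Int.gcd n.1 n.2 ≤ t0 then tz c1 (B * w1) n.1 * tz c2 w2 n.2 else 0)]
    refine sum_congr rfl fun n1 _ => sum_congr rfl fun n2 _ => ?_
    simp only [Int.gcd_natCast_natCast, LfiT_tz]
    by_cases p1 : (B : ℤ) ∣ (n1 : ℤ) - l * n2
    · by_cases p2 : Nat.gcd n1 n2 ≤ t0
      · rw [if_pos ⟨p1, p2⟩, if_pos p1, if_pos p2]
      · rw [if_neg (fun h => p2 h.2), if_pos p1, if_neg p2]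
    · rw [if_neg (fun h => p1 h.1), if_neg p1]
  rw [key, ← sum_filter_add_sum_filter_not _ (fun j => j ≠ 0)]
  have hne : (Icc (-(JJ B N e)) (JJ B N e)).filter (fun j => ¬ j ≠ 0) = {0} := by
    ext j
    rw [mem_filter, mem_singleton, mem_Icc]
    constructor
    · exact fun h => not_not.1 h.2
    · rintro rfl
      exact ⟨⟨by omega, hJ0⟩, fun h => h rfl⟩
  rw [hne, sum_singleton]
  -- the line 0
  have hzero : ‖∑ i ∈ Ioc (a 0) (b 0), (if Int.gcd (pt2 e f i 0).1 (pt2 e f i 0).2 ≤ t0 then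
      tz c1 (B * w1) (pt2 e f i 0).1 * tz c2 w2 (pt2 e f i 0).2 else 0)‖ ≤ (t0 : ℝ) := by
    rw [← sum_filter]
    refine (norm_sum_le _ _).trans ?_
    refine (sum_le_card_nsmul _ _ 1 fun i _ => LfiT_prod _ _ _ _ _ _).trans ?_
    rw [nsmul_eq_mul, mul_one]
    exact_mod_cast hz1
  -- one line
  have hline : ∀ j : ℤ, ‖∑ i ∈ Ioc (a j) (b j), (if Int.gcd (pt2 e f i j).1 (pt2 e f i j).2 ≤ t0 then
      tz c1 (B * w1) (pt2 e f i j).1 * tz c2 w2 (pt2 e f i j).2 else 0)‖ ≤ C1 * T ^ A1 * L * Δ +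
      ((#((Ioc (a j) (b j)).filter (fun i => Int.gcd (pt2 e f i j).1 B = 1 ∧
        t0 < Int.gcd (pt2 e f i j).1 (pt2 e f i j).2)) : ℕ) : ℝ) := by
    intro j
    refine LfiT_line (fun i => tz c1 (B * w1) (pt2 e f i j).1 * tz c2 w2 (pt2 e f i j).2)
      (fun i => Int.gcd (pt2 e f i j).1 (pt2 e f i j).2) (fun i => Int.gcd (pt2 e f i j).1 B = 1) (Ioc (a j) (b j)) t0
      (C1 * T ^ A1 * L * Δ) (fun i => LfiT_prod _ _ _ _ _ _) (fun i _ hi => LfiT_zero hB1w (left_ne_zero_of_mul hi)) ?_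
    exact hL X T L Z y Δ B w1 w2 (Nat.gcd M0 P1) (Nat.gcd M0 P2) c1 c2 (j * f.1) (j * f.2) e.1 e.2 (a j) (b j)
      hTau hZ hy hΔ hZΔ hs1 hs2 hsm
      ((hD1.trans hP1).trans hGQ1) ((hD2.trans hP2).trans hG2)
      (Nat.Coprime.coprime_dvd_left hD1 hP1w2) (Nat.Coprime.coprime_dvd_left hD2 hP2B)
      (by rw [hsplitR]; exact hZM0) (by rw [hsplitR]; exact hM0Z)
      (fun p hp hpd => ⟨(hgo1 p hp ((hpd.trans hD1).trans hP1)).1, (hgo1 p hp ((hpd.trans hD1).trans hP1)).2,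
        hP1e p hp (hpd.trans hD1)⟩)
      (fun p hp hpd => ⟨(hgo2 p hp ((hpd.trans hD2).trans hP2)).1, (hgo2 p hp ((hpd.trans hD2).trans hP2)).2,
        hP2e p hp (hpd.trans hD2)⟩)
      (by rw [hsplitR]; exact hM0Z.trans (hZyW.trans (hWN.trans hNX))) hZyL
      (hk.trans (pow_le_pow_left₀ (by positivity) (by
        rw [div_le_div_iff₀ (by positivity) hZy0]
        exact mul_le_mul hWL hCZy hZy0.le (by linarith)) k))
      ((hab j).2.trans hLn)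
  have hrest : ‖∑ j ∈ (Icc (-(JJ B N e)) (JJ B N e)).filter (fun j => j ≠ 0), ∑ i ∈ Ioc (a j) (b j),
      (if Int.gcd (pt2 e f i j).1 (pt2 e f i j).2 ≤ t0 then
          tz c1 (B * w1) (pt2 e f i j).1 * tz c2 w2 (pt2 e f i j).2 else 0)‖ ≤
      2 * ((JJ B N e : ℤ) : ℝ) * (C1 * T ^ A1 * L * Δ) +
      ∑ j ∈ (Icc (-(JJ B N e)) (JJ B N e)).filter (fun j => j ≠ 0), ((#((Ioc (a j) (b j)).filter (fun i =>
        Int.gcd (pt2 e f i j).1 B = 1 ∧ t0 < Int.gcd (pt2 e f i j).1 (pt2 e f i j).2)) : ℕ) : ℝ) := by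
    refine (norm_sum_le _ _).trans ((sum_le_sum fun j _ => hline j).trans (le_of_eq ?_))
    rw [sum_add_distrib, sum_const, nsmul_eq_mul, LfiT_card hJ0]
  refine LfiT_num (n := (nm e : ℝ)) hC1 hT (by linarith) (by linarith) hn0 hW0 hΔ (by linarith) hnW hJr hbad ?_
  refine (norm_add_le _ _).trans ?_
  rw [add_comm]
  exact add_le_add hzero hrest

end Pool.Agent.Lib.SLG
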