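import Pool.Agent.Lib.SLG.SpecM

/-!
MP_00e23e_nt, project NL, chapter M, module LliT: the bound of one line, phases of both coordinates.
-/

set_option autoImplicit false

namespace Pool.Agent.Lib.SLG

open Finset Pool.Agent.Lib.EH3 Pool.Agent.Lib.TB Pool.Agent.Results.MP_00e23e_nt Pool.Agent.Lib.MI

private lemma LliT_sqf {a b : ℕ} (ha : Squarefree a) (hb : Squarefree b) : Squarefree (Nat.lcm a b) := by
  have ha0 := ha.ne_zero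
  have hb0 := hb.ne_zero
  have hl0 : Nat.lcm a b ≠ 0 := Nat.lcm_ne_zero ha0 hb0
  rw [Nat.squarefree_iff_factorization_le_one hl0]
  intro p
  rw [Nat.factorization_lcm ha0 hb0, Finsupp.sup_apply]
  exact sup_le ((Nat.squarefree_iff_factorization_le_one ha0).1 ha p)
    ((Nat.squarefree_iff_factorization_le_one hb0).1 hb p)

private lemma LliT_div {B w1 w2 M1 M2 : ℕ} (h1 : Squarefree (B * w1)) (h2 : Squarefree w2)
    (hM1 : M1 ∣ B * w1) (hM2 : M2 ∣ w2) (c1 : M1.Coprime w2) (c2 : M2.Coprime (B * w1)) :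
    ∃ Q1 Q2 : ℕ, B * w1 = M1 * Q1 ∧ w2 = M2 * Q2 ∧ Squarefree (M1 * Q1) ∧ Squarefree (M2 * Q2) ∧
      M1.Coprime M2 ∧ Squarefree (Nat.lcm Q1 Q2) ∧ (Nat.lcm Q1 Q2).Coprime (M1 * M2) ∧
      1 ≤ Nat.lcm Q1 Q2 ∧ Nat.lcm Q1 Q2 ∣ B * w1 * w2 := by
  obtain ⟨Q1, e1⟩ := hM1
  obtain ⟨Q2, e2⟩ := hM2
  have hs1 : Squarefree (M1 * Q1) := e1 ▸ h1
  have hs2 : Squarefree (M2 * Q2) := e2 ▸ h2
  have hQ1 : Squarefree Q1 := hs1.of_mul_right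
  have hQ2 : Squarefree Q2 := hs2.of_mul_right
  have d1 : Q1 ∣ B * w1 := ⟨M1, by rw [e1, mul_comm]⟩
  have d2 : Q2 ∣ w2 := ⟨M2, by rw [e2, mul_comm]⟩
  have a1 : Nat.Coprime M1 Q1 := Nat.coprime_of_squarefree_mul hs1
  have a2 : Nat.Coprime M2 Q2 := Nat.coprime_of_squarefree_mul hs2
  have a3 : Nat.Coprime M1 Q2 := Nat.Coprime.coprime_dvd_right d2 c1
  have a4 : Nat.Coprime M2 Q1 := Nat.Coprime.coprime_dvd_right d1 c2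
  have a5 : Nat.Coprime M1 M2 := Nat.Coprime.coprime_dvd_right ⟨Q2, e2⟩ c1
  have hl := LliT_sqf hQ1 hQ2
  refine ⟨Q1, Q2, e1, e2, hs1, hs2, a5, hl, ?_, Nat.one_le_iff_ne_zero.2 hl.ne_zero, ?_⟩
  · have b1 : Nat.Coprime M1 (Nat.lcm Q1 Q2) :=
      Nat.Coprime.coprime_dvd_right (Nat.lcm_dvd_mul _ _) (a1.mul_right a3)
    have b2 : Nat.Coprime M2 (Nat.lcm Q1 Q2) :=
      Nat.Coprime.coprime_dvd_right (Nat.lcm_dvd_mul _ _) (a4.mul_right a2)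
    exact (b1.mul_left b2).symm
  · exact (Nat.lcm_dvd_mul _ _).trans (Nat.mul_dvd_mul d1 d2)

private lemma LliT_root (C T L Z Δ s : ℝ) (k A : ℕ) (hC : 0 < C) (hT : 1 ≤ T) (hL : 0 ≤ L) (hZ : 0 < Z)
    (hΔ : 0 < Δ) (hZΔ : 1 ≤ Z * Δ ^ (2 ^ (k + 1)))
    (h : s ^ (2 ^ (k + 1)) ≤ C * T ^ A * L ^ (2 ^ (k + 1)) * (2 * (1 / Z))) :
    s ≤ (1 + 2 * C) * T ^ A * L * Δ := by
  set n : ℕ := 2 ^ (k + 1) with hn
  have hn0 : n ≠ 0 := by rw [hn]; positivity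
  have hT0 : 0 ≤ T := zero_le_one.trans hT
  have hR : 0 ≤ (1 + 2 * C) * T ^ A * L * Δ := by positivity
  refine le_of_pow_le_pow_left₀ hn0 hR (h.trans ?_)
  have e1 : 1 / Z ≤ Δ ^ n := by
    rw [div_le_iff₀ hZ, mul_comm]
    exact hZΔ
  have e2 : ((1 + 2 * C) * T ^ A * L * Δ) ^ n = (1 + 2 * C) ^ n * (T ^ A) ^ n * L ^ n * Δ ^ n := by
    rw [mul_pow, mul_pow, mul_pow]
  rw [e2]
  have f1 : 2 * C ≤ (1 + 2 * C) ^ n := by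
    have : (1 + 2 * C) ≤ (1 + 2 * C) ^ n := le_self_pow₀ (by linarith) hn0
    linarith
  have f2 : T ^ A ≤ (T ^ A) ^ n := le_self_pow₀ (one_le_pow₀ hT) hn0
  have f3 : 2 * C * T ^ A ≤ (1 + 2 * C) ^ n * (T ^ A) ^ n :=
    mul_le_mul f1 f2 (by positivity) (by positivity)
  calc C * T ^ A * L ^ n * (2 * (1 / Z)) = (2 * C * T ^ A * L ^ n) * (1 / Z) := by ring
    _ ≤ (2 * C * T ^ A * L ^ n) * Δ ^ n := mul_le_mul_of_nonneg_left e1 (by positivity)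
    _ = (2 * C * T ^ A) * (L ^ n * Δ ^ n) := by ring
    _ ≤ ((1 + 2 * C) ^ n * (T ^ A) ^ n) * (L ^ n * Δ ^ n) :=
        mul_le_mul_of_nonneg_right f3 (by positivity)
    _ = _ := by ring

theorem tLliT (h1 : GliTStmt) (h2 : GksStmt) : LliTStmt := by
  intro k
  obtain ⟨C, hC, A, hG⟩ := h1 k
  refine ⟨1 + 2 * C, by linarith, A, ?_⟩
  intro X T L Z y Δ B w1 w2 M1 M2 c1 c2 n1 n2 u1 u2 a b hTau hZ hy hΔ hZΔ hs1 hs2 hp hM1 hM2 hcw1 hcw2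
    hZM hMZ hM1p hM2p hMX hZL hBw hab
  have hZ0 : 0 < Z := zero_lt_one.trans_le hZ
  have hy0 : 0 < y := zero_lt_one.trans_le hy
  have hL0 : 0 ≤ L := (mul_pos hZ0 hy0).le.trans hZL
  have hw2s : Squarefree w2 := hs2.of_mul_right
  obtain ⟨Q1, Q2, e1, e2, hMQ1, hMQ2, hM12, hls, hlc, hl1, hld⟩ := LliT_div hs1 hw2s hM1 hM2 hcw1 hcw2
  have hBwne : B * w1 * w2 ≠ 0 := mul_ne_zero hs1.ne_zero hw2s.ne_zero
  have hlle : ((Nat.lcm Q1 Q2 : ℕ) : ℝ) ≤ (L / Z / y) ^ k := by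
    refine le_trans (Nat.cast_le.2 (Nat.le_of_dvd (Nat.pos_of_ne_zero hBwne) hld)) ?_
    push_cast
    rw [div_div]
    exact hBw
  have hyLZ : y ≤ L / Z := by
    rw [le_div_iff₀ hZ0, mul_comm]
    exact hZL
  obtain ⟨K, hK1, hK2⟩ := h2 k (Nat.lcm Q1 Q2) (L / Z) y (hy.trans hyLZ) hy hl1
    (fun p hpp hpd => hp p hpp (hpd.trans hld)) hlle
  have hMc : ((M1 * M2 : ℕ) : ℝ) = (M1 : ℝ) * M2 := by push_cast; ring
  have hmain := hG X T L Z M1 M2 Q1 Q2 K c1 c2 n1 n2 u1 u2 a b hTau hZ hMQ1 hMQ2 hM12 hM1p hM2p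
    (by rw [hK1]; exact hls) (by rw [hK1]; exact hlc) (by rw [hK1]; exact Nat.dvd_lcm_left _ _)
    (by rw [hK1]; exact Nat.dvd_lcm_right _ _) (fun j hj => (le_div_iff₀ hZ0).1 (hK2 j hj))
    (by rw [hMc]; exact hMX) (by rw [hMc]; exact hMZ.trans hZL) hab
  rw [e1, e2]
  have hT1 : 1 ≤ T := hTau.1
  have hT0 : 0 ≤ T := zero_le_one.trans hT1
  refine LliT_root C T L Z Δ _ k A hC hT1 hL0 hZ0 hΔ hZΔ (hmain.trans ?_)
  refine mul_le_mul_of_nonneg_left ?_ (by positivity)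
  have g2 : 1 / ((M1 * M2 : ℕ) : ℝ) ≤ 1 / Z := one_div_le_one_div_of_le hZ0 (by rw [hMc]; exact hZM)
  linarith

end Pool.Agent.Lib.SLG
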