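import Pool.Agent.Lib.SLG.AllL
import Pool.Agent.Lib.SLG.GliT
import Pool.Agent.Lib.SLG.LalT
import Pool.Agent.Lib.SLG.LliT
import Pool.Agent.Lib.SLG.LfiT

/-!
MP_00e23e_nt, project NL, chapter M (helper28, helper78): the final statement of the lattice chapter without hypotheses.
-/

set_option autoImplicit false

namespace Pool.Agent.Lib.SLG

theorem aGliT : GliTStmt := tGliT aGr aGsp SL.tVPha

theorem aLalT : LalTStmt := tLalT tLrb tLbs

theorem aLliT : LliTStmt := tLliT aGliT aGks

/-- the lattice theorem with three types of good primes (final statement) -/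
theorem aLfiT : LfiTStmt := tLfiT tLbs aLin aLgd tLze aLalT tLmz aLliT

end Pool.Agent.Lib.SLG
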