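import Pool.Agent.Lib.SLG.SpecL

/-!
MP_00e23e_nt, project NL (all classes, no lock; idea and note 5005: helper2), chapter M (helper28, helper78): the lattice chapter
with good primes of three types: GQ ∣ B (phase in n1, the prime divides the index of the lattice), G1 ∣ w1 (phase in n1), G2 ∣ w2
(phase in n2). Final statement LfiTStmt. Everything else (Lrb, Lbs, Lin, Lgd, Lze, Lmz, Gks, Gr) is as in SpecL, SpecG.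

IDEA. e, f reduced basis, nm e nm f ≤ 2B. A prime of GQ G1 is bad for e if it divides e.1, a prime of G2 is bad for e if it divides
e.2. Either the good part for e is ≥ Z, or the bad part is > GQ G1 G2/Z and its GQ-part is > GQ/Z; then (nm e)^2 ≥ |e.1| |e.2| ≥
(GQ-part) (bad part) ≥ GQ (GQ G1 G2)/Z^2 is large, nm f ≤ 2B/nm e is small, and all primes which are bad for e are good for f.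

RULES as in SpecL: module X: file Pool/Agent/Lib/SLG/X.lean, first line `import Pool.Agent.Lib.SLG.SpecM`.
-/

namespace Pool.Agent.Lib.SLG

open Finset Pool.Agent.Lib.EH3 Pool.Agent.Lib.TB Pool.Agent.Results.MP_00e23e_nt Pool.Agent.Lib.MI

/-- Module GliT (theorem tGliT; helper78). Uses: GrStmt, GspStmt, SL.VPhaStmt. MODEL: Gli.lean.
The two-sided form of GliStmt: good primes of both phases. -/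
def GliTStmt : Prop := ∀ k : ℕ, ∃ C : ℝ, 0 < C ∧ ∃ A : ℕ, ∀ (X T L Z : ℝ) (M1 M2 Q1 Q2 : ℕ) (K : ℕ → ℕ)
    (c1 c2 n1 n2 u1 u2 a b : ℤ), Tau X T → 1 ≤ Z → Squarefree (M1 * Q1) → Squarefree (M2 * Q2) → M1.Coprime M2 →
  (∀ p : ℕ, p.Prime → p ∣ M1 → 2 ^ k < p ∧ ¬ (p : ℤ) ∣ c1 ∧ ¬ (p : ℤ) ∣ u1) →
  (∀ p : ℕ, p.Prime → p ∣ M2 → 2 ^ k < p ∧ ¬ (p : ℤ) ∣ c2 ∧ ¬ (p : ℤ) ∣ u2) →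
  Squarefree (∏ j ∈ range k, K j) → (∏ j ∈ range k, K j).Coprime (M1 * M2) → Q1 ∣ ∏ j ∈ range k, K j →
  Q2 ∣ ∏ j ∈ range k, K j → (∀ j < k, (K j : ℝ) * Z ≤ L) → ((M1 * M2 : ℕ) : ℝ) ≤ X → ((M1 * M2 : ℕ) : ℝ) ≤ L →
  ((b - a : ℤ) : ℝ) ≤ L →
  ‖∑ i ∈ Ioc a b, tz c1 (M1 * Q1) (n1 + i * u1) * tz c2 (M2 * Q2) (n2 + i * u2)‖ ^ (2 ^ (k + 1)) ≤
    C * T ^ A * L ^ (2 ^ (k + 1)) * (1 / Z + 1 / ((M1 * M2 : ℕ) : ℝ))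

/-- Module LalT (theorem tLalT; the two directions). Uses: LrbStmt, LbsStmt. MODEL: Lal.lean.
Proof. (e, f) from Lrb. W^2 (nm e)^2 ≤ W^2 nm e nm f ≤ 2 W^2 B ≤ (2N)^2: nm e W ≤ 2N. nm e, nm f ≤ 2B. e.1 ≠ 0: otherwise B ∣ l e.2, B ∣ e.2, e.2 ≠ 0, nm e ≥ B, B^2 ≤ (nm e)^2 ≤ 2B, contradiction to B ≥ 3; e.2 ≠ 0: otherwise B ∣ e.1, the same. Let GQ = a1 a2, G1 = b1 b2, G2 = d1 d2, where a1 (b1) is the product of the primes dividing e.1, a2 (b2) of the others,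
d1 of the primes dividing e.2, d2 of the others (primeFactors.filter). If Z ≤ a2 b2 d2: e, f, M1 = a2 b2, M2 = d2. Otherwise take (f, e), M1 = a1 b1, M2 = d1: a1 b1 d1 = GQ G1 G2/(a2 b2 d2) > GQ G1 G2/Z ≥ Z. a1 b1 ∣ e.1 (coprime, squarefree: a1 b1 ∣ GQ G1 ∣ B w1), a1 d1 ∣ e.2 (the primes of a1 divide e.2 by Lbs),
so (nm e)^2 ≥ |e.1| |e.2| ≥ (a1 b1) (a1 d1) = a1 (a1 b1 d1) ≥ (GQ/Z) (GQ G1 G2/Z) (a2 ≤ a2 b2 d2 < Z), (nm f W)^2 (nm e)^2 ≤ 4 B^2 W^2 ≤ 4 N^2 GQ (GQ G1 G2)/Z^2 ≤ 4 N^2 (nm e)^2: nm f W ≤ 2N. p ∣ a1: p ∤ f.1 by Lbs. p ∣ b1: p ∣ e.1; if p ∣ f.1, then p ∣ dt e f = ±B, but p ∣ w1 is coprime to B. p ∣ d1: p ∣ e.2; if p ∣ f.2, then p ∣ B, but p ∣ w2. -/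
def LalTStmt : Prop := ∀ (W Z : ℝ) (B w1 w2 GQ G1 G2 N : ℕ) (l : ℤ), 1 ≤ W → 1 ≤ Z → 3 ≤ B → 1 ≤ N →
  Squarefree (B * w1) → Squarefree (B * w2) → Int.gcd l B = 1 → GQ ∣ B → G1 ∣ w1 → G2 ∣ w2 →
  Z ^ 2 ≤ (GQ : ℝ) * G1 * G2 → W ^ 2 * (B : ℝ) ≤ (N : ℝ) ^ 2 →
  (W * Z * B) ^ 2 ≤ (N : ℝ) ^ 2 * GQ * (GQ * G1 * G2) →
  ∃ (e f : ℤ × ℤ) (M1 M2 : ℕ), Bs B l e f ∧ M1 ∣ GQ * G1 ∧ M2 ∣ G2 ∧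
    (∀ p : ℕ, p.Prime → p ∣ M1 → ¬ (p : ℤ) ∣ e.1) ∧ (∀ p : ℕ, p.Prime → p ∣ M2 → ¬ (p : ℤ) ∣ e.2) ∧
    (nm e : ℝ) * W ≤ 2 * (N : ℝ) ∧ nm e ≤ 2 * (B : ℤ) ∧ Z ≤ (M1 : ℝ) * M2

/-- Module LliT (theorem tLliT; the bound of a line). Uses: GliTStmt, GksStmt. MODEL: Lli.lean.
Proof. Q1 = B w1/M1, Q2 = w2/M2. Q = lcm Q1 Q2 is squarefree, coprime to M1 M2 (Squarefree (M1 Q1), Squarefree (M2 Q2), Q1 ∣ B w1 coprime to M2, Q2 ∣ w2 coprime to M1), Q ≤ B w1 w2, all primes of Q are ≤ y. Gks with Y := L/Z (≥ y ≥ 1): ∏_{j<k} K j = Q, K j ≤ L/Z. M1 M2 ≤ Z y ≤ L. GliT as in Lli. -/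
def LliTStmt : Prop := ∀ k : ℕ, ∃ C : ℝ, 0 < C ∧ ∃ A : ℕ, ∀ (X T L Z y Δ : ℝ) (B w1 w2 M1 M2 : ℕ)
    (c1 c2 n1 n2 u1 u2 a b : ℤ), Tau X T → 1 ≤ Z → 1 ≤ y → 0 < Δ → 1 ≤ Z * Δ ^ (2 ^ (k + 1)) →
  Squarefree (B * w1) → Squarefree (B * w2) → (∀ p : ℕ, p.Prime → p ∣ B * w1 * w2 → (p : ℝ) ≤ y) →
  M1 ∣ B * w1 → M2 ∣ w2 → M1.Coprime w2 → M2.Coprime (B * w1) →
  Z ≤ (M1 : ℝ) * M2 → (M1 : ℝ) * M2 ≤ Z * y →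
  (∀ p : ℕ, p.Prime → p ∣ M1 → 2 ^ k < p ∧ ¬ (p : ℤ) ∣ c1 ∧ ¬ (p : ℤ) ∣ u1) →
  (∀ p : ℕ, p.Prime → p ∣ M2 → 2 ^ k < p ∧ ¬ (p : ℤ) ∣ c2 ∧ ¬ (p : ℤ) ∣ u2) →
  (M1 : ℝ) * M2 ≤ X → Z * y ≤ L → (B : ℝ) * w1 * w2 ≤ (L / (Z * y)) ^ k → ((b - a : ℤ) : ℝ) ≤ L →
  ‖∑ i ∈ Ioc a b, tz c1 (B * w1) (n1 + i * u1) * tz c2 w2 (n2 + i * u2)‖ ≤ C * T ^ A * L * Δ

/-- Module LfiT (theorem tLfiT; FINAL STATEMENT). Uses: LbsStmt, LinStmt, LgdStmt, LzeStmt, LalTStmt, LmzStmt, LliTStmt. MODEL: Lfi.lean.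
Proof. As Lfi. e, f, M1', M2' from LalT; G := M1' M2' ≥ Z, M0 ∣ G from Lmz, Z ≤ M0 ≤ Z y; M1 = gcd(M0, M1'), M2 = gcd(M0, M2'), M1 M2 = M0 (M1' ∣ GQ G1 and M2' ∣ G2 are coprime). M1 ∣ GQ G1 is coprime to w2 (GQ: Squarefree (B w2); G1: hypothesis), M2 ∣ G2 is coprime to B w1. M1 M2 ≤ Z y ≤ W ≤ N ≤ X. -/
def LfiTStmt : Prop := ∀ k : ℕ, ∃ C : ℝ, 1 ≤ C ∧ ∃ A : ℕ, ∀ (X T W Z y Δ : ℝ) (N B w1 w2 GQ G1 G2 t0 : ℕ)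
    (l c1 c2 : ℤ), Tau X T → 1 ≤ Z → 1 ≤ y → 0 < Δ → 1 ≤ Z * Δ ^ (2 ^ (k + 1)) → 1 ≤ N → 1 ≤ t0 → 3 ≤ B →
  Squarefree (B * w1) → Squarefree (B * w2) → Int.gcd l B = 1 → 8 * (N : ℝ) * B ≤ X →
  (∀ p : ℕ, p.Prime → p ∣ B * w1 * w2 → (p : ℝ) ≤ y) → GQ ∣ B → G1 ∣ w1 → G2 ∣ w2 → G1.Coprime w2 → G2.Coprime w1 →
  (∀ p : ℕ, p.Prime → p ∣ GQ * G1 → 2 ^ k < p ∧ ¬ (p : ℤ) ∣ c1) →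
  (∀ p : ℕ, p.Prime → p ∣ G2 → 2 ^ k < p ∧ ¬ (p : ℤ) ∣ c2) →
  Z ^ 2 ≤ (GQ : ℝ) * G1 * G2 → W ^ 2 * (B : ℝ) ≤ (N : ℝ) ^ 2 →
  (W * Z * B) ^ 2 ≤ (N : ℝ) ^ 2 * GQ * (GQ * G1 * G2) → C * (Z * y) ^ 2 ≤ W →
  (B : ℝ) * w1 * w2 ≤ (W / (C * (Z * y))) ^ k →
  ‖∑ n1 ∈ Ioc N (2 * N), ∑ n2 ∈ Ioc N (2 * N), (if (B : ℤ) ∣ (n1 : ℤ) - l * n2 ∧ Nat.gcd n1 n2 ≤ t0 then
    t1g c1 (B * w1) n1 * t1g c2 w2 n2 else 0)‖ ≤ C * T ^ A * ((N : ℝ) ^ 2 / B * (Δ + 1 / t0 + 1 / W) + t0)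

end Pool.Agent.Lib.SLG
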