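import Pool.Agent.Lib.SLG.SpecG

/-!
MP_00e23e_nt, directory Lib/SLG, module Gba: the base case (completion and Weil).
-/

namespace Pool.Agent.Lib.SLG

open Finset Pool.Agent.Lib.EH3 Pool.Agent.Lib.TB Pool.Agent.Results.MP_00e23e_nt Pool.Agent.Lib.MI

private lemma Gba_split (g : ℤ → ℝ) (M : ℕ) :
    ∑ j ∈ Icc (-(M : ℤ)) (M : ℤ), g j = g 0 + ∑ n ∈ Icc 1 M, (g (n : ℤ) + g (-(n : ℤ))) := by
  induction M with
  | zero => simp
  | succ M ih =>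
    have h1 : Icc (-((M + 1 : ℕ) : ℤ)) ((M + 1 : ℕ) : ℤ) =
        insert ((M + 1 : ℕ) : ℤ) (insert (-((M + 1 : ℕ) : ℤ)) (Icc (-(M : ℤ)) (M : ℤ))) := by
      ext x
      simp only [mem_Icc, mem_insert]
      push_cast
      omega
    rw [h1, sum_insert, sum_insert, ih, sum_Icc_succ_top (by omega)]
    · ring
    · simp only [mem_Icc]
      push_cast
      omega
    · simp only [mem_Icc, mem_insert]
      push_cast
      omega

private lemma Gba_wE {N K : ℕ} {n : ℕ} (hn : 1 ≤ n) :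
    SL.wE N K (n : ℤ) + SL.wE N K (-(n : ℤ)) ≤ ((n : ℝ))⁻¹ := by
  have hn0 : (n : ℤ) ≠ 0 := by omega
  have hn1 : (-(n : ℤ)) ≠ 0 := by omega
  have hnr : (0 : ℝ) < n := by exact_mod_cast hn
  unfold SL.wE
  rw [if_neg hn0, if_neg hn1]
  have h1 : |((n : ℤ) : ℝ)| = n := by
    rw [Int.cast_natCast, abs_of_pos hnr]
  have h2 : |((-(n : ℤ) : ℤ) : ℝ)| = n := by
    rw [Int.cast_neg, abs_neg, h1]
  rw [h1, h2]
  have h3 : min ((N : ℝ) / K) (1 / (2 * (n : ℝ))) ≤ 1 / (2 * (n : ℝ)) := min_le_right _ _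
  have h4 : 1 / (2 * (n : ℝ)) + 1 / (2 * (n : ℝ)) = ((n : ℝ))⁻¹ := by
    field_simp
    norm_num
  linarith

private lemma Gba_wsum (N K M : ℕ) :
    ∑ j ∈ Icc (-(M : ℤ)) (M : ℤ), SL.wE N K j ≤ (N : ℝ) / K + (1 + Real.log M) := by
  rw [Gba_split]
  have h0 : SL.wE N K 0 = (N : ℝ) / K := by
    unfold SL.wE
    rw [if_pos rfl]
  have h1 : ∑ n ∈ Icc 1 M, (SL.wE N K (n : ℤ) + SL.wE N K (-(n : ℤ))) ≤
      ∑ n ∈ Icc 1 M, ((n : ℝ))⁻¹ :=
    sum_le_sum fun n hn => Gba_wE (mem_Icc.mp hn).1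
  have h2 := harmonic_le_one_add_log M
  rw [harmonic_eq_sum_Icc] at h2
  push_cast at h2
  rw [h0]
  linarith

private lemma Gba_wE_nn (N K : ℕ) (j : ℤ) : 0 ≤ SL.wE N K j := by
  unfold SL.wE
  split_ifs
  · positivity
  · positivity

private lemma Gba_card {P : Finset ℕ} (hP : ∀ p ∈ P, p.Prime) :
    2 ^ P.card ≤ (∏ p ∈ P, p).divisors.card := by
  have h0 : (∏ p ∈ P, p) ≠ 0 := prod_ne_zero_iff.mpr fun p hp => (hP p hp).ne_zero
  rw [Nat.card_divisors h0, Nat.primeFactors_prod hP, ← prod_const]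
  refine prod_le_prod' fun p hp => ?_
  have h1 : p ∣ ∏ p ∈ P, p := dvd_prod_of_mem _ hp
  have h2 := (hP p hp).factorization_pos_of_dvd h0 h1
  omega

private lemma Gba_period {P : Finset ℕ} (F : (p : ℕ) → ZMod p → ℂ) (i k : ℤ) :
    PF P F (i + k * ((∏ p ∈ P, p : ℕ) : ℤ)) = PF P F i := by
  unfold PF
  refine prod_congr rfl fun p hp => ?_
  congr 1
  have h1 : (p : ℤ) ∣ ((∏ p ∈ P, p : ℕ) : ℤ) := by exact_mod_cast dvd_prod_of_mem _ hp
  have h2 : (((∏ p ∈ P, p : ℕ) : ℤ) : ZMod p) = 0 := (ZMod.intCast_zmod_eq_zero_iff_dvd _ _).mpr h1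
  rw [Int.cast_add, Int.cast_mul, h2, mul_zero, add_zero]

private lemma Gba_shift {P : Finset ℕ} (hP : ∀ p ∈ P, p.Prime) (F : (p : ℕ) → ZMod p → ℂ) (a b : ℤ)
    (hab : a ≤ b) : ∃ a' b' : ℕ, a' ≤ b' ∧ (b' : ℤ) - a' = b - a ∧
      ∑ i ∈ Ioc a b, PF P F i = ∑ n ∈ Ioc a' b', PF P F (n : ℤ) := by
  set M := ∏ p ∈ P, p with hM
  have hM1 : 1 ≤ M := Nat.one_le_iff_ne_zero.mpr (prod_ne_zero_iff.mpr fun p hp => (hP p hp).ne_zero)
  have hs : 0 ≤ a + (a.natAbs : ℤ) * M := by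
    have h1 : (a.natAbs : ℤ) * 1 ≤ (a.natAbs : ℤ) * M :=
      mul_le_mul_of_nonneg_left (by exact_mod_cast hM1) (by positivity)
    omega
  set k : ℤ := (a.natAbs : ℤ) * M with hk
  refine ⟨(a + k).toNat, (b + k).toNat, ?_, ?_, ?_⟩
  · omega
  · omega
  · refine sum_bij' (fun x _ => (x + k).toNat) (fun n _ => (n : ℤ) - k) ?_ ?_ ?_ ?_ ?_
    · intro x hx
      rw [mem_Ioc] at hx ⊢
      omega
    · intro x hx
      rw [mem_Ioc] at hx ⊢
      omega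
    · intro x hx
      rw [mem_Ioc] at hx
      omega
    · intro x hx
      rw [mem_Ioc] at hx
      omega
    · intro x hx
      rw [mem_Ioc] at hx
      have h1 : (((x + k).toNat : ℕ) : ℤ) = x + k := by omega
      change PF P F x = PF P F (((x + k).toNat : ℕ) : ℤ)
      rw [h1, hk, hM, Gba_period]

private lemma Gba_triv {p : ℕ} {f : ZMod p → ℂ} (hf : ∀ z, ‖f z‖ ≤ 1) (b : ℤ) :
    ‖∑ x ∈ range p, f (x : ZMod p) * en (b * x) p‖ ≤ p := by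
  calc ‖∑ x ∈ range p, f (x : ZMod p) * en (b * x) p‖ ≤ ∑ x ∈ range p, (1 : ℝ) := by
        refine norm_sum_le_of_le _ fun x _ => ?_
        rw [norm_mul, norm_en, mul_one]
        exact hf _
    _ = p := by simp

private lemma Gba_prod {m : ℕ} {P E : Finset ℕ} (hE : E ⊆ P) :
    ∏ p ∈ P, (if p ∈ E then (p : ℝ) else 2 ^ (m + 1) * Real.sqrt p) ≤
      (2 ^ P.card) ^ (m + 1) * Real.sqrt ((∏ p ∈ P, p : ℕ) : ℝ) * Real.sqrt ((∏ p ∈ E, p : ℕ) : ℝ) := by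
  have h1 : ∏ p ∈ P, (if p ∈ E then (p : ℝ) else 2 ^ (m + 1) * Real.sqrt p) ≤
      ∏ p ∈ P, (2 ^ (m + 1) * Real.sqrt p * (if p ∈ E then Real.sqrt p else 1)) := by
    refine prod_le_prod (fun p _ => ?_) fun p _ => ?_
    · split_ifs <;> positivity
    · split_ifs
      · have h2 : (1 : ℝ) ≤ 2 ^ (m + 1) := one_le_pow₀ (by norm_num)
        have h3 : Real.sqrt p * Real.sqrt p = p := Real.mul_self_sqrt (by positivity)
        rw [mul_assoc, h3]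
        nlinarith [show (0 : ℝ) ≤ p by positivity]
      · rw [mul_one]
  refine h1.trans (le_of_eq ?_)
  rw [prod_mul_distrib, prod_mul_distrib, prod_const, ← pow_mul, ← pow_mul, mul_comm (m + 1)]
  have h4 : ∏ p ∈ P, (if p ∈ E then Real.sqrt p else 1) = Real.sqrt ((∏ p ∈ E, p : ℕ) : ℝ) := by
    rw [prod_ite_mem, inter_eq_right.mpr hE]
    push_cast
    rw [Real.sqrt_prod]
    exact fun p _ => by positivity
  have h5 : ∏ p ∈ P, Real.sqrt p = Real.sqrt ((∏ p ∈ P, p : ℕ) : ℝ) := by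
    push_cast
    rw [Real.sqrt_prod]
    exact fun p _ => by positivity
  rw [h4, h5]

theorem tGba (h1 : GweStmt) (h2 : GcrStmt) (h3 : SL.EcmStmt) : GbaStmt := by
  intro m
  refine ⟨4, by norm_num, 2 * m + 4, ?_⟩
  intro X T L P0 E F a b hT hE hP hG hX hL hab
  obtain ⟨hT1, hT2, hT3⟩ := hT
  have hPp : ∀ p ∈ P0, p.Prime := fun p hp => (hP p hp).1
  set M := ∏ p ∈ P0, p with hM
  set D := ∏ p ∈ E, p with hD
  have hM1 : 1 ≤ M := Nat.one_le_iff_ne_zero.mpr (prod_ne_zero_iff.mpr fun p hp => (hPp p hp).ne_zero)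
  have hMr : (1 : ℝ) ≤ M := by exact_mod_cast hM1
  have hT0 : 0 ≤ T := by linarith
  have hL0 : 0 ≤ L := by linarith
  have hRHS : 0 ≤ 4 * T ^ (2 * m + 4) * L ^ 2 * ((D : ℝ) / (M : ℝ)) := by positivity
  rcases le_or_gt b a with hba | hba
  · rw [Ioc_eq_empty (not_lt.mpr hba), sum_empty, norm_zero]
    simpa using hRHS
  obtain ⟨a', b', hab', hsub, hsum⟩ := Gba_shift hPp F a b hba.le
  rw [hsum]
  have hN : b' ≤ a' + ⌊L⌋₊ := by
    have h4 : b' - a' ≤ ⌊L⌋₊ := by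
      refine Nat.le_floor ?_
      have h5 : ((b' - a' : ℕ) : ℝ) = ((b - a : ℤ) : ℝ) := by
        rw [← hsub]
        push_cast [Nat.cast_sub hab']
        ring
      rw [h5]
      exact hab
    omega
  have hcm := h3 (fun n : ℕ => PF P0 F (n : ℤ)) M ⌊L⌋₊ a' b' hM1 hab' hN (fun n => by
    have h4 := Gba_period (P := P0) F (n : ℤ) 1
    rw [one_mul] at h4
    change PF P0 F ((n + M : ℕ) : ℤ) = PF P0 F (n : ℤ)
    rw [Nat.cast_add]
    exact h4)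
  have hbd : ∀ j : ℤ, ‖SL.hE (fun n : ℕ => PF P0 F (n : ℤ)) M j‖ ≤
      T ^ (m + 1) * Real.sqrt M * Real.sqrt D := by
    intro j
    have h4 := h2 P0 F (fun p => if p ∈ E then (p : ℝ) else 2 ^ (m + 1) * Real.sqrt p) j hPp
      (fun p hp => by
        refine ⟨by split_ifs <;> positivity, fun b => ?_⟩
        split_ifs with hpE
        · exact Gba_triv (hP p hp).2 b
        · exact h1 m p (F p) b (hPp p hp) (hG p hp hpE))
    refine h4.trans ((Gba_prod hE).trans ?_)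
    have h5 : (2 : ℝ) ^ P0.card ≤ T := by
      refine le_trans ?_ (hT3 M hM1 hX)
      exact_mod_cast Gba_card hPp
    gcongr
  have hw : ∑ j ∈ Icc (-(M : ℤ)) (M : ℤ), SL.wE ⌊L⌋₊ M j ≤ 2 * (T * (L / M)) := by
    refine (Gba_wsum _ _ _).trans ?_
    have h4 : Real.log M ≤ Real.log X := Real.log_le_log (by linarith) hX
    have h5 : (⌊L⌋₊ : ℝ) / M ≤ L / M := by
      gcongr
      exact Nat.floor_le hL0
    have h6 : 1 ≤ L / M := by
      rw [one_le_div (by linarith)]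
      exact hL
    nlinarith [mul_nonneg (sub_nonneg.mpr hT1) (sub_nonneg.mpr h6)]
  have hfin : ‖∑ n ∈ Ioc a' b', PF P0 F (n : ℤ)‖ ≤
      2 * (T * (L / M)) * (T ^ (m + 1) * Real.sqrt M * Real.sqrt D) := by
    refine hcm.trans ?_
    calc ∑ j ∈ Icc (-(M : ℤ)) (M : ℤ), SL.wE ⌊L⌋₊ M j * ‖SL.hE (fun n : ℕ => PF P0 F (n : ℤ)) M j‖
        ≤ ∑ j ∈ Icc (-(M : ℤ)) (M : ℤ), SL.wE ⌊L⌋₊ M j * (T ^ (m + 1) * Real.sqrt M * Real.sqrt D) :=
          sum_le_sum fun j _ => mul_le_mul_of_nonneg_left (hbd j) (Gba_wE_nn _ _ _)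
      _ = (∑ j ∈ Icc (-(M : ℤ)) (M : ℤ), SL.wE ⌊L⌋₊ M j) * (T ^ (m + 1) * Real.sqrt M * Real.sqrt D) := by
          rw [sum_mul]
      _ ≤ _ := mul_le_mul_of_nonneg_right hw (by positivity)
  have hsq := pow_le_pow_left₀ (norm_nonneg _) hfin 2
  refine hsq.trans (le_of_eq ?_)
  have e1 : Real.sqrt M ^ 2 = M := Real.sq_sqrt (by positivity)
  have e2 : Real.sqrt D ^ 2 = D := Real.sq_sqrt (by positivity)
  have e3 : (2 * (T * (L / M)) * (T ^ (m + 1) * Real.sqrt M * Real.sqrt D)) ^ 2 =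
      4 * (T ^ 2 * (T ^ (m + 1)) ^ 2) * L ^ 2 * ((Real.sqrt D ^ 2) * (Real.sqrt M ^ 2) / M ^ 2) := by
    ring
  have e4 : T ^ 2 * (T ^ (m + 1)) ^ 2 = T ^ (2 * m + 4) := by ring
  rw [e3, e1, e2, e4]
  have hM0 : (M : ℝ) ≠ 0 := by linarith
  field_simp

end Pool.Agent.Lib.SLG
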