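import Pool.Agent.Lib.SL.SpecV
import Pool.Agent.Lib.SL.SpecE
import Pool.Agent.Lib.MI.SpecB

/-!
MP_00e23e_nt, project SL, phase 3 (a lock of arbitrarily small size; helper3, helper78, helper83), chapter G (helper78): iterated
van der Corput differencing for products of local functions (Graham and Ringrose) with arbitrary periodic factors. Final statements
GrStmt (abstract) and GliStmt (Kloosterman phases on a line).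

IDEA. S = ∑_{i ∈ (a, b]} ∏_{p ∈ P0} F p(i) ∏_{j < k} Ψ j(i), b - a ≤ L; the Ψ j are ARBITRARY functions of period K j ≤ L/Z and norm ≤ 1,
the F p (p ∈ P0, M0 = ∏ P0 ≤ L) are phases of rational functions with simple poles modulo p. One step removes one Ψ j: the shifts are
multiples of K j, and F p(z) conj F p(z + τ) is again of the same kind unless p ∣ τ. At the end: completion and Weil's bound WR.wr.

RULES. Module X: file Pool/Agent/Lib/SLG/X.lean, first line `import Pool.Agent.Lib.SLG.SpecG`, then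
`namespace Pool.Agent.Lib.SLG` and `open Finset Pool.Agent.Lib.EH3 Pool.Agent.Lib.TB Pool.Agent.Results.MP_00e23e_nt Pool.Agent.Lib.MI`,
private lemmas with names starting with X_, final theorem `theorem tX (h1 : AStmt) ... : XStmt`; the statements listed under Uses
are hypotheses of your theorem, in this order. The docstring contains a complete proof. Definitions: MI/Defs.lean (en, Tau),
MI/T1Base.lean (t1g), SL/SpecE.lean (wE, hE). Basic lemmas: MI/Basic.lean (norm_en, en_congr, en_add, conj_en, en_mul_left,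
en_of_dvd, en_crt, iv_mul_mul, iv_dvd_dvd), MI/T1Base.lean (t1_g_add, t1_g_add_mul, t1_norm_g), TB/Basic.lean (iv_mul, iv_dvd, iv_congr,
iv_unique). Never use congr!. Every module below 60 s. The constants are generous.
-/

namespace Pool.Agent.Lib.SLG

open Finset Pool.Agent.Lib.EH3 Pool.Agent.Lib.TB Pool.Agent.Results.MP_00e23e_nt Pool.Agent.Lib.MI

/-- the product over the primes of P of local functions -/
noncomputable def PF (P : Finset ℕ) (F : (p : ℕ) → ZMod p → ℂ) (i : ℤ) : ℂ := ∏ p ∈ P, F p (i : ZMod p)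

/-- e(z/p) for z in ZMod p -/
noncomputable def ez (p : ℕ) (z : ZMod p) : ℂ := en (z.val : ℤ) p

open Classical in
/-- e((∑_{a ∈ s} c a/(z - a))/p) off the poles, 0 at the poles -/
noncomputable def lf (p : ℕ) (s : Finset (ZMod p)) (c : ZMod p → ZMod p) (z : ZMod p) : ℂ :=
  if z ∈ s then 0 else ez p (∑ a ∈ s, c a * (z - a)⁻¹)

/-- phases of rational functions with at most 2^m simple poles, not all coefficients 0 -/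
def Gf (m p : ℕ) (f : ZMod p → ℂ) : Prop :=
  ∃ (s : Finset (ZMod p)) (c : ZMod p → ZMod p), s.card ≤ 2 ^ m ∧ (∃ a ∈ s, c a ≠ 0) ∧ ∀ z, f z = lf p s c z

/-- t1g for integer arguments -/
noncomputable def tz (c : ℤ) (q : ℕ) (n : ℤ) : ℂ := t1g c q (n % (q : ℤ)).toNat

/-- Module Gwe (theorem tGwe; Weil's bound). Uses: nothing (import Pool.Agent.Lib.WR.All; see Lib/MI/WPr.lean for a MODEL).
Proof. Fact p.Prime. x ↦ (x : ZMod p) is a bijection of range p onto ZMod p; en (b x) p = stdAddChar (b z), ez p z = stdAddChar z. f = 0 on s, so the sum is ∑_{z ∉ s} stdAddChar (b z + ∑_{a ∈ s} c a/(z - a)), WR.wr: ≤ 2 card s √p ≤ 2 2^m √p. -/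
def GweStmt : Prop := ∀ (m p : ℕ) (f : ZMod p → ℂ) (b : ℤ), p.Prime → Gf m p f →
  ‖∑ x ∈ range p, f (x : ZMod p) * en (b * x) p‖ ≤ 2 ^ (m + 1) * Real.sqrt p

/-- Module Gsh (theorem tGsh; differencing). Uses: nothing.
Proof. Fact p.Prime. s, c from Gf; c' a := c a for a ∈ s, 0 otherwise. New poles s' = s ∪ (image of s under a ↦ a - τ), card ≤ 2^(m+1); new coefficients d a = c' a - c' (a + τ). z ∈ s' iff f z = 0 or f (z + τ) = 0 (both sides 0; note ez ≠ 0). z ∉ s': conj of ez is ez of the negative, so f z conj f(z+τ) = ez (∑_{a ∈ s} c a/(z - a) - ∑_{a ∈ s} c a/(z + τ - a)),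
and the second sum is ∑_{a' ∈ s - τ} c'(a' + τ)/(z - a') (a' = a - τ): together ∑_{a' ∈ s'} d a'/(z - a'). If d a' = 0 for all a' ∈ s' then c'(a) = c'(a + τ) for ALL a (outside of s' both are 0), so c'(a0 + n τ) = c'(a0) ≠ 0 for all n, and n ↦ a0 + n τ is onto ZMod p (τ ≠ 0): all elements of ZMod p are in s, p ≤ card s ≤ 2^m < p. -/
def GshStmt : Prop := ∀ (m p : ℕ) (f : ZMod p → ℂ) (τ : ZMod p), p.Prime → 2 ^ m < p → τ ≠ 0 → Gf m p f →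
  Gf (m + 1) p (fun z => f z * (starRingEnd ℂ) (f (z + τ)))

/-- Module Gcr (theorem tGcr; Chinese remainder theorem for the complete sums). Uses: SL.EcrStmt.
Proof. Induction on P. Empty: range 1, both sides 1 (≤ 1). insert p P: M = p M', coprime (distinct primes), en (j x) (p M') = en (j x iv M' p) p * en (j x iv p M') M' (en_crt), PF (insert p P) F x = F p x * PF P F x; EcrStmt with a = p, b = M', U n = F p n en (j n iv M' p) p, V n = PF P F n en (j n iv p M') M' (periodic: en_congr, casts to ZMod).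
The first factor is ≤ Bd p, the second one by induction. -/
def GcrStmt : Prop := ∀ (P : Finset ℕ) (F : (p : ℕ) → ZMod p → ℂ) (Bd : ℕ → ℝ) (j : ℤ), (∀ p ∈ P, p.Prime) →
  (∀ p ∈ P, 0 ≤ Bd p ∧ ∀ b : ℤ, ‖∑ x ∈ range p, F p (x : ZMod p) * en (b * x) p‖ ≤ Bd p) →
  ‖∑ x ∈ range (∏ p ∈ P, p), PF P F (x : ℤ) * en (j * x) (∏ p ∈ P, p)‖ ≤ ∏ p ∈ P, Bd p

/-- Module Gba (theorem tGba; the base case). Uses: GweStmt, GcrStmt, SL.EcmStmt.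
Proof. M0 = ∏ P0 ≥ 1. If b ≤ a the sum is 0. Otherwise shift i by a multiple of M0 (PF P0 F has the period M0) so that a ≥ 0; N = ⌊L⌋₊ ≥ b - a. SL.EcmStmt with q = M0: the sum is ≤ ∑_{|j| ≤ M0} wE N M0 j ‖hE F M0 j‖. Gcr with Bd p = 2^(m+1) √p for p ∈ P0 \ E (Gwe), Bd p = p for p ∈ E (norms ≤ 1): every hE is ≤
(2^(m+1))^(card P0) √(M0) √(∏ E) ≤ T^(m+1) √(M0 ∏ E), since 2^(card P0) = card of the divisors of M0 ≤ T. ∑_j wE N M0 j ≤ N/M0 + ∑_{1 ≤ j ≤ M0} 1/j ≤ L/M0 + T ≤ 2T L/M0 (1 + log M0 ≤ T, M0 ≤ L). So the sum is ≤ 2 T^(m+2) L √(∏ E/M0); square: C = 4, A = 2m+4. -/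
def GbaStmt : Prop := ∀ m : ℕ, ∃ C : ℝ, 0 < C ∧ ∃ A : ℕ, ∀ (X T L : ℝ) (P0 E : Finset ℕ) (F : (p : ℕ) → ZMod p → ℂ)
    (a b : ℤ), Tau X T → E ⊆ P0 → (∀ p ∈ P0, p.Prime ∧ ∀ z, ‖F p z‖ ≤ 1) → (∀ p ∈ P0, p ∉ E → Gf m p (F p)) →
  ((∏ p ∈ P0, p : ℕ) : ℝ) ≤ X → ((∏ p ∈ P0, p : ℕ) : ℝ) ≤ L → ((b - a : ℤ) : ℝ) ≤ L →
  ‖∑ i ∈ Ioc a b, PF P0 F i‖ ^ 2 ≤ C * T ^ A * L ^ 2 * (((∏ p ∈ E, p : ℕ) : ℝ) / ((∏ p ∈ P0, p : ℕ) : ℝ))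

/-- Module Gvd (theorem tGvd; one van der Corput step). Uses: nothing.
Proof. G' = G on (a, b], 0 elsewhere. T1 ∑_{i ∈ (a,b]} G i Ψ i = ∑_{i ∈ (a - K T1, b]} Ψ i ∑_{t < T1} G' (i + K t) (put n = i + K t, Ψ (i + K t) = Ψ i). The number of i is ≤ (b - a) + K T1 ≤ 2L (or 0 if the sum is empty). Cauchy: T1^2 ‖S‖^2 ≤ 2L ∑_i ‖∑_t G' (i + K t)‖^2 = 2L ∑_{t,t' < T1} ∑_i G'(i + K t) conj G'(i + K t').
The inner sum is C(t' - t) for t' ≥ t and conj C(t - t') for t' < t, C(d) = ∑_{i ∈ (a, b - K d]} G i conj G (i + K d); ‖C 0‖ ≤ L; for d ≥ 1 there are 2 (T1 - d) ≤ 2 T1 pairs. So T1^2 ‖S‖^2 ≤ 2L (T1 L + 2 T1 ∑_{1 ≤ d < T1} ‖C d‖). -/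
def GvdStmt : Prop := ∀ (L : ℝ) (K T1 : ℕ) (a b : ℤ) (G Ψ : ℤ → ℂ), 1 ≤ K → 1 ≤ T1 → (K : ℝ) * T1 ≤ L →
  ((b - a : ℤ) : ℝ) ≤ L → (∀ i, Ψ (i + K) = Ψ i) → (∀ i, ‖Ψ i‖ ≤ 1) → (∀ i, ‖G i‖ ≤ 1) →
  ‖∑ i ∈ Ioc a b, G i * Ψ i‖ ^ 2 ≤ 2 * L / T1 * (L + 2 * ∑ t ∈ Ico 1 T1,
    ‖∑ i ∈ Ioc a (b - ((K * t : ℕ) : ℤ)), G i * (starRingEnd ℂ) (G (i + ((K * t : ℕ) : ℤ)))‖)

/-- Module Ggc (theorem tGgc; the average of gcd(t, M)). Uses: nothing.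
Proof. gcd(t, M) ≤ ∑_{d ∣ M, d ∣ t} d (d = gcd is one of them), and the number of t in Ico 1 T1 with d ∣ t is ≤ T1/d: the sum is ≤ ∑_{d ∣ M} d T1/d = T1 τ(M) ≤ T1 T. -/
def GgcStmt : Prop := ∀ (X T : ℝ) (M T1 : ℕ), Tau X T → 1 ≤ M → (M : ℝ) ≤ X →
  ∑ t ∈ Ico 1 T1, (Nat.gcd t M : ℝ) ≤ (T1 : ℝ) * T

/-- FINAL STATEMENT, abstract form. E = the degenerate primes. -/
def GrStmt : Prop := ∀ k m : ℕ, ∃ C : ℝ, 0 < C ∧ ∃ A : ℕ, ∀ (X T L Z : ℝ) (P0 E : Finset ℕ)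
    (F : (p : ℕ) → ZMod p → ℂ) (K : ℕ → ℕ) (Ψ : ℕ → ℤ → ℂ) (a b : ℤ), Tau X T → 1 ≤ Z → E ⊆ P0 →
  (∀ p ∈ P0, p.Prime ∧ 2 ^ (m + k) < p ∧ ∀ z, ‖F p z‖ ≤ 1) → (∀ p ∈ P0, p ∉ E → Gf m p (F p)) →
  (∀ j < k, 1 ≤ K j ∧ (K j).Coprime (∏ p ∈ P0, p) ∧ (K j : ℝ) * Z ≤ L ∧ (∀ i, Ψ j (i + K j) = Ψ j i) ∧ ∀ i, ‖Ψ j i‖ ≤ 1) →
  ((∏ p ∈ P0, p : ℕ) : ℝ) ≤ X → ((∏ p ∈ P0, p : ℕ) : ℝ) ≤ L → ((b - a : ℤ) : ℝ) ≤ L →
  ‖∑ i ∈ Ioc a b, PF P0 F i * ∏ j ∈ range k, Ψ j i‖ ^ (2 ^ (k + 1)) ≤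
    C * T ^ A * L ^ (2 ^ (k + 1)) * (1 / Z + ((∏ p ∈ E, p : ℕ) : ℝ) / ((∏ p ∈ P0, p : ℕ) : ℝ))

/-- Module Gr (theorem tGr : GbaStmt → GshStmt → GvdStmt → GgcStmt → GrStmt; the induction).
Proof. Induction on k for all m. k = 0: Gba (0 ≤ 1/Z). k → k+1: M0 = ∏ P0 ≥ 1, L ≥ K k Z ≥ 1, T1 = ⌊L/K k⌋₊ ≥ 1 (L/K k ≥ Z ≥ 1), T1 ≥ Z/2, K k T1 ≤ L. Gvd with K := K k, Ψ := Ψ k, G = PF P0 F * ∏_{j<k} Ψ j (norm ≤ 1): ‖S‖^2 ≤ (2L/T1)(L + 2 ∑_t ‖C t‖), and C t is the sum of the theorem for k, m + 1,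
F_t p z = F p z conj (F p (z + (K k t : ZMod p))), Ψ'_j i = Ψ j i conj (Ψ j (i + K k t)), b - K k t, E_t = E ∪ {p ∈ P0 : p ∣ t}: for p ∈ P0, p ∉ E_t, (K k t : ZMod p) ≠ 0 (K k is coprime to M0): Gf (m+1) by Gsh (2^m < p). ∏ E_t ≤ (∏ E) gcd(t, M0). n = 2^(k+1): by induction
‖C t‖^n ≤ C T^A L^n (1/Z + (∏ E) gcd(t,M0)/M0). ‖S‖^(2n) ≤ (2L)^n (L/T1 + (2/T1) ∑_t ‖C t‖)^n ≤ (4L)^n ((L/T1)^n + ((2/T1) ∑_t ‖C t‖)^n) ((x+y)^n ≤ 2^n (x^n + y^n)); (1/T1)^n ≤ 1/T1 ≤ 2/Z; (∑_{t ∈ Ico 1 T1} ‖C t‖)^n ≤ T1^(n-1) ∑ ‖C t‖^n (inner_le_nnorm.. or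
Finset.inner.. : pow_arith_mean_le_arith_mean_pow, or inner_mul_le_norm_mul_norm k+1 times). With Ggc: ≤ (4L)^n L^n (2/Z + 2^n C T^A (1/Z + (∏ E/M0) T)) ≤ 4^n (2 + 2^n C) T^(A+1) L^(2n) (1/Z + ∏ E/M0). -/
def GrMod : Prop := GbaStmt → GshStmt → GvdStmt → GgcStmt → GrStmt

/-- Module Gsp (theorem tGsp; splitting a phase into coprime moduli). Uses: SL.VPhaStmt.
Proof. First: t1g depends only on n modulo q (t1_g_congr), so VPha holds for tz: tz c (F D) n = tz (c iv D F) F n * tz (c iv F D) D n for coprime F, D ≥ 1 (n % (F D) is congruent to n modulo F and D). Induction on J: insert j J: F = Q j, D = ∏ J Q (coprime since the product is squarefree). p ∣ c iv D F iff p ∣ c for p ∣ F (iv D F is a unit modulo F). -/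
def GspStmt : Prop := ∀ (J : Finset ℕ) (Q : ℕ → ℕ) (c : ℤ), Squarefree (∏ j ∈ J, Q j) →
  ∃ d : ℕ → ℤ, (∀ n : ℤ, tz c (∏ j ∈ J, Q j) n = ∏ j ∈ J, tz (d j) (Q j) n) ∧
    ∀ j ∈ J, ∀ p : ℕ, p.Prime → p ∣ Q j → ((p : ℤ) ∣ d j ↔ (p : ℤ) ∣ c)

/-- Module Gks (theorem tGks; cutting a smooth number into small factors). Uses: MI.BgrStmt.
Proof. Induction on k. k = 0: Q ≤ 1, so Q = 1. k+1: if Q ≤ Y take K k = Q, K j = 1 for j < k. Otherwise Bgr with q := Q, t := 1, Z := Y (1 ≤ Y), y: r ∣ Q, r ≤ Y < r y, K k = r; Q/r ≤ Q y/Y ≤ (Y/y)^k, induction for Q/r. (All K j for j ≥ k+1 arbitrary.) -/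
def GksStmt : Prop := ∀ (k Q : ℕ) (Y y : ℝ), 1 ≤ Y → 1 ≤ y → 1 ≤ Q → (∀ p : ℕ, p.Prime → p ∣ Q → (p : ℝ) ≤ y) →
  (Q : ℝ) ≤ (Y / y) ^ k → ∃ K : ℕ → ℕ, ∏ j ∈ range k, K j = Q ∧ ∀ j < k, (K j : ℝ) ≤ Y

/-- Module Gli (theorem tGli; FINAL STATEMENT for Kloosterman phases on the line (n1, n2) + i (u1, u2)). Uses: GrStmt, GspStmt, SL.VPhaStmt.
Proof. M0, Q1, Q2, ∏ K ≥ 1 (squarefree). P0 = M0.primeFactors, ∏ P0 = M0. tz c1 (M0 Q1) n = tz c' M0 n * tz c'' Q1 n (Gsp for two factors, or VPha), Gsp for M0 = ∏ p: tz c' M0 n = ∏_{p ∈ P0} tz (d p) p n, p ∤ d p. F p z := tz (d p) p (n1 + z.val u1): it depends only on z, and F p (i : ZMod p) = tz (d p) p (n1 + i u1);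
for p ∈ P0, a0 = -n1/u1: F p z = 0 iff z = a0, otherwise ez p ((d p/u1) (z - a0)^(-1)): Gf 0 p (F p). K j, j < k, are pairwise coprime; Q1 = ∏_{j<k} gcd(Q1, K j), Q2 = ∏_{j<k} gcd(Q2, K j); Gsp: tz c'' Q1 n = ∏_j tz (d1 j) (gcd(Q1,K j)) n, tz c2 Q2 n = ∏_j tz (d2 j) (gcd(Q2,K j)) n.
Ψ j i := tz (d1 j) (gcd(Q1,K j)) (n1 + i u1) * tz (d2 j) (gcd(Q2,K j)) (n2 + i u2) has the period K j and norm ≤ 1. GrStmt with m = 0, E = ∅. -/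
def GliStmt : Prop := ∀ k : ℕ, ∃ C : ℝ, 0 < C ∧ ∃ A : ℕ, ∀ (X T L Z : ℝ) (M0 Q1 Q2 : ℕ) (K : ℕ → ℕ)
    (c1 c2 n1 n2 u1 u2 a b : ℤ), Tau X T → 1 ≤ Z → Squarefree (M0 * Q1) → Squarefree Q2 →
  (∀ p : ℕ, p.Prime → p ∣ M0 → 2 ^ k < p ∧ ¬ (p : ℤ) ∣ c1 ∧ ¬ (p : ℤ) ∣ u1) →
  Squarefree (∏ j ∈ range k, K j) → (∏ j ∈ range k, K j).Coprime M0 → Q1 ∣ ∏ j ∈ range k, K j →
  Q2 ∣ ∏ j ∈ range k, K j → (∀ j < k, (K j : ℝ) * Z ≤ L) → (M0 : ℝ) ≤ X → (M0 : ℝ) ≤ L → ((b - a : ℤ) : ℝ) ≤ L →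
  ‖∑ i ∈ Ioc a b, tz c1 (M0 * Q1) (n1 + i * u1) * tz c2 Q2 (n2 + i * u2)‖ ^ (2 ^ (k + 1)) ≤
    C * T ^ A * L ^ (2 ^ (k + 1)) * (1 / Z + 1 / (M0 : ℝ))

end Pool.Agent.Lib.SLG
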