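import Pool.Agent.Lib.SLG.SpecG

/-!
MP_00e23e_nt, project SL, P2 (a lock of arbitrarily small size), chapter L (helper28): the lattice chapter. Sums of Kloosterman
phases over the points of the lattice B ∣ n1 - l n2 in the box (N, 2N]^2 are cut into lines j f + i e (i varies, e short) and every
line j ≠ 0 is bounded by GliStmt. Points with a large gcd(n1, n2) are removed. Final statements LtrStmt (trivial bound) and LfiStmt.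

IDEA. e, f is a basis with nm e nm f ≤ 2B, n = j f + i e; b - a ≤ N/nm e + 1 for the i of one line, |j| ≤ 4N nm e/B, so all lines
together have ≤ 16 N^2/B points. Go = the part of B whose primes do not divide c1. A line is good if many primes of Go do not divide
e.1; if nearly all of Go divides e.1 (then also e.2) then nm e is large, nm f ≤ 2B/nm e is small, and no prime of
gcd(Go, e.1) divides f.1: take the lines in the direction f. The line j = 0 has ≤ t0 points with gcd(n1, n2) ≤ t0. (Version 2: abstract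
form of helper3, no powers of x.)

RULES. Module X: file Pool/Agent/Lib/SLG/X.lean, first line `import Pool.Agent.Lib.SLG.SpecL`, then
`namespace Pool.Agent.Lib.SLG` and `open Finset Pool.Agent.Lib.EH3 Pool.Agent.Lib.TB Pool.Agent.Results.MP_00e23e_nt Pool.Agent.Lib.MI`,
private lemmas with names starting with X_, final theorem `theorem tX (h1 : AStmt) ... : XStmt`; the statements listed under Uses
are hypotheses of your theorem, in this order. The docstring contains a complete proof. Definitions: MI/Defs.lean (en, Tau),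
MI/T1Base.lean (t1g). Never use congr!. Every module below 60 s. The constants are generous.
-/

namespace Pool.Agent.Lib.SLG

open Finset Pool.Agent.Lib.EH3 Pool.Agent.Lib.TB Pool.Agent.Results.MP_00e23e_nt Pool.Agent.Lib.MI

/-- the maximum norm -/
def nm (e : ℤ × ℤ) : ℤ := max |e.1| |e.2|

/-- the determinant -/
def dt (e f : ℤ × ℤ) : ℤ := e.1 * f.2 - e.2 * f.1

/-- e, f is a basis of the lattice B ∣ n1 - l n2 -/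
def Bs (B : ℕ) (l : ℤ) (e f : ℤ × ℤ) : Prop :=
  (B : ℤ) ∣ e.1 - l * e.2 ∧ (B : ℤ) ∣ f.1 - l * f.2 ∧ |dt e f| = (B : ℤ)

/-- the point j f + i e -/
def pt2 (e f : ℤ × ℤ) (i j : ℤ) : ℤ × ℤ := (j * f.1 + i * e.1, j * f.2 + i * e.2)

/-- the box (N, 2N]^2 -/
def bx (N : ℕ) (n : ℤ × ℤ) : Prop := ((N : ℤ) < n.1 ∧ n.1 ≤ 2 * (N : ℤ)) ∧ ((N : ℤ) < n.2 ∧ n.2 ≤ 2 * (N : ℤ))

/-- a bound for |j| -/
def JJ (B N : ℕ) (e : ℤ × ℤ) : ℤ := 4 * (N : ℤ) * nm e / (B : ℤ)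

/-- Module Lrb (theorem tLrb; reduced basis). Uses: nothing.
Proof. Q e = e.1^2 + e.2^2. The pairs (e, f) with Bs B l e f: (B, 0), (l, 1) is one of them (dt = B). Choose one with Q e + Q f minimal (toNat, WellFounded.min or Nat.find). Exchanging e and f keeps Bs (dt f e = - dt e f), so we may assume Q e ≤ Q f. For s = 1, -1: (e, f + s e) has Bs (dt e (f + s e) = dt e f), so
Q f ≤ Q (f + s e) = Q f + 2 s ⟨e, f⟩ + Q e: 2 |⟨e, f⟩| ≤ Q e. Q e Q f = ⟨e, f⟩^2 + (dt e f)^2 ≤ (Q e)^2/4 + B^2 ≤ Q e Q f/4 + B^2: 3 Q e Q f ≤ 4 B^2. (nm e)^2 ≤ Q e, (nm f)^2 ≤ Q f: (nm e nm f)^2 ≤ 4B^2. At the end exchange e and f once more if nm e > nm f. e ≠ 0 (dt ≠ 0), so nm e ≥ 1. -/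
def LrbStmt : Prop := ∀ (B : ℕ) (l : ℤ), 1 ≤ B → ∃ e f : ℤ × ℤ, Bs B l e f ∧ 1 ≤ nm e ∧ nm e ≤ nm f ∧
  nm e * nm f ≤ 2 * (B : ℤ)

/-- Module Lbs (theorem tLbs; coordinates and primes). Uses: nothing.
Proof. n.1 = l n.2 + B a, f.1 = l f.2 + B b: dt n f = B (a f.2 - b n.2); so dt e f = ±B divides dt n f and dt e n (the same computation). dt e f * n = dt n f * e + dt e n * f (both coordinates by ring): i = dt n f/dt e f, j = dt e n/dt e f. The points pt2 are in the lattice (linear). dt e (j f + i e) = j dt e f, dt (j f + i e) f = i dt e f: ring.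
Injectivity from these two (dt e f ≠ 0). 1 ≤ nm e: e ≠ 0 since dt ≠ 0. Primes p ∣ B: e.1 = l e.2 + p(..), p ∤ l: p ∣ e.1 iff p ∣ e.2; the same for f; if p ∣ e.1 and p ∣ f.1, then p^2 ∣ dt e f = ±B, contradiction to squarefree. -/
def LbsStmt : Prop := ∀ (B : ℕ) (l : ℤ) (e f : ℤ × ℤ), 1 ≤ B → Bs B l e f →
  1 ≤ nm e ∧ (∀ n : ℤ × ℤ, (B : ℤ) ∣ n.1 - l * n.2 → ∃ i j : ℤ, n = pt2 e f i j) ∧
  (∀ i j : ℤ, (B : ℤ) ∣ (pt2 e f i j).1 - l * (pt2 e f i j).2) ∧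
  (∀ i j : ℤ, dt e (pt2 e f i j) = j * dt e f) ∧ (∀ i j : ℤ, dt (pt2 e f i j) f = i * dt e f) ∧
  (∀ i j i' j' : ℤ, pt2 e f i j = pt2 e f i' j' → i = i' ∧ j = j') ∧
  (Squarefree B → Int.gcd l B = 1 → ∀ p : ℕ, p.Prime → p ∣ B →
    ((p : ℤ) ∣ e.1 ↔ (p : ℤ) ∣ e.2) ∧ ((p : ℤ) ∣ e.1 → ¬ (p : ℤ) ∣ f.1))

/-- Module Lin (theorem tLin; the sum by lines). Uses: LbsStmt.
Proof. (1) P j i := bx N (pt2 e f i j) is convex in i (four linear inequalities in i: for i1 ≤ i ≤ i2 the value j f.1 + i e.1 lies between the values at i1 and i2), and if P j i, P j i' then |i' - i| |e.1| < N and |i' - i| |e.2| < N, so |i' - i| nm e ≤ N. If no i has P j i: a j = b j = 0. Otherwise, i0 one of them: all others are in Icc (i0 - N) (i0 + N) (nm e ≥ 1);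
s := filter (P j) of this interval, a j := s.min' - 1, b j := s.max'; i in Ioc (a j) (b j) iff P j i by convexity, b j - (a j + 1) = max' - min' ≤ N/nm e. (2) If P j i, n = pt2 e f i j: |j| B = |dt e n| ≤ |e.1| |n.2| + |e.2| |n.1| ≤ 4 N nm e, so |j| ≤ JJ B N e.
(3) The left side is the sum over the filter of Ioc N (2N) ×ˢ Ioc N (2N); the map (j, i) ↦ ((pt2 e f i j).1.toNat, (pt2 e f i j).2.toNat) is a bijection of the sigma finset (Icc (-J) J).sigma (fun j => Ioc (a j) (b j)) onto it (Finset.sum_sigma', Finset.sum_bij or sum_nbij; Lbs: onto, one to one). -/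
def LinStmt : Prop := ∀ (B : ℕ) (l : ℤ) (e f : ℤ × ℤ) (N : ℕ), 1 ≤ B → 1 ≤ N → Bs B l e f →
  ∃ a b : ℤ → ℤ, (∀ j : ℤ, a j ≤ b j ∧ ((b j - a j : ℤ) : ℝ) ≤ (N : ℝ) / (nm e : ℝ) + 1) ∧
  (∀ j i : ℤ, i ∈ Ioc (a j) (b j) ↔ bx N (pt2 e f i j)) ∧
  ∀ F : ℤ × ℤ → ℂ, ∑ n1 ∈ Ioc N (2 * N), ∑ n2 ∈ Ioc N (2 * N),
    (if (B : ℤ) ∣ (n1 : ℤ) - l * n2 then F ((n1 : ℤ), (n2 : ℤ)) else 0) =
    ∑ j ∈ Icc (-(JJ B N e)) (JJ B N e), ∑ i ∈ Ioc (a j) (b j), F (pt2 e f i j)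

/-- Module Lgd (theorem tLgd; the points with a large gcd outside of the line 0). Uses: LbsStmt.
Proof. j ≠ 0, i counted, n = pt2 e f i j, t = gcd(n.1, n.2) > t0. t ∣ dt e n = j dt e f = ±j B and t is coprime to B (t ∣ n.1), so t ∣ j; t ∣ dt n f = i dt e f, so t ∣ i. So the i counted are in the union over the t ∣ |j|, t > t0 (Nat.divisors) of the multiples of t in Ioc (a j) (b j); there are ≤ (b j - a j)/t + 1 ≤ (N/nm e + 1)/t + 1 ≤ 2N/(nm e t0) + 1 of them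
(Int.Ioc_filter_dvd_card_eq_floor or similar; nm e ≤ N). The number of t is ≤ T (1 ≤ |j| ≤ JJ ≤ 4 N nm e ≤ X). The number of j ≠ 0 in the interval is 2 JJ ≤ 8 N nm e/B. Product: T (8 N nm e/B) (2N/(nm e t0) + 1). -/
def LgdStmt : Prop := ∀ (X T : ℝ) (B : ℕ) (l : ℤ) (e f : ℤ × ℤ) (N t0 : ℕ) (a b : ℤ → ℤ), Tau X T → 1 ≤ B → 1 ≤ N →
  1 ≤ t0 → Bs B l e f → nm e ≤ (N : ℤ) → 4 * (N : ℝ) * (nm e : ℝ) ≤ X →
  (∀ j : ℤ, a j ≤ b j ∧ ((b j - a j : ℤ) : ℝ) ≤ (N : ℝ) / (nm e : ℝ) + 1) →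
  ∑ j ∈ (Icc (-(JJ B N e)) (JJ B N e)).filter (fun j => j ≠ 0), ((#((Ioc (a j) (b j)).filter (fun i =>
    Int.gcd (pt2 e f i j).1 B = 1 ∧ t0 < Int.gcd (pt2 e f i j).1 (pt2 e f i j).2)) : ℕ) : ℝ) ≤
    T * (16 * (N : ℝ) ^ 2 / ((B : ℝ) * t0) + 8 * (N : ℝ) * (nm e : ℝ) / (B : ℝ))

/-- Module Lze (theorem tLze; the line 0 has few primitive points, and the number of the other points). Uses: nothing.
Proof. (1) pt2 e f i 0 = (i e.1, i e.2); in the box both are > 0, so e.1 ≠ 0 and i has the sign of e.1; gcd(i e.1, i e.2) = |i| gcd(e.1, e.2) ≥ |i|, so 1 ≤ |i| ≤ t0: i is in Icc 1 t0 or in Icc (-t0) (-1), at most t0 numbers. (2) for nm e ≤ N: 2 JJ (N/nm e + 1) ≤ (8 N nm e/B) (2N/nm e) = 16 N^2/B. -/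
def LzeStmt : Prop := ∀ (B : ℕ) (e f : ℤ × ℤ) (N t0 : ℕ) (a b : ℤ → ℤ), 1 ≤ B → 1 ≤ N → 1 ≤ nm e →
  (∀ j i : ℤ, i ∈ Ioc (a j) (b j) ↔ bx N (pt2 e f i j)) →
  (#((Ioc (a 0) (b 0)).filter (fun i => Int.gcd (pt2 e f i 0).1 (pt2 e f i 0).2 ≤ t0)) ≤ t0) ∧
  ((∀ j : ℤ, a j ≤ b j ∧ ((b j - a j : ℤ) : ℝ) ≤ (N : ℝ) / (nm e : ℝ) + 1) → nm e ≤ (N : ℤ) →
    ∑ j ∈ (Icc (-(JJ B N e)) (JJ B N e)).filter (fun j => j ≠ 0), ((b j - a j : ℤ) : ℝ) ≤ 16 * (N : ℝ) ^ 2 / (B : ℝ))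

/-- Module Lal (theorem tLal; the two directions). Uses: LrbStmt, LbsStmt.
Proof. (e, f) from Lrb. W^2 (nm e)^2 ≤ W^2 nm e nm f ≤ 2 W^2 B ≤ 2 N^2 ≤ (2N)^2: nm e W ≤ 2N. nm e ≤ nm e nm f ≤ 2B, the same for nm f (both are ≥ 1). Go ∣ B is squarefree; G1 = product of the primes of Go not dividing e.1 (Go.primeFactors.filter), G2 = product of the others, G1 G2 = Go.
If Z ≤ G1: e, f, G' = G1. Otherwise G1 < Z, G2 = Go/G1 > Z^2/Z = Z; every prime of G2 divides e.1 and e.2 (Lbs), so G2 ∣ e.1, e.2 (a product of distinct primes: Finset.prod_primes_dvd or Nat.Coprime induction), G2 ≤ nm e (e ≠ 0), so G2 nm f ≤ nm e nm f ≤ 2B = 2 G1 G2 Y: nm f ≤ 2 G1 Y ≤ 2 Z Y, nm f W ≤ 2 Z (W Y) ≤ 2N.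
The primes of G2 do not divide f.1 (Lbs). Take the basis (f, e) (Bs B l f e: |dt f e| = |dt e f|) and G' = G2. -/
def LalStmt : Prop := ∀ (W Z : ℝ) (B Go Y N : ℕ) (l : ℤ), 1 ≤ W → 1 ≤ Z → 1 ≤ B → 1 ≤ N → Squarefree B →
  Int.gcd l B = 1 → B = Go * Y → Z ^ 2 ≤ (Go : ℝ) → W ^ 2 * (B : ℝ) ≤ (N : ℝ) ^ 2 → Z * (W * (Y : ℝ)) ≤ (N : ℝ) →
  ∃ (e f : ℤ × ℤ) (G' : ℕ), Bs B l e f ∧ G' ∣ Go ∧ (∀ p : ℕ, p.Prime → p ∣ G' → ¬ (p : ℤ) ∣ e.1) ∧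
    (nm e : ℝ) * W ≤ 2 * (N : ℝ) ∧ nm e ≤ 2 * (B : ℤ) ∧ Z ≤ (G' : ℝ)

/-- Module Lmz (theorem tLmz; choice of M0). Uses: nothing.
Proof. M0 = the least divisor of G with Z ≤ M0 (G is one; Nat.find or Finset.min' of G.divisors.filter; G ≥ 1 since Z ≥ 1). If M0 > Z y ≥ 1, then M0 has a prime factor p ≤ y and M0/p is a divisor of G with M0/p ≥ M0/y > Z, smaller than M0: contradiction. -/
def LmzStmt : Prop := ∀ (Z y : ℝ) (G : ℕ), 1 ≤ Z → 1 ≤ y → Z ≤ (G : ℝ) → (∀ p : ℕ, p.Prime → p ∣ G → (p : ℝ) ≤ y) →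
  ∃ M0 : ℕ, M0 ∣ G ∧ Z ≤ (M0 : ℝ) ∧ (M0 : ℝ) ≤ Z * y

/-- Module Lli (theorem tLli; the bound of a line). Uses: GliStmt, GksStmt.
Proof. Q1 = (B/M0) w1, Q2 = w2, B w1 = M0 Q1. Q = lcm Q1 Q2 is squarefree, coprime to M0 (Squarefree (M0 Q1); M0 ∣ B and Squarefree (B w2)), Q ≤ B w1 w2, all primes of Q are ≤ y. Gks with Y := L/Z (≥ y ≥ 1): (Y/y)^k = (L/(Z y))^k ≥ Q: ∏_{j<k} K j = Q, K j ≤ L/Z. M0 ≤ Z y ≤ L.
Gli: ‖sum‖^(2^(k+1)) ≤ C T^A L^(2^(k+1)) (1/Z + 1/M0) ≤ 2 C T^A L^(2^(k+1)) /Z ≤ 2 C T^A (L Δ)^(2^(k+1)) ≤ ((1 + 2C) T^A L Δ)^(2^(k+1)) (u ≤ u^m for u ≥ 1, m ≥ 1). Take roots (pow_le_pow_left_iff or lt_of_pow_lt_pow_left). -/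
def LliStmt : Prop := ∀ k : ℕ, ∃ C : ℝ, 0 < C ∧ ∃ A : ℕ, ∀ (X T L Z y Δ : ℝ) (B w1 w2 M0 : ℕ)
    (c1 c2 n1 n2 u1 u2 a b : ℤ), Tau X T → 1 ≤ Z → 1 ≤ y → 0 < Δ → 1 ≤ Z * Δ ^ (2 ^ (k + 1)) →
  Squarefree (B * w1) → Squarefree (B * w2) → (∀ p : ℕ, p.Prime → p ∣ B * w1 * w2 → (p : ℝ) ≤ y) → M0 ∣ B →
  Z ≤ (M0 : ℝ) → (M0 : ℝ) ≤ Z * y → (∀ p : ℕ, p.Prime → p ∣ M0 → 2 ^ k < p ∧ ¬ (p : ℤ) ∣ c1 ∧ ¬ (p : ℤ) ∣ u1) →
  (M0 : ℝ) ≤ X → Z * y ≤ L → (B : ℝ) * w1 * w2 ≤ (L / (Z * y)) ^ k → ((b - a : ℤ) : ℝ) ≤ L →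
  ‖∑ i ∈ Ioc a b, tz c1 (B * w1) (n1 + i * u1) * tz c2 w2 (n2 + i * u2)‖ ≤ C * T ^ A * L * Δ

/-- Module Ltr (theorem tLtr; FINAL STATEMENT, the trivial bound). Uses: LrbStmt, LinStmt, LzeStmt.
Proof. (e, f) from Lrb: (nm e)^2 ≤ 2B ≤ N^2, nm e ≤ N. Lin with F n := if gcd(n.1, n.2) ≤ t0 then Φ n.1.toNat n.2.toNat else 0. The line 0 is ≤ t0 (Lze (1), norms ≤ 1), all the others ≤ 16 N^2/B (Lze (2); card (Ioc (a j) (b j)) = b j - a j). -/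
def LtrStmt : Prop := ∀ (B N t0 : ℕ) (l : ℤ) (Φ : ℕ → ℕ → ℂ), 1 ≤ B → 1 ≤ N → 2 * B ≤ N ^ 2 →
  (∀ n1 n2, ‖Φ n1 n2‖ ≤ 1) →
  ‖∑ n1 ∈ Ioc N (2 * N), ∑ n2 ∈ Ioc N (2 * N),
    (if (B : ℤ) ∣ (n1 : ℤ) - l * n2 ∧ Nat.gcd n1 n2 ≤ t0 then Φ n1 n2 else 0)‖ ≤ 16 * (N : ℝ) ^ 2 / (B : ℝ) + t0

/-- Module Lfi (theorem tLfi; FINAL STATEMENT, = SLH.LatStmt of helper3). Uses: LbsStmt, LinStmt, LgdStmt, LzeStmt, LalStmt, LmzStmt, LliStmt.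
Proof. C ≥ 2 large. w1, w2, B ≥ 1 (squarefree). e, f, G' from Lal (Z (W Y) ≤ N from C (Z y) (W Y) ≤ N); W ≥ C ≥ 2, so nm e ≤ 2N/W ≤ N. M0 ∣ G' from Lmz. t1g c q n = tz c q n for natural n, q ≥ 1 (t1g c q n depends only on n mod q). Lin with F n := if gcd(n.1, n.2) ≤ t0 then tz c1 (B w1) n.1 * tz c2 w2 n.2 else 0. Line 0: ≤ t0 (Lze).
For j ≠ 0: F = F1 - F2, F1 n = tz c1 (B w1) n.1 * tz c2 w2 n.2, F2 n = F1 n if gcd > t0, 0 otherwise; F2 n ≠ 0 only if n.1 is coprime to B w1, so Int.gcd n.1 B = 1: the sum of the ‖F2‖ is ≤ T (16 N^2/(B t0) + 8 N nm e/B) by Lgd (4 N nm e ≤ 8 N B ≤ X), and 8 N nm e/B ≤ 16 N^2/(B W).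
F1: Lli with L := 2N/nm e ≥ W ≥ Z y, L ≥ N/nm e + 1 ≥ b j - a j, (n1, n2) = j f, (u1, u2) = e, B w1 w2 ≤ (W/(C Z y))^k ≤ (L/(Z y))^k, M0 ≤ B ≤ X: every line is ≤ C T^A L Δ, the number of lines is 2 JJ ≤ 8 N nm e/B, the product is ≤ 16 C T^A (N^2/B) Δ. -/
def LfiStmt : Prop := ∀ k : ℕ, ∃ C : ℝ, 1 ≤ C ∧ ∃ A : ℕ, ∀ (X T W Z y Δ : ℝ) (N B w1 w2 Go Y t0 : ℕ) (l c1 c2 : ℤ),
  Tau X T → 1 ≤ Z → 1 ≤ y → 0 < Δ → 1 ≤ Z * Δ ^ (2 ^ (k + 1)) → 1 ≤ N → 1 ≤ t0 → Squarefree (B * w1) →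
  Squarefree (B * w2) → Int.gcd l B = 1 → 8 * (N : ℝ) * B ≤ X →
  (∀ p : ℕ, p.Prime → p ∣ B * w1 * w2 → (p : ℝ) ≤ y) → B = Go * Y →
  (∀ p : ℕ, p.Prime → p ∣ Go → 2 ^ k < p ∧ ¬ (p : ℤ) ∣ c1) →
  Z ^ 2 ≤ Go → W ^ 2 * B ≤ (N : ℝ) ^ 2 → C * (Z * y) * (W * Y) ≤ N → C * (Z * y) ^ 2 ≤ W →
  (B : ℝ) * w1 * w2 ≤ (W / (C * (Z * y))) ^ k →
  ‖∑ n1 ∈ Ioc N (2 * N), ∑ n2 ∈ Ioc N (2 * N), (if (B : ℤ) ∣ (n1 : ℤ) - l * n2 ∧ Nat.gcd n1 n2 ≤ t0 then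
    t1g c1 (B * w1) n1 * t1g c2 w2 n2 else 0)‖ ≤ C * T ^ A * ((N : ℝ) ^ 2 / B * (Δ + 1 / t0 + 1 / W) + t0)

end Pool.Agent.Lib.SLG
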